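import Pool.Agent.H95.LR.Def
import Pool.Agent.H95.LC.Siegel

/-!
# Module BoG (about 220 lines): Siegel's lemma makes the height of a relation small

PROOF. k = J / (6s) (natural division), w' = w - k m (k m ≤ J m < w, so w' ≥ 1), w' + (J+k) m = w + J m and
w' - 1 + (J+k) m = w - 1 + J m. e' i = digit (n+i), E i = digit (n+(w-1+Jm)-i).
Unknowns: v in ℤ^N, N = 2 (J+k+1): A' = ∑_{t ≤ J+k} v_t X^t, B' = ∑_{t ≤ J+k} v_(J+k+1+t) X^t.
Rows: (i) for i < w': coefficient e' (i + t m) at v_t and E (i + t m + r) at v_(J+k+1+t): the row applied to v is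
pr m r A' B' e' E i (op_apply). (ii) for t ≤ J+k with B = 0 or t m + r > (J+k) m: the unit row at J+k+1+t (for the other
t the zero row), so that row index set = Fin w' ⊕ Fin (J+k+1). Entries ≤ F' = F + 1 in absolute value.
Kernel over ℚ: the k+1 coefficient vectors of (X^j A, X^j B), 0 ≤ j ≤ k, are in the kernel:
pr m r (X^j A) (X^j B) e' E i = pr m r A B e' E (i + j m) (op_mul, sh_pow, or op_apply) = 0 because i + j m < w; (ii)
because natDegree (X^j B) * m + r ≤ (J+k) m. They are linearly independent: ∑ λ_j X^j A = 0 = ∑ λ_j X^j B and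
(A, B) ≠ (0, 0) give ∑ λ_j X^j = 0 (domain). (Compare `boost` in Pool/Agent/H95/LC/Boost.lean, where the same is done
for symmetric multiples, with `siegel_rank`; its text may be copied.)
siegel_rank with d = k+1, B := F': v ≠ 0, Mx v = 0, |v_t| ≤ (N F')^(N/d). J < 6s (k+1), so N = 2(J+k+1) ≤ 2(6s+1)(k+1),
N/d ≤ 12s+2, |v_t| ≤ (N F')^(12s+2); l1 A' + l1 B' ≤ ∑ |v| ≤ N (N F')^(12s+2) ≤ (N F')^(12s+3), N ≤ 4 (J+1).
μ = (12s+3) * Nat.clog 2 (4 (J+1) F'): 2^μ ≥ (4(J+1)F')^(12s+3) (Nat.le_pow_clog). 2 s K0 (μ+1) ≤ J + K for suitable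
K = K(F, s, K0): clog 2 (4(J+1)F') ≤ clog 2 (J+1) + clog 2 (4F') (or any such bound), and c * clog 2 (J+1) ≤ J + K_c for
every constant c (e.g. x ≤ 2^(x/c)... : the function c * clog 2 (J+1) - J is bounded above; `sq_growth` in
Pool/Agent/H95/LC/Free.lean is of this kind).
Good: dA, ne (v ≠ 0), dB (rows (ii)), per (same window), ref (B' ≠ 0 implies B ≠ 0 by rows (ii); x + y + r + 1 - w' =
x + y + r + 1 - w + k m), rel (rows (i)).
-/

set_option autoImplicit false

namespace Pool.Agent.H95.LR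

open Polynomial Finset
open Pool.Agent.H1.PC
open Pool.Agent.H95.LC (op G l1 siegel_rank)

private lemma boG_growth (D : ℕ) : ∃ K : ℕ, ∀ l : ℕ, D * (l + 1) ^ 2 ≤ 2 ^ l + K := by
  have h1 := tendsto_pow_const_div_const_pow_of_one_lt 2 (one_lt_two : (1 : ℝ) < 2)
  have h2 : ∀ᶠ n : ℕ in Filter.atTop, (n : ℝ) ^ 2 / 2 ^ n < 1 / (2 * (D + 1)) :=
    h1.eventually_lt_const (by positivity)
  obtain ⟨l0, hl0⟩ := Filter.eventually_atTop.1 h2
  refine ⟨D * (l0 + 1) ^ 2, fun l => ?_⟩
  rcases Nat.lt_or_ge l l0 with h | h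
  · have : D * (l + 1) ^ 2 ≤ D * (l0 + 1) ^ 2 :=
      Nat.mul_le_mul_left _ (Nat.pow_le_pow_left (by omega) 2)
    exact this.trans (Nat.le_add_left _ _)
  · have h3 := hl0 (l + 1) (by omega)
    rw [div_lt_div_iff₀ (by positivity) (by positivity)] at h3
    have h4 : (D : ℝ) * ((l : ℝ) + 1) ^ 2 ≤ 2 ^ l := by
      push_cast at h3
      rw [pow_succ (2 : ℝ) l] at h3
      have h5 : (0 : ℝ) ≤ ((l : ℝ) + 1) ^ 2 := by positivity
      nlinarith
    have h5 : D * (l + 1) ^ 2 ≤ 2 ^ l := by exact_mod_cast h4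
    omega

private lemma boG_num (D c F' : ℕ) (hc : 1 ≤ c) (hF' : 1 ≤ F') : ∃ K : ℕ, ∀ J : ℕ,
    D * (c * Nat.clog 2 (4 * (J + 1) * F') + 1) ≤ J + K := by
  obtain ⟨K', hK'⟩ := boG_growth (8 * F' * (D * c))
  refine ⟨K' + 1, fun J => ?_⟩
  set x := 4 * (J + 1) * F' with hx
  set l := Nat.clog 2 x with hl
  have hx1 : 1 < x := by
    rw [hx]
    have : 1 ≤ (J + 1) * F' := Nat.mul_pos (by omega) (by omega)
    have e : 4 * (J + 1) * F' = 4 * ((J + 1) * F') := by ring
    omega
  have hl1 : 2 ^ (l - 1) < x := by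
    have := Nat.pow_pred_clog_lt_self (b := 2) (by norm_num) hx1
    simpa [Nat.pred_eq_sub_one] using this
  have hl0 : 1 ≤ l := Nat.clog_pos (by norm_num) (by omega)
  have hl2 : 2 ^ l ≤ 8 * F' * (J + 1) := by
    have e : 2 ^ l = 2 * 2 ^ (l - 1) := by
      rw [← pow_succ', Nat.sub_add_cancel hl0]
    rw [e]
    calc 2 * 2 ^ (l - 1) ≤ 2 * x := Nat.mul_le_mul_left 2 hl1.le
      _ = 8 * F' * (J + 1) := by rw [hx]; ring
  have h1 := hK' l
  have h2 : D * (c * l + 1) ≤ D * c * (l + 1) ^ 2 := by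
    have e1 : c * l + 1 ≤ c * (l + 1) := by nlinarith
    have e2 : l + 1 ≤ (l + 1) ^ 2 := by nlinarith
    calc D * (c * l + 1) ≤ D * (c * (l + 1)) := Nat.mul_le_mul_left _ e1
      _ = D * c * (l + 1) := by ring
      _ ≤ D * c * (l + 1) ^ 2 := Nat.mul_le_mul_left _ e2
  have h3 : 8 * F' * (D * c * (l + 1) ^ 2) ≤ 8 * F' * (J + (K' + 1)) := by
    calc 8 * F' * (D * c * (l + 1) ^ 2) = 8 * F' * (D * c) * (l + 1) ^ 2 := by ring
      _ ≤ 2 ^ l + K' := h1
      _ ≤ 8 * F' * (J + 1) + 8 * F' * K' := by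
          apply Nat.add_le_add hl2
          have : 1 ≤ 8 * F' := by omega
          nlinarith
      _ = 8 * F' * (J + (K' + 1)) := by ring
  exact h2.trans (Nat.le_of_mul_le_mul_left h3 (by omega))

private lemma boG_opX {M : Type*} [AddCommGroup M] (m j : ℕ) (A : ℤ[X]) (y : ℕ → M) (i : ℕ) :
    op m (X ^ j * A) y i = op m A y (i + j * m) := by
  rw [Pool.Agent.H95.LC.op_mul]
  generalize op m A y = z
  have : op m (X ^ j : ℤ[X]) z = ((Pool.Agent.H95.LC.sh M m) ^ j) z := by
    simp [op, map_pow]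
  rw [this, Pool.Agent.H95.LC.sh_pow]

private lemma boG_prX {M : Type*} [AddCommGroup M] (m r j : ℕ) (A B : ℤ[X]) (x y : ℕ → M)
    (i : ℕ) : pr m r (X ^ j * A) (X ^ j * B) x y i = pr m r A B x y (i + j * m) := by
  unfold pr
  rw [boG_opX, boG_opX]

private lemma boG_deg {A : ℤ[X]} {J k j : ℕ} (hJ : A.natDegree ≤ J) (hj : j ≤ k) :
    (X ^ j * A).natDegree ≤ J + k := by
  refine natDegree_mul_le.trans ?_
  rw [natDegree_X_pow]
  omega

private lemma boG_indep {A : ℤ[X]} (hA : A ≠ 0) {J k : ℕ} (hJ : A.natDegree ≤ J)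
    (g : Fin (k + 1) → ℚ)
    (hg : ∀ t < J + k + 1, ∑ j : Fin (k + 1), g j * (((X ^ (j : ℕ) * A).coeff t : ℤ) : ℚ) = 0) :
    ∀ j, g j = 0 := by
  set AQ : ℚ[X] := A.map (Int.castRingHom ℚ) with hAQ
  have hAQ0 : AQ ≠ 0 := by
    rw [hAQ]
    intro h
    apply hA
    exact (Polynomial.map_eq_zero_iff (RingHom.injective_int (Int.castRingHom ℚ))).1 h
  set S : ℚ[X] := ∑ j : Fin (k + 1), C (g j) * X ^ (j : ℕ) with hS
  have hP : S * AQ = 0 := by
    ext t
    rw [hS, Finset.sum_mul, finsetSum_coeff, coeff_zero]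
    have e1 : ∀ j : Fin (k + 1), (C (g j) * X ^ (j : ℕ) * AQ).coeff t =
        g j * (((X ^ (j : ℕ) * A).coeff t : ℤ) : ℚ) := by
      intro j
      rw [show C (g j) * X ^ (j : ℕ) * AQ =
        C (g j) * (X ^ (j : ℕ) * A).map (Int.castRingHom ℚ) by
          rw [Polynomial.map_mul, ← hAQ, Polynomial.map_pow, Polynomial.map_X]; ring,
        coeff_C_mul, coeff_map]
      rfl
    simp only [e1]
    rcases Nat.lt_or_ge t (J + k + 1) with ht | ht
    · exact hg t ht
    · apply Finset.sum_eq_zero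
      intro j _
      have h1 : (X ^ (j : ℕ) * A).natDegree < t :=
        lt_of_le_of_lt (boG_deg (k := k) hJ (by have := j.2; omega)) (by omega)
      rw [coeff_eq_zero_of_natDegree_lt h1]
      simp
  have hS0 : S = 0 := (mul_eq_zero.1 hP).resolve_right hAQ0
  intro i
  have h1 : S.coeff i = 0 := by rw [hS0, coeff_zero]
  rw [hS, finsetSum_coeff] at h1
  have h2 : ∀ j : Fin (k + 1), (C (g j) * X ^ (j : ℕ)).coeff i = if j = i then g j else 0 := by
    intro j
    rw [coeff_C_mul, coeff_X_pow]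
    by_cases h : j = i
    · subst h
      simp
    · rw [if_neg h, if_neg (fun h1 => h (Fin.ext h1.symm)), mul_zero]
  simp only [h2] at h1
  rw [Finset.sum_ite_eq' Finset.univ i] at h1
  simpa using h1

private lemma boG_poly {L : ℕ} (c : Fin L → ℤ) :
    (∀ t : Fin L, (∑ t : Fin L, monomial (t : ℕ) (c t) : ℤ[X]).coeff t = c t) ∧
      (∑ t : Fin L, monomial (t : ℕ) (c t) : ℤ[X]).natDegree ≤ L - 1 := by
  constructor
  · intro t
    rw [finsetSum_coeff, Finset.sum_eq_single t]
    · rw [coeff_monomial, if_pos rfl]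
    · intro s _ hs
      rw [coeff_monomial, if_neg (fun h => hs (Fin.ext h))]
    · intro h; exact absurd (Finset.mem_univ t) h
  · apply natDegree_sum_le_of_forall_le
    intro t _
    refine (natDegree_monomial_le _).trans ?_
    have := t.2
    omega

private lemma boG_core {m r : ℕ} {e E : ℕ → ℤ} {F : ℕ} (he : ∀ k, |e k| ≤ F)
    (hE : ∀ k, |E k| ≤ F) {J w : ℕ} {A B : ℤ[X]} (hne : A ≠ 0 ∨ B ≠ 0) (hA : A.natDegree ≤ J)
    (hB : B = 0 ∨ B.natDegree * m + r ≤ J * m) (hm : 1 ≤ m)
    (hrel : ∀ i < w, pr m r A B e E i = 0) (k : ℕ) :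
    ∃ A' B' : ℤ[X], (A' ≠ 0 ∨ B' ≠ 0) ∧ A'.natDegree ≤ J + k ∧
      (B' ≠ 0 → B ≠ 0 ∧ B'.natDegree * m + r ≤ (J + k) * m) ∧
      (∀ i < w - k * m, pr m r A' B' e E i = 0) ∧
      ((l1 A' + l1 B' : ℤ) : ℝ) ≤ ((2 * (J + k + 1) : ℕ) : ℝ) *
        (((2 * (J + k + 1) : ℕ) : ℝ) * ((F + 1 : ℕ) : ℝ)) ^
          (((2 * (J + k + 1) : ℕ) : ℝ) / ((k + 1 : ℕ) : ℝ)) := by
  classical
  have hBd : B.natDegree ≤ J := by
    rcases hB with h | h
    · rw [h]
      simp
    · have : B.natDegree * m ≤ J * m := by omega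
      exact Nat.le_of_mul_le_mul_right this (by omega)
  set L := J + k + 1 with hL
  have hLN : 2 * L = L + L := by ring
  rw [hLN]
  set w' := w - k * m with hw'
  let bad : ℕ → Prop := fun s => B = 0 ∨ (J + k) * m < s * m + r
  let Mx : Matrix (Fin w' ⊕ Fin L) (Fin (L + L)) ℤ := fun x =>
    match x with
    | Sum.inl i => Fin.append (fun t : Fin L => e (i + t * m)) (fun t : Fin L => E (i + t * m + r))
    | Sum.inr s => Fin.append (fun _ : Fin L => (0 : ℤ))
        (fun t : Fin L => if t = s ∧ bad s then 1 else 0)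
  have hMb : ∀ x t, |Mx x t| ≤ ((F + 1 : ℕ) : ℤ) := by
    intro x t
    have hF : (0 : ℤ) ≤ F := by positivity
    refine Fin.addCases (fun t => ?_) (fun t => ?_) t
    · rcases x with i | s
      · show |Fin.append (fun t : Fin L => e (i + t * m)) (fun t : Fin L => E (i + t * m + r))
          (Fin.castAdd L t)| ≤ _
        rw [Fin.append_left]
        have := he (i + t * m)
        push_cast
        linarith
      · show |Fin.append (fun _ : Fin L => (0 : ℤ))
          (fun t : Fin L => if t = s ∧ bad s then 1 else 0) (Fin.castAdd L t)| ≤ _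
        rw [Fin.append_left, abs_zero]
        push_cast
        linarith
    · rcases x with i | s
      · show |Fin.append (fun t : Fin L => e (i + t * m)) (fun t : Fin L => E (i + t * m + r))
          (Fin.natAdd L t)| ≤ _
        rw [Fin.append_right]
        have := hE (i + t * m + r)
        push_cast
        linarith
      · show |Fin.append (fun _ : Fin L => (0 : ℤ))
          (fun t : Fin L => if t = s ∧ bad s then 1 else 0) (Fin.natAdd L t)| ≤ _
        rw [Fin.append_right]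
        push_cast
        split_ifs
        · rw [abs_one]
          linarith
        · rw [abs_zero]
          linarith
  -- the rows applied to a vector
  have hop : ∀ (P Q : ℤ[X]) (_ : P.natDegree ≤ J + k) (_ : Q.natDegree ≤ J + k) (i : Fin w'),
      Mx.mulVec (Fin.append (fun t : Fin L => P.coeff t) (fun t : Fin L => Q.coeff t))
        (Sum.inl i) = pr m r P Q e E i := by
    intro P Q hP hQ i
    unfold pr
    rw [Pool.Agent.H95.LC.op_apply hP, Pool.Agent.H95.LC.op_apply hQ, ← hL, Finset.sum_range,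
      Finset.sum_range]
    simp only [Matrix.mulVec, dotProduct, Mx, smul_eq_mul]
    rw [Fin.sum_univ_add]
    congr 1
    · apply Finset.sum_congr rfl
      intro t _
      rw [Fin.append_left, Fin.append_left, mul_comm]
    · apply Finset.sum_congr rfl
      intro t _
      rw [Fin.append_right, Fin.append_right, mul_comm]
  have hrf : ∀ (b : Fin (L + L) → ℤ) (s : Fin L),
      Mx.mulVec b (Sum.inr s) = if bad s then b (Fin.natAdd L s) else 0 := by
    intro b s
    simp only [Matrix.mulVec, dotProduct, Mx]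
    rw [Fin.sum_univ_add]
    simp only [Fin.append_left, Fin.append_right, zero_mul, Finset.sum_const_zero, zero_add]
    rw [Finset.sum_eq_single s]
    · by_cases h : bad s
      · rw [if_pos ⟨rfl, h⟩, if_pos h, one_mul]
      · rw [if_neg (fun h' => h h'.2), if_neg h, zero_mul]
    · intro t _ ht
      rw [if_neg (fun h' => ht h'.1), zero_mul]
    · intro h; exact absurd (Finset.mem_univ s) h
  -- the kernel
  have hker : k + 1 ≤ Module.finrank ℚ
      (LinearMap.ker (Matrix.mulVecLin (Mx.map (fun x : ℤ => (x : ℚ))))) := by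
    let vv : Fin (k + 1) → Fin (L + L) → ℤ := fun j =>
      Fin.append (fun t : Fin L => (X ^ (j : ℕ) * A).coeff t)
        (fun t : Fin L => (X ^ (j : ℕ) * B).coeff t)
    have hmem : ∀ j : Fin (k + 1), (fun t : Fin (L + L) => ((vv j t : ℤ) : ℚ)) ∈
        LinearMap.ker (Matrix.mulVecLin (Mx.map (fun x : ℤ => (x : ℚ)))) := by
      intro j
      have hj : (j : ℕ) ≤ k := by have := j.2; omega
      have hint : Mx.mulVec (vv j) = 0 := by
        funext x
        rcases x with i | s
        · show Mx.mulVec (Fin.append (fun t : Fin L => (X ^ (j : ℕ) * A).coeff t)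
            (fun t : Fin L => (X ^ (j : ℕ) * B).coeff t)) (Sum.inl i) = 0
          rw [hop _ _ (boG_deg hA hj) (boG_deg hBd hj) i, boG_prX]
          apply hrel
          have h1 : (j : ℕ) * m ≤ k * m := Nat.mul_le_mul_right m hj
          have h2 := i.2
          omega
        · rw [hrf]
          show (if bad s then Fin.append (fun t : Fin L => (X ^ (j : ℕ) * A).coeff t)
            (fun t : Fin L => (X ^ (j : ℕ) * B).coeff t) (Fin.natAdd L s) else 0) = 0
          rw [Fin.append_right]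
          by_cases h : bad s
          · rw [if_pos h]
            rcases hB with hB0 | hB0
            · rw [hB0, mul_zero, coeff_zero]
            · rcases h with h | h
              · rw [h, mul_zero, coeff_zero]
              · apply coeff_eq_zero_of_natDegree_lt
                refine lt_of_le_of_lt natDegree_mul_le ?_
                rw [natDegree_X_pow]
                by_contra hc
                have h1 : (s : ℕ) ≤ (j : ℕ) + B.natDegree := by omega
                have h2 : (s : ℕ) * m ≤ ((j : ℕ) + B.natDegree) * m := Nat.mul_le_mul_right m h1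
                have h3 : (j : ℕ) * m ≤ k * m := Nat.mul_le_mul_right m hj
                have h4 : ((j : ℕ) + B.natDegree) * m = j * m + B.natDegree * m := by ring
                have h5 : (J + k) * m = J * m + k * m := by ring
                omega
          · rw [if_neg h]
      rw [LinearMap.mem_ker, Matrix.mulVecLin_apply]
      funext x
      have h3 := congrFun hint x
      have h4 : ((Mx.mulVec (vv j) x : ℤ) : ℚ) = 0 := by
        rw [h3]; simp
      simp only [Matrix.mulVec, dotProduct, Matrix.map_apply] at h4 ⊢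
      push_cast at h4
      exact h4
    let v : Fin (k + 1) → LinearMap.ker (Matrix.mulVecLin (Mx.map (fun x : ℤ => (x : ℚ)))) :=
      fun j => ⟨_, hmem j⟩
    have hv : LinearIndependent ℚ v := by
      apply LinearIndependent.of_comp (Submodule.subtype _)
      show LinearIndependent ℚ (fun (j : Fin (k + 1)) (t : Fin (L + L)) => ((vv j t : ℤ) : ℚ))
      rw [Fintype.linearIndependent_iff]
      intro g hg
      rcases hne with h | h
      · apply boG_indep h hA g
        intro t ht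
        have h1 := congrFun hg (Fin.castAdd L ⟨t, ht⟩)
        rw [Finset.sum_apply] at h1
        simp only [Pi.smul_apply, smul_eq_mul, vv, Fin.append_left, Pi.zero_apply] at h1
        exact h1
      · apply boG_indep h hBd g
        intro t ht
        have h1 := congrFun hg (Fin.natAdd L ⟨t, ht⟩)
        rw [Finset.sum_apply] at h1
        simp only [Pi.smul_apply, smul_eq_mul, vv, Fin.append_right, Pi.zero_apply] at h1
        exact h1
    have := hv.fintype_card_le_finrank
    rwa [Fintype.card_fin] at this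
  obtain ⟨b, hb0, hbM, hbb⟩ := siegel_rank (by omega : 1 ≤ k + 1) (by omega : 1 ≤ F + 1) Mx hMb
    (by omega : 1 ≤ L + L) hker
  obtain ⟨hAc, hAd⟩ := boG_poly (fun t : Fin L => b (Fin.castAdd L t))
  obtain ⟨hBc, hBd'⟩ := boG_poly (fun t : Fin L => b (Fin.natAdd L t))
  set A' : ℤ[X] := ∑ t : Fin L, monomial (t : ℕ) (b (Fin.castAdd L t)) with hA'
  set B' : ℤ[X] := ∑ t : Fin L, monomial (t : ℕ) (b (Fin.natAdd L t)) with hB'
  have hAd2 : A'.natDegree ≤ J + k := by omega
  have hBd2 : B'.natDegree ≤ J + k := by omega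
  have hbv : Fin.append (fun t : Fin L => A'.coeff t) (fun t : Fin L => B'.coeff t) = b := by
    funext t
    refine Fin.addCases (fun t => ?_) (fun t => ?_) t
    · rw [Fin.append_left, hAc]
    · rw [Fin.append_right, hBc]
  refine ⟨A', B', ?_, hAd2, ?_, ?_, ?_⟩
  · by_contra hc
    push Not at hc
    apply hb0
    rw [← hbv, hc.1, hc.2]
    funext t
    refine Fin.addCases (fun t => ?_) (fun t => ?_) t
    · rw [Fin.append_left, coeff_zero]
      rfl
    · rw [Fin.append_right, coeff_zero]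
      rfl
  · intro hB0
    have h1 : B'.coeff B'.natDegree ≠ 0 := by
      rw [coeff_natDegree]
      exact leadingCoeff_ne_zero.2 hB0
    have h2 : B'.natDegree < L := by omega
    have h3 := congrFun hbM (Sum.inr (⟨B'.natDegree, h2⟩ : Fin L))
    rw [hrf] at h3
    have h4 := hBc ⟨B'.natDegree, h2⟩
    have h5 : ¬ bad B'.natDegree := by
      intro h6
      have h7 : b (Fin.natAdd L ⟨B'.natDegree, h2⟩) = 0 := by
        have h8 : (if bad B'.natDegree then b (Fin.natAdd L ⟨B'.natDegree, h2⟩) else 0) = 0 := h3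
        rwa [if_pos h6] at h8
      apply h1
      have h9 : B'.coeff B'.natDegree = b (Fin.natAdd L ⟨B'.natDegree, h2⟩) := h4
      rw [h9, h7]
    have h6 : ¬ (B = 0 ∨ (J + k) * m < B'.natDegree * m + r) := h5
    push Not at h6
    exact h6
  · intro i hi
    have h1 := congrFun hbM (Sum.inl (⟨i, hi⟩ : Fin w'))
    rw [← hbv, hop A' B' hAd2 hBd2 ⟨i, hi⟩] at h1
    exact h1
  · rw [Pool.Agent.H95.LC.l1_eq (show A'.natDegree < L by omega),
      Pool.Agent.H95.LC.l1_eq (show B'.natDegree < L by omega), Finset.sum_range, Finset.sum_range]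
    push_cast
    have h1 : ∀ t ∈ (Finset.univ : Finset (Fin L)), |((A'.coeff t : ℤ) : ℝ)| ≤
        (((L + L : ℕ) : ℝ) * ((F + 1 : ℕ) : ℝ)) ^ (((L + L : ℕ) : ℝ) / ((k + 1 : ℕ) : ℝ)) := by
      intro t _
      have := hbb (Fin.castAdd L t)
      rw [← hAc t] at this
      rw [← Int.cast_abs]
      exact this
    have h2 : ∀ t ∈ (Finset.univ : Finset (Fin L)), |((B'.coeff t : ℤ) : ℝ)| ≤
        (((L + L : ℕ) : ℝ) * ((F + 1 : ℕ) : ℝ)) ^ (((L + L : ℕ) : ℝ) / ((k + 1 : ℕ) : ℝ)) := by
      intro t _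
      have := hbb (Fin.natAdd L t)
      rw [← hBc t] at this
      rw [← Int.cast_abs]
      exact this
    refine (add_le_add (Finset.sum_le_sum h1) (Finset.sum_le_sum h2)).trans (le_of_eq ?_)
    rw [Finset.sum_const, Finset.card_univ, Fintype.card_fin, nsmul_eq_mul]
    push_cast
    ring


lemma boost_good (F s K0 : ℕ) (hs : 1 ≤ s) : ∃ K : ℕ, ∀ (α : ℝ) (R : ℕ → ℤ)
    (n w J m r : ℕ) (A B : ℤ[X]), (∀ k, |digit α R k| ≤ F) → Good α R n w J m r A B → J * m < w →
    ∃ (k μ : ℕ) (A' B' : ℤ[X]), 6 * s * k ≤ J ∧ 2 * s * (K0 * (μ + 1)) ≤ J + K ∧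
      l1 A' + l1 B' ≤ 2 ^ μ ∧ Good α R n (w - k * m) (J + k) m r A' B' := by
  obtain ⟨K, hK⟩ := boG_num (2 * s * K0) (12 * s + 3) (F + 1) (by omega) (by omega)
  refine ⟨K, ?_⟩
  intro α R n w J m r A B hdig hG hJw
  set k := J / (6 * s) with hk
  have hkJ : 6 * s * k ≤ J := Nat.mul_div_le J (6 * s)
  have hJk : J < 6 * s * (k + 1) := by
    rw [hk]
    exact Nat.lt_mul_div_succ J (by omega)
  have hkJ' : k ≤ J := by
    have : 1 * k ≤ 6 * s * k := Nat.mul_le_mul_right k (by omega)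
    omega
  have hkm : k * m ≤ J * m := Nat.mul_le_mul_right m hkJ'
  obtain ⟨A', B', hne', hAd, hBd, hrel', hl⟩ := boG_core (m := m) (r := r)
    (e := fun i => digit α R (n + i)) (E := fun i => digit α R (n + (w - 1 + J * m) - i))
    (F := F) (fun i => hdig _) (fun i => hdig _) (J := J) (w := w) hG.ne hG.dA hG.dB hG.hm hG.rel k
  have hJkm : (J + k) * m = J * m + k * m := by ring
  refine ⟨k, (12 * s + 3) * Nat.clog 2 (4 * (J + 1) * (F + 1)), A', B', hkJ, ?_, ?_, ?_⟩
  · have := hK J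
    have e : 2 * s * (K0 * ((12 * s + 3) * Nat.clog 2 (4 * (J + 1) * (F + 1)) + 1)) =
      2 * s * K0 * ((12 * s + 3) * Nat.clog 2 (4 * (J + 1) * (F + 1)) + 1) := by ring
    rw [e]
    exact this
  · set N := 2 * (J + k + 1) with hN
    have hN1 : 1 ≤ N * (F + 1) := Nat.mul_pos (by omega) (by omega)
    have hbase : (1 : ℝ) ≤ ((N : ℕ) : ℝ) * ((F + 1 : ℕ) : ℝ) := by exact_mod_cast hN1
    have hexp : ((N : ℕ) : ℝ) / ((k + 1 : ℕ) : ℝ) ≤ ((12 * s + 2 : ℕ) : ℝ) := by
      rw [div_le_iff₀ (by positivity)]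
      have h1 : N ≤ (12 * s + 2) * (k + 1) := by
        have : (12 * s + 2) * (k + 1) = 2 * (6 * s * (k + 1)) + 2 * (k + 1) := by ring
        omega
      exact_mod_cast h1
    have h2 : ((l1 A' + l1 B' : ℤ) : ℝ) ≤ ((N * (F + 1) : ℕ) : ℝ) ^ (12 * s + 3) := by
      refine hl.trans ?_
      have h3 : (((N : ℕ) : ℝ) * ((F + 1 : ℕ) : ℝ)) ^ (((N : ℕ) : ℝ) / ((k + 1 : ℕ) : ℝ)) ≤
          (((N : ℕ) : ℝ) * ((F + 1 : ℕ) : ℝ)) ^ (12 * s + 2) := by
        rw [← Real.rpow_natCast]
        exact Real.rpow_le_rpow_of_exponent_le hbase hexp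
      have h4 : ((N : ℕ) : ℝ) ≤ ((N : ℕ) : ℝ) * ((F + 1 : ℕ) : ℝ) := by
        have : N ≤ N * (F + 1) := Nat.le_mul_of_pos_right _ (by omega)
        exact_mod_cast this
      calc ((N : ℕ) : ℝ) * (((N : ℕ) : ℝ) * ((F + 1 : ℕ) : ℝ)) ^
            (((N : ℕ) : ℝ) / ((k + 1 : ℕ) : ℝ))
          ≤ (((N : ℕ) : ℝ) * ((F + 1 : ℕ) : ℝ)) *
            (((N : ℕ) : ℝ) * ((F + 1 : ℕ) : ℝ)) ^ (12 * s + 2) :=
            mul_le_mul h4 h3 (by positivity) (by positivity)
        _ = ((N * (F + 1) : ℕ) : ℝ) ^ (12 * s + 3) := by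
            push_cast
            ring
    have h5 : N * (F + 1) ≤ 4 * (J + 1) * (F + 1) := Nat.mul_le_mul_right _ (by omega)
    have h6 : (N * (F + 1)) ^ (12 * s + 3) ≤
        2 ^ ((12 * s + 3) * Nat.clog 2 (4 * (J + 1) * (F + 1))) := by
      calc (N * (F + 1)) ^ (12 * s + 3) ≤ (4 * (J + 1) * (F + 1)) ^ (12 * s + 3) :=
            Nat.pow_le_pow_left h5 _
        _ ≤ (2 ^ Nat.clog 2 (4 * (J + 1) * (F + 1))) ^ (12 * s + 3) :=
            Nat.pow_le_pow_left (Nat.le_pow_clog (by norm_num) _) _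
        _ = 2 ^ ((12 * s + 3) * Nat.clog 2 (4 * (J + 1) * (F + 1))) := by
            rw [← pow_mul, Nat.mul_comm]
    have h7 : ((l1 A' + l1 B' : ℤ) : ℝ) ≤
        ((2 ^ ((12 * s + 3) * Nat.clog 2 (4 * (J + 1) * (F + 1))) : ℕ) : ℝ) := by
      refine h2.trans ?_
      exact_mod_cast h6
    have h8 : l1 A' + l1 B' ≤
        ((2 ^ ((12 * s + 3) * Nat.clog 2 (4 * (J + 1) * (F + 1))) : ℕ) : ℤ) := by
      exact_mod_cast h7
    push_cast at h8
    exact h8
  · have hcast : ((w - k * m : ℕ) : ℤ) = (w : ℤ) - (k : ℤ) * m := by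
      rw [Nat.cast_sub (by omega)]
      push_cast
      ring
    refine ⟨hG.hm, hG.hr, hAd, ?_, hne', ?_, ?_, ?_⟩
    · by_cases h : B' = 0
      · exact Or.inl h
      · exact Or.inr (hBd h).2
    · intro i hi
      apply hG.per
      omega
    · intro hB' x y hx hy hd
      apply hG.ref (hBd hB').1 x y (by omega) (by omega)
      have e : (x : ℤ) + y + r + 1 - w = ((x : ℤ) + y + r + 1 - ((w - k * m : ℕ) : ℤ)) -
          (k : ℤ) * m := by
        rw [hcast]
        ring
      rw [e]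
      exact dvd_sub hd (Dvd.intro_left _ rfl)
    · intro i hi
      have e : w - k * m - 1 + (J + k) * m = w - 1 + J * m := by omega
      rw [e]
      exact hrel' i hi

end Pool.Agent.H95.LR
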