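import Mathlib

/-!
# Module FW (about 110 lines, only Mathlib): Fine and Wilf, the least period of a window

PROOFS. `fw_gcd` (a factor u_s ... u_(N-1) of length at least p + q with the periods p and q has the period
gcd p q): strong induction on p + q; p = q: gcd = p. If p < q: the factor has the period q - p, because for
i ≥ s, i + (q - p) < N: if i + q < N then u (i + q - p) = u (i + q) = u i (period p, then q); if i + q ≥ N
then i ≥ s + p (as s + p + q ≤ N), so u i = u (i - p) and u (i - p + q) = u (i - p), i - p + q = i + (q - p).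
gcd p (q - p) = gcd p q, and s + p + (q - p) ≤ N. If p > q symmetric.
`fw_min`: m = the least positive period of u_0 ... u_(N-1) (Nat.find, L is one, so m ≤ L). By the period m,
u x = u y whenever x, y < N and x ≡ y mod m. Let j, s, N' be as in the statement. The factor s, ..., N'-1 has
the periods m and j, so also g = gcd m j, 1 ≤ g ≤ m, g ≤ j. Then g is a period of the whole word: for i + g < N
choose i' ≡ i mod m, s ≤ i' < s + m; i' + g < s + m + j ≤ N', so u (i' + g) = u i'; u i' = u i and
u (i' + g) = u (i + g) by the period m. By minimality m ≤ g, so g = m, m ∣ j.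
-/

set_option autoImplicit false

namespace Pool.Agent.H95.LR

private theorem FW_diff {u : ℕ → ℤ} {s N p d : ℕ} (hN : s + p + (p + d) ≤ N)
    (h1 : ∀ i, s ≤ i → i + p < N → u (i + p) = u i)
    (h2 : ∀ i, s ≤ i → i + (p + d) < N → u (i + (p + d)) = u i) :
    ∀ i, s ≤ i → i + d < N → u (i + d) = u i := by
  intro i hi hd
  by_cases h : i + (p + d) < N
  · have e1 := h2 i hi h
    have e2 := h1 (i + d) (by omega) (by omega)
    have e3 : i + d + p = i + (p + d) := by omega
    rw [e3] at e2
    rw [← e2, e1]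
  · obtain ⟨k, rfl⟩ : ∃ k, i = k + p := ⟨i - p, by omega⟩
    have e1 := h1 k (by omega) (by omega)
    have e2 := h2 k (by omega) (by omega)
    have e3 : k + p + d = k + (p + d) := by omega
    rw [e3, e2, e1]

lemma fw_gcd {u : ℕ → ℤ} {s N p q : ℕ} (hp : 1 ≤ p) (hq : 1 ≤ q) (hN : s + p + q ≤ N)
    (h1 : ∀ i, s ≤ i → i + p < N → u (i + p) = u i)
    (h2 : ∀ i, s ≤ i → i + q < N → u (i + q) = u i) :
    ∀ i, s ≤ i → i + Nat.gcd p q < N → u (i + Nat.gcd p q) = u i := by
  obtain ⟨M, hM⟩ : ∃ M, M = p + q := ⟨_, rfl⟩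
  induction M using Nat.strong_induction_on generalizing p q with
  | _ M ih =>
    rcases lt_trichotomy p q with h | h | h
    · obtain ⟨d, rfl⟩ : ∃ d, q = p + d := ⟨q - p, by omega⟩
      have hd := FW_diff (by omega) h1 h2
      have h3 := ih (p + d) (by omega) (p := p) (q := d) hp (by omega) (by omega) h1 hd rfl
      rw [Nat.gcd_self_add_right]
      exact h3
    · subst h
      rw [Nat.gcd_self]
      exact h1
    · obtain ⟨d, rfl⟩ : ∃ d, p = q + d := ⟨p - q, by omega⟩
      have hd := FW_diff (by omega) h2 h1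
      have h3 := ih (q + d) (by omega) (p := q) (q := d) hq (by omega) (by omega) h2 hd rfl
      rw [Nat.gcd_comm, Nat.gcd_self_add_right]
      exact h3

lemma fw_min {u : ℕ → ℤ} {N L : ℕ} (hL : 1 ≤ L) (hLN : L ≤ N)
    (hper : ∀ i, i + L < N → u (i + L) = u i) :
    ∃ m, 1 ≤ m ∧ m ≤ L ∧ (∀ i, i + m < N → u (i + m) = u i) ∧
      ∀ j s N' : ℕ, 1 ≤ j → s + m + j ≤ N' → N' ≤ N →
        (∀ i, s ≤ i → i + j < N' → u (i + j) = u i) → m ∣ j := by
  classical
  have hex : ∃ m, 1 ≤ m ∧ ∀ i, i + m < N → u (i + m) = u i := ⟨L, hL, hper⟩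
  obtain ⟨m, hmd⟩ : ∃ m, m = Nat.find hex := ⟨_, rfl⟩
  have hm : 1 ≤ m ∧ ∀ i, i + m < N → u (i + m) = u i := by
    rw [hmd]
    exact Nat.find_spec hex
  have hmin : ∀ k, 1 ≤ k → (∀ i, i + k < N → u (i + k) = u i) → m ≤ k := by
    intro k hk1 hk2
    rw [hmd]
    exact Nat.find_min' hex ⟨hk1, hk2⟩
  clear hmd
  obtain ⟨hm1, hm2⟩ := hm
  refine ⟨m, hm1, hmin L hL hper, hm2, ?_⟩
  have hmul : ∀ k i, i + m * k < N → u (i + m * k) = u i := by
    intro k
    induction k with
    | zero => intro i _; simp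
    | succ k ih =>
      intro i hi
      have e : i + m * (k + 1) = i + m * k + m := by ring
      rw [e] at hi ⊢
      rw [hm2 _ hi]
      exact ih i (by omega)
  have hmod : ∀ x, x < N → u x = u (x % m) := by
    intro x hx
    have e : x % m + m * (x / m) = x := Nat.mod_add_div x m
    have h3 := hmul (x / m) (x % m) (by rw [e]; exact hx)
    rw [e] at h3
    exact h3
  intro j s N' hj hs hN' hp
  have hg := fw_gcd (u := u) (s := s) (N := N') (p := m) (q := j) hm1 hj hs
    (fun i _ hi => hm2 i (by omega)) hp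
  have hg1 : 1 ≤ Nat.gcd m j := Nat.gcd_pos_of_pos_left _ hm1
  have hgj : Nat.gcd m j ≤ j := Nat.gcd_le_right _ hj
  have hgm : m ≤ Nat.gcd m j := by
    refine hmin _ hg1 fun i hi => ?_
    have hms : s ≤ m * s := Nat.le_mul_of_pos_left s hm1
    obtain ⟨i', hi'⟩ : ∃ i', i' = s + (i + m * s - s) % m := ⟨_, rfl⟩
    have h3 : (i + m * s - s) % m < m := Nat.mod_lt _ hm1
    have h4 : i' % m = i % m := by
      rw [hi', Nat.add_mod_mod]
      have e : s + (i + m * s - s) = i + m * s := by omega
      rw [e, Nat.add_mul_mod_self_left]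
    have h5 := hg i' (by omega) (by omega)
    have h6 : (i' + Nat.gcd m j) % m = (i + Nat.gcd m j) % m := Nat.ModEq.add_right _ h4
    have h7 := hmod i' (by omega)
    have h8 := hmod i (by omega)
    have h9 := hmod (i' + Nat.gcd m j) (by omega)
    have h10 := hmod (i + Nat.gcd m j) hi
    rw [h10, ← h6, ← h9, h5, h7, h4, ← h8]
  have hgm' : Nat.gcd m j = m := le_antisymm (Nat.gcd_le_left _ hm1) hgm
  rw [← hgm']
  exact Nat.gcd_dvd_right m j

end Pool.Agent.H95.LR
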