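import Pool.Agent.H95.LR.Def

/-!
# Module RepB (about 100 lines): the pair operator as a sum over translates and reflections

PROOFS. First a copy (private, name repB_sum_mult) of `sum_mult` of Pool.Agent.H95.LC.Poly: a sum over
`j ≤ J m` of terms that vanish unless `m ∣ j` is the sum over `t ≤ J` of the terms at `t m`.
Second, the reflected version: if `f j = 0` unless `∃ t, j + (t m + r) = J m`, then
`∑ j ∈ range (J m + 1), f j = ∑ t ∈ range (J + 1), if t m + r ≤ J m then f (J m - (t m + r)) else 0`
(injective reindexing j = J m - (t m + r)).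
`pr_sum`: op_apply for `A` (natDegree ≤ J): `op m A X i = ∑_{t ≤ J} A_t X (i + t m)`, and
`ca m A (t m) = A_t`. For `B`: if `B = 0` all is zero (cb = 0). Otherwise op_apply with natDegree ≤ J
(natDegree * m + r ≤ J m gives natDegree ≤ J), terms with `t m + r > J m` have coefficient zero
(t > natDegree), the others: j = J m - (t m + r), `cb (J m) r m B j = B_t`, and
`n + (q + J m) - (i + t m + r) = n + (q - i) + j` because `i ≤ q`. `height_eq`: the same reindexing for
`|ca|`, `|cb|`, with `l1_eq` (l1 A = ∑_{t < N} |A_t| for every N > natDegree).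
-/

set_option autoImplicit false

namespace Pool.Agent.H95.LR

open Polynomial Finset
open Pool.Agent.H1.PC
open Pool.Agent.H95.LC (op G l1)

private lemma repB_sum_mult {β : Type*} [AddCommMonoid β] {m J : ℕ} (hm : 1 ≤ m) {f : ℕ → β}
    (hf : ∀ j ≤ J * m, ¬ m ∣ j → f j = 0) :
    ∑ j ∈ range (J * m + 1), f j = ∑ t ∈ range (J + 1), f (t * m) := by
  classical
  have hinj : Function.Injective (fun t : ℕ => t * m) := fun x y h =>
    Nat.eq_of_mul_eq_mul_right (by omega) h
  have h1 : ∑ t ∈ range (J + 1), f (t * m) =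
      ∑ j ∈ (range (J + 1)).image (fun t => t * m), f j := by
    rw [Finset.sum_image (fun x _ y _ h => hinj h)]
  rw [h1]
  symm
  apply Finset.sum_subset
  · intro j hj
    obtain ⟨t, ht, rfl⟩ := Finset.mem_image.1 hj
    have ht' : t ≤ J := by have := Finset.mem_range.1 ht; omega
    rw [Finset.mem_range]
    have : t * m ≤ J * m := Nat.mul_le_mul_right m ht'
    omega
  · intro j hj hj'
    have hjL : j ≤ J * m := by have := Finset.mem_range.1 hj; omega
    apply hf j hjL
    rintro ⟨t, rfl⟩
    apply hj'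
    rw [Finset.mem_image]
    refine ⟨t, Finset.mem_range.2 ?_, by ring⟩
    have : m * t ≤ m * J := by rw [mul_comm m J]; exact hjL
    have := Nat.le_of_mul_le_mul_left this (by omega)
    omega

private lemma repB_cb {m r D : ℕ} (hm : 1 ≤ m) (B : ℤ[X]) {t : ℕ} (ht : t * m + r ≤ D) :
    cb D r m B (D - (t * m + r)) = B.coeff t := by
  have h1 : D - (t * m + r) + r ≤ D := by omega
  have h2 : D - (D - (t * m + r) + r) = t * m := by omega
  unfold cb
  rw [h2, if_pos ⟨h1, Dvd.intro_left t rfl⟩, Nat.mul_div_cancel _ (by omega)]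

private lemma repB_ref {m r J : ℕ} (hm : 1 ≤ m) (B : ℤ[X]) (g : ℕ → ℤ → ℤ) (hg : ∀ j, g j 0 = 0) :
    ∑ j ∈ range (J * m + 1), g j (cb (J * m) r m B j) =
      ∑ t ∈ range (J + 1), if t * m + r ≤ J * m then g (J * m - (t * m + r)) (B.coeff t) else 0 := by
  classical
  rw [← Finset.sum_filter]
  have h0 : ∑ t ∈ (range (J + 1)).filter (fun t => t * m + r ≤ J * m),
      g (J * m - (t * m + r)) (B.coeff t) =
      ∑ t ∈ (range (J + 1)).filter (fun t => t * m + r ≤ J * m),
        (fun j => g j (cb (J * m) r m B j)) (J * m - (t * m + r)) := by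
    apply Finset.sum_congr rfl
    intro t ht
    rw [Finset.mem_filter] at ht
    show _ = g _ (cb (J * m) r m B (J * m - (t * m + r)))
    rw [repB_cb hm B ht.2]
  rw [h0, ← Finset.sum_image (f := fun j => g j (cb (J * m) r m B j))
    (g := fun t => J * m - (t * m + r))]
  · symm
    apply Finset.sum_subset
    · intro j hj
      obtain ⟨t, _, rfl⟩ := Finset.mem_image.1 hj
      rw [Finset.mem_range]
      omega
    · intro j hj hj'
      have hjL : j ≤ J * m := by have := Finset.mem_range.1 hj; omega
      have hc : cb (J * m) r m B j = 0 := by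
        unfold cb
        rw [if_neg]
        rintro ⟨h1, t, ht⟩
        apply hj'
        rw [Finset.mem_image]
        have ht' : J * m - (j + r) = t * m := by rw [ht]; ring
        have htJ : t * m ≤ J * m := by omega
        have htJ' := Nat.le_of_mul_le_mul_right htJ (by omega)
        refine ⟨t, ?_, by omega⟩
        rw [Finset.mem_filter, Finset.mem_range]
        exact ⟨by omega, by omega⟩
      rw [hc, hg]
  · intro x hx y hy hxy
    have hx' := (Finset.mem_filter.1 (Finset.mem_coe.1 hx)).2
    have hy' := (Finset.mem_filter.1 (Finset.mem_coe.1 hy)).2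
    have hxy' : J * m - (x * m + r) = J * m - (y * m + r) := hxy
    have : x * m = y * m := by omega
    exact Nat.eq_of_mul_eq_mul_right (by omega) this

private lemma repB_deg {m r J : ℕ} (hm : 1 ≤ m) {B : ℤ[X]}
    (hB : B = 0 ∨ B.natDegree * m + r ≤ J * m) : B.natDegree ≤ J := by
  rcases hB with h | h
  · rw [h]
    simp
  · have : B.natDegree * m ≤ J * m := by omega
    exact Nat.le_of_mul_le_mul_right this (by omega)

private lemma repB_zero {m r J : ℕ} {B : ℤ[X]}
    (hB : B = 0 ∨ B.natDegree * m + r ≤ J * m) {t : ℕ} (ht : ¬ t * m + r ≤ J * m) :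
    B.coeff t = 0 := by
  rcases hB with h | h
  · rw [h]
    simp
  · apply coeff_eq_zero_of_natDegree_lt
    by_contra hc
    apply ht
    have : t * m ≤ B.natDegree * m := Nat.mul_le_mul_right m (by omega)
    omega

private lemma repB_ca {m : ℕ} (hm : 1 ≤ m) (A : ℤ[X]) (t : ℕ) : ca m A (t * m) = A.coeff t := by
  unfold ca
  rw [if_pos (Dvd.intro_left t rfl), Nat.mul_div_cancel _ (by omega)]

private lemma repB_ca0 {m : ℕ} (A : ℤ[X]) {j : ℕ} (h : ¬ m ∣ j) : ca m A j = 0 := by
  unfold ca
  rw [if_neg h]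


lemma pr_sum {m r J q n : ℕ} (hm : 1 ≤ m) {A B : ℤ[X]} (hA : A.natDegree ≤ J)
    (hB : B = 0 ∨ B.natDegree * m + r ≤ J * m) (Z : ℕ → ℤ) {i : ℕ} (hi : i ≤ q) :
    pr m r A B (fun k => Z (n + k)) (fun k => Z (n + (q + J * m) - k)) i =
      ∑ j ∈ range (J * m + 1),
        (ca m A j * Z (n + i + j) + cb (J * m) r m B j * Z (n + (q - i) + j)) := by
  have hBd := repB_deg hm hB
  unfold pr
  rw [Pool.Agent.H95.LC.op_apply hA, Pool.Agent.H95.LC.op_apply hBd, Finset.sum_add_distrib,
    repB_sum_mult (f := fun j => ca m A j * Z (n + i + j)) hm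
      (fun j _ h => by show ca m A j * _ = 0; rw [repB_ca0 A h, zero_mul]),
    repB_ref hm B (fun j c => c * Z (n + (q - i) + j)) (fun j => zero_mul _)]
  congr 1
  · apply Finset.sum_congr rfl
    intro t _
    show A.coeff t • Z (n + (i + t * m)) = ca m A (t * m) * Z (n + i + t * m)
    rw [repB_ca hm, smul_eq_mul, Nat.add_assoc]
  · apply Finset.sum_congr rfl
    intro t _
    show B.coeff t • Z (n + (q + J * m) - (i + t * m + r)) = _
    rw [smul_eq_mul]
    by_cases h : t * m + r ≤ J * m
    · rw [if_pos h]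
      have : n + (q + J * m) - (i + t * m + r) = n + (q - i) + (J * m - (t * m + r)) := by omega
      rw [this]
    · rw [if_neg h, repB_zero hB h, zero_mul]

lemma height_eq {m r J : ℕ} (hm : 1 ≤ m) {A B : ℤ[X]} (hA : A.natDegree ≤ J)
    (hB : B = 0 ∨ B.natDegree * m + r ≤ J * m) :
    ∑ j ∈ range (J * m + 1), (|ca m A j| + |cb (J * m) r m B j|) = l1 A + l1 B := by
  have hBd := repB_deg hm hB
  rw [Finset.sum_add_distrib,
    repB_sum_mult (f := fun j => |ca m A j|) hm
      (fun j _ h => by show |ca m A j| = 0; rw [repB_ca0 A h, abs_zero]),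
    repB_ref hm B (fun _ c => |c|) (fun _ => abs_zero),
    Pool.Agent.H95.LC.l1_eq (show A.natDegree < J + 1 by omega),
    Pool.Agent.H95.LC.l1_eq (show B.natDegree < J + 1 by omega)]
  congr 1
  · apply Finset.sum_congr rfl
    intro t _
    rw [repB_ca hm]
  · apply Finset.sum_congr rfl
    intro t _
    by_cases h : t * m + r ≤ J * m
    · rw [if_pos h]
    · rw [if_neg h, repB_zero hB h, abs_zero]

end Pool.Agent.H95.LR
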