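import Pool.Agent.H95.LR.Def

/-!
# Module RepC (about 80 lines): coefficients to polynomials

PROOFS. `exA`: A = ∑ t ∈ range (J+1), C (a (t m)) X^t; coeff t = a (t m) for t ≤ J; for j ≤ J m: if m ∣ j
then ca m A j = A.coeff (j / m) = a j (j / m ≤ J), if not then both sides are 0 (hs).
`exB`: B = ∑ t ∈ range (J+1), if t m + r ≤ J m then C (b (J m - (t m + r))) X^t else 0. If B ≠ 0 then its
natDegree t is ≤ J with nonzero coefficient, so t m + r ≤ J m. For j ≤ J m: if j + r ≤ J m and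
m ∣ J m - (j + r) then t = (J m - (j + r)) / m has t m + r = J m - j, so cb = B.coeff t = b j; if not, then
cb = 0 and b j = 0 by hs (b j ≠ 0 would give t with j + (t m + r) = J m).
`ca_dvd`, `cb_rep`: unfold, split_ifs.
-/

set_option autoImplicit false

namespace Pool.Agent.H95.LR

open Polynomial Finset
open Pool.Agent.H1.PC
open Pool.Agent.H95.LC (op G l1)

private lemma RepC_coeff (J : ℕ) (f : ℕ → ℤ) (t : ℕ) :
    (∑ i ∈ range (J + 1), C (f i) * X ^ i : ℤ[X]).coeff t = if t ≤ J then f t else 0 := by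
  rw [finsetSum_coeff]
  simp only [coeff_C_mul_X_pow]
  rw [Finset.sum_ite_eq]
  by_cases h : t ≤ J
  · rw [if_pos h, if_pos (Finset.mem_range.mpr (by omega))]
  · rw [if_neg h, if_neg (by simp only [Finset.mem_range]; omega)]

lemma exA {m J : ℕ} (hm : 1 ≤ m) {a : ℕ → ℤ} (hs : ∀ j ≤ J * m, a j ≠ 0 → m ∣ j) :
    ∃ A : ℤ[X], A.natDegree ≤ J ∧ ∀ j ≤ J * m, ca m A j = a j := by
  refine ⟨∑ t ∈ range (J + 1), C (a (t * m)) * X ^ t, ?_, ?_⟩
  · rw [natDegree_le_iff_coeff_eq_zero]
    intro t ht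
    rw [RepC_coeff J (fun t => a (t * m)) t, if_neg (by omega)]
  · intro j hj
    unfold ca
    by_cases hd : m ∣ j
    · rw [if_pos hd, RepC_coeff J (fun t => a (t * m))]
      have hle : j / m ≤ J := Nat.div_le_of_le_mul (by rw [mul_comm]; exact hj)
      rw [if_pos hle, Nat.div_mul_cancel hd]
    · rw [if_neg hd]
      by_contra hne
      exact hd (hs j hj (fun h => hne h.symm))

lemma exB {m r J : ℕ} (hm : 1 ≤ m) {b : ℕ → ℤ}
    (hs : ∀ j ≤ J * m, b j ≠ 0 → ∃ t, j + (t * m + r) = J * m) :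
    ∃ B : ℤ[X], (B = 0 ∨ B.natDegree * m + r ≤ J * m) ∧
      ∀ j ≤ J * m, cb (J * m) r m B j = b j := by
  set f : ℕ → ℤ := fun t => if t * m + r ≤ J * m then b (J * m - (t * m + r)) else 0 with hf
  refine ⟨∑ t ∈ range (J + 1), C (f t) * X ^ t, ?_, ?_⟩
  · by_cases hB : (∑ t ∈ range (J + 1), C (f t) * X ^ t : ℤ[X]) = 0
    · exact Or.inl hB
    · refine Or.inr ?_
      have h1 : (∑ t ∈ range (J + 1), C (f t) * X ^ t : ℤ[X]).coeff
          (∑ t ∈ range (J + 1), C (f t) * X ^ t : ℤ[X]).natDegree ≠ 0 :=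
        leadingCoeff_ne_zero.mpr hB
      rw [RepC_coeff J f] at h1
      by_contra hc
      apply h1
      split_ifs with h2
      · simp only [hf]
        rw [if_neg hc]
      · rfl
  · intro j hj
    unfold cb
    by_cases hc : j + r ≤ J * m ∧ m ∣ J * m - (j + r)
    · rw [if_pos hc, RepC_coeff J f]
      obtain ⟨h1, t, ht⟩ := hc
      have h2 : (J * m - (j + r)) / m = t := by
        rw [ht]
        exact Nat.mul_div_cancel_left t (by omega)
      rw [h2]
      have h3 : t ≤ J := by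
        have h4 : m * t ≤ m * J := by
          rw [← ht, mul_comm m J]
          omega
        exact Nat.le_of_mul_le_mul_left h4 (by omega)
      have h5 : t * m + r = J * m - j := by
        rw [mul_comm t m, ← ht]
        omega
      rw [if_pos h3]
      simp only [hf]
      rw [if_pos (by omega), h5]
      congr 1
      omega
    · rw [if_neg hc]
      by_contra hne
      obtain ⟨t, ht⟩ := hs j hj (fun h => hne h.symm)
      exact hc ⟨by omega, ⟨t, by rw [mul_comm m t]; omega⟩⟩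

lemma ca_dvd {m : ℕ} {A : ℤ[X]} {j : ℕ} (h : ca m A j ≠ 0) : m ∣ j := by
  by_contra hc
  exact h (if_neg hc)

lemma cb_rep {D r m : ℕ} (hm : 1 ≤ m) {B : ℤ[X]} {j : ℕ} (h : cb D r m B j ≠ 0) :
    (∃ t, j + (t * m + r) = D) ∧ B ≠ 0 := by
  unfold cb at h
  split_ifs at h with hc
  · obtain ⟨h1, t, ht⟩ := hc
    refine ⟨⟨t, ?_⟩, ?_⟩
    · rw [mul_comm t m, ← ht]
      omega
    · rintro rfl
      exact h (by simp)
  · exact absurd rfl h

end Pool.Agent.H95.LR
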