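import Pool.Agent.H95.LR.Def
import Pool.Agent.H95.LR.RepB
import Pool.Agent.H95.LR.RepC
import Pool.Agent.H95.LR.FW

/-!
# Module ToG (about 180 lines): a relation of the digits is a `Good` pair of polynomials

PROOF. Put c x = pq α (n + x + 1) (x < w + L).
CASE 0: all b j (j ≤ L) are 0. L1 = the largest j ≤ L with a j ≠ 0. c has the period L1 for x < w.
CASE 1: some b j ≠ 0. L1 = L; c (x + L) = c x for x < w by hL.
If L1 = 0: take m = w + 1, J = 0, r = 0; A = C (a 0), B = C (b 0) (in case 0 B = 0; b 0 = 0). per: i + m < w + 0 is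
impossible. ref: x, y < w, m = w+1 divides x + y + 1 - w, which lies strictly between -(w+1) and w+1, so it is 0:
x = w - 1 - y, and hc for b 0 ≠ 0 (i = y) is the claim. rel: pr_sum (J = 0, q = w-1) and hd.
(in case 0 with L1 = 0, L may be > 0: the terms j > 0 of hd vanish.) Heights: l1 (C a) = |a|, or use height_eq.
If L1 ≥ 1: apply fw_min to u = c, N = w + L1, L = L1: minimal period m ≤ L1 of c on [0, w + L1). m ∣ L1 by the last
property (j = L1, s = 0, N' = w + L1; m + L1 ≤ w + L1 because m ≤ L ≤ w). J = L1 / m, L1 = J m.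
If a j ≠ 0 (j ≤ L1), j ≥ 1: c (x + j) = c x for x < w by hc: last property with s = 0, N' = w + j gives m ∣ j.
Case 1: choose j1 ≤ L with b j1 ≠ 0; r in [0, m) with m ∣ j1 + r. For another b j ≠ 0, say j < j1 (or j > j1): hc gives
c((w-1-i)+j) = c i = c((w-1-i)+j1) for i < w, i.e. c(x+j) = c(x+j1) for x < w: the period j1 - j on the factor
[j, w + j1): last property with s = j, N' = w + j1 (j + m + (j1 - j) ≤ w + j1) gives m ∣ j1 - j. So m ∣ j + r for all b j ≠ 0,
and j ≤ J m then gives t with j + (t m + r) = J m (J m - j is ≡ r mod m and ≥ 0, so it is ≥ r). Case 0: r = 0, B = 0.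
exA, exB (in case 1) give A, B with ca m A j = a j, cb (J m) r m B j = b j for j ≤ J m (case 0: B = 0, b = 0, cb = 0).
ne: A ≠ 0 or B ≠ 0 because some coefficient is not 0. per: the period m. ref (case 1): let x, y < w + Jm with
m ∣ x + y + r + 1 - w. Choose i < w, i ≡ y mod m (w ≥ m), and x' = (w-1-i) + j1 < w + Jm: x' ≡ w - 1 - y + j1 ≡
w - 1 - y - r ≡ x mod m. c x = c x' (period) = c i (hc for j1) = c y (period). rel: pr_sum with q = w - 1 (i ≤ w - 1),
Z = digit α R, n + (w-1-i) + j, and hd (case 0: the terms j > L1 of hd vanish; range (L1+1) ⊆ range (L+1)).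
Height: height_eq, and the sum over j ≤ L1 is ≤ the sum over j ≤ L.
-/

set_option autoImplicit false

namespace Pool.Agent.H95.LR

open Polynomial Finset
open Pool.Agent.H1.PC
open Pool.Agent.H95.LC (op G l1)

private lemma ToG_mod {u : ℕ → ℤ} {N m : ℕ} (hu : ∀ i, i + m < N → u (i + m) = u i) :
    ∀ x, x < N → u x = u (x % m) := by
  have hmul : ∀ k i, i + m * k < N → u (i + m * k) = u i := by
    intro k
    induction k with
    | zero => intro i _; simp
    | succ k ih =>
      intro i hi
      have e : i + m * (k + 1) = i + m * k + m := by ring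
      rw [e] at hi ⊢
      rw [hu _ hi]
      exact ih i (by omega)
  intro x hx
  have e : x % m + m * (x / m) = x := Nat.mod_add_div x m
  have h3 := hmul (x / m) (x % m) (by rw [e]; exact hx)
  rw [e] at h3
  exact h3

private lemma ToG_core {α : ℝ} {R : ℕ → ℤ} {n w L : ℕ} {a b : ℕ → ℤ}
    (hne : ∃ j ≤ L, a j ≠ 0 ∨ b j ≠ 0) (hw : 1 ≤ w)
    (hd : ∀ i < w, ∑ j ∈ range (L + 1),
      (a j * digit α R (n + i + j) + b j * digit α R (n + (w - 1 - i) + j)) = 0)
    {J m r : ℕ} (hm : 1 ≤ m) (hr : r < m) (hJ : J * m ≤ L)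
    (ha : ∀ j ≤ L, a j ≠ 0 → j ≤ J * m ∧ m ∣ j)
    (hb : ∀ j ≤ L, b j ≠ 0 → ∃ t, j + (t * m + r) = J * m)
    (per : ∀ i, i + m < w + J * m → pq α (n + i + m + 1) = pq α (n + i + 1))
    (ref : (∃ j ≤ L, b j ≠ 0) → ∀ x y : ℕ, x < w + J * m → y < w + J * m →
      (m : ℤ) ∣ (x : ℤ) + y + r + 1 - w → pq α (n + x + 1) = pq α (n + y + 1)) :
    ∃ (J m r : ℕ) (A B : ℤ[X]), J * m ≤ L ∧ Good α R n w J m r A B ∧
      l1 A + l1 B ≤ ∑ j ∈ range (L + 1), (|a j| + |b j|) := by
  obtain ⟨A, hA, hA2⟩ := exA hm (J := J) (a := a) fun j hj h => (ha j (hj.trans hJ) h).2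
  obtain ⟨B, hB, hB2⟩ := exB hm (J := J) (r := r) (b := b) fun j hj h => hb j (hj.trans hJ) h
  have hbJ : ∀ j ≤ L, b j ≠ 0 → j ≤ J * m := by
    intro j hj h
    obtain ⟨t, ht⟩ := hb j hj h
    omega
  have hsub : ∀ g : ℕ → ℤ, (∀ j ≤ L, ¬ j ≤ J * m → g j = 0) →
      ∑ j ∈ range (J * m + 1), g j = ∑ j ∈ range (L + 1), g j := by
    intro g hg
    refine Finset.sum_subset ?_ ?_
    · intro j hj
      rw [Finset.mem_range] at hj ⊢
      omega
    · intro j hj hj'
      rw [Finset.mem_range] at hj hj'
      exact hg j (by omega) (by omega)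
  have ha0 : ∀ j ≤ L, ¬ j ≤ J * m → a j = 0 := by
    intro j hj h
    by_contra h2
    exact h (ha j hj h2).1
  have hb0 : ∀ j ≤ L, ¬ j ≤ J * m → b j = 0 := by
    intro j hj h
    by_contra h2
    exact h (hbJ j hj h2)
  refine ⟨J, m, r, A, B, hJ, ⟨hm, hr, hA, hB, ?_, per, ?_, ?_⟩, ?_⟩
  · obtain ⟨j, hj, h | h⟩ := hne
    · left
      rintro rfl
      have h1 := hA2 j (ha j hj h).1
      apply h
      rw [← h1]
      unfold ca
      simp
    · right
      have h1 := hB2 j (hbJ j hj h)
      exact (cb_rep hm (D := J * m) (r := r) (B := B) (j := j) (by rw [h1]; exact h)).2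
  · intro hB0
    apply ref
    rcases hB with h | h
    · exact absurd h hB0
    · have h1 : J * m - (B.natDegree * m + r) ≤ J * m := Nat.sub_le _ _
      refine ⟨J * m - (B.natDegree * m + r), h1.trans hJ, ?_⟩
      rw [← hB2 _ h1]
      unfold cb
      have h2 : J * m - (J * m - (B.natDegree * m + r) + r) = B.natDegree * m := by omega
      rw [if_pos ⟨by omega, by rw [h2]; exact Dvd.intro_left _ rfl⟩, h2,
        Nat.mul_div_cancel _ (by omega)]
      exact leadingCoeff_ne_zero.mpr hB0
  · intro i hi
    rw [pr_sum hm hA hB (digit α R) (show i ≤ w - 1 by omega), ← hd i hi]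
    rw [← hsub (fun j => a j * digit α R (n + i + j) + b j * digit α R (n + (w - 1 - i) + j))
      (fun j hj h => by simp only [ha0 j hj h, hb0 j hj h, zero_mul, add_zero])]
    refine Finset.sum_congr rfl ?_
    intro j hj
    rw [Finset.mem_range] at hj
    rw [hA2 j (by omega), hB2 j (by omega)]
  · rw [← height_eq hm hA hB, ← hsub (fun j => |a j| + |b j|)
      (fun j hj h => by simp only [ha0 j hj h, hb0 j hj h, abs_zero, add_zero])]
    refine le_of_eq (Finset.sum_congr rfl ?_)
    intro j hj
    rw [Finset.mem_range] at hj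
    rw [hA2 j (by omega), hB2 j (by omega)]

lemma to_good {α : ℝ} {R : ℕ → ℤ} {n w L : ℕ} {a b : ℕ → ℤ} (hne : ∃ j ≤ L, a j ≠ 0 ∨ b j ≠ 0)
    (hw : 2 * L + 2 ≤ w)
    (hL : (∃ j ≤ L, b j ≠ 0) → ∀ i < w, pq α (n + i + L + 1) = pq α (n + i + 1))
    (hc : ∀ i < w, ∀ j ≤ L, (a j ≠ 0 → pq α (n + i + j + 1) = pq α (n + i + 1)) ∧
      (b j ≠ 0 → pq α (n + (w - 1 - i) + j + 1) = pq α (n + i + 1)))
    (hd : ∀ i < w, ∑ j ∈ range (L + 1),
      (a j * digit α R (n + i + j) + b j * digit α R (n + (w - 1 - i) + j)) = 0) :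
    ∃ (J m r : ℕ) (A B : ℤ[X]), J * m ≤ L ∧ Good α R n w J m r A B ∧
      l1 A + l1 B ≤ ∑ j ∈ range (L + 1), (|a j| + |b j|) := by
  classical
  by_cases hb1 : ∃ j ≤ L, b j ≠ 0
  · obtain ⟨j1, hj1, hbj1⟩ := hb1
    have hb1 : ∃ j ≤ L, b j ≠ 0 := ⟨j1, hj1, hbj1⟩
    rcases Nat.eq_zero_or_pos L with hL0 | hL0
    · subst hL0
      refine ToG_core hne (by omega) hd (J := 0) (m := w + 1) (r := 0) (by omega) (by omega)
        (by omega) ?_ ?_ ?_ ?_
      · intro j hj _
        have : j = 0 := by omega
        subst this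
        exact ⟨by omega, dvd_zero _⟩
      · intro j hj _
        exact ⟨0, by omega⟩
      · intro i hi
        omega
      · intro _ x y hx hy hdv
        have hx' : x < w := by omega
        have hy' : y < w := by omega
        have h0 : (x : ℤ) + y + ((0 : ℕ) : ℤ) + 1 - w = 0 := by
          refine Int.eq_zero_of_abs_lt_dvd hdv ?_
          rw [abs_lt]
          push_cast
          constructor <;> omega
        have h1 : x = w - 1 - y := by omega
        have h2 := (hc y hy' 0 (by omega)).2 (by
          have : j1 = 0 := by omega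
          rwa [this] at hbj1)
        rw [h1]
        simpa using h2
    · obtain ⟨m, hm1, hmL, hper, hlast⟩ := fw_min (u := fun x => pq α (n + x + 1))
        (N := w + L) (L := L) hL0 (by omega) (fun i hi => by
          have h := hL hb1 i (by omega)
          rw [← Nat.add_assoc n i L, h])
      have hmdL : m ∣ L := hlast L 0 (w + L) hL0 (by omega) le_rfl (fun i _ hi => by
          have h := hL hb1 i (by omega)
          rw [← Nat.add_assoc n i L, h])
      obtain ⟨J, hJ⟩ := hmdL
      have hJm : J * m = L := by rw [hJ, mul_comm]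
      have hbb : ∀ p p' : ℕ, p < p' → p' ≤ L → b p ≠ 0 → b p' ≠ 0 → m ∣ p' - p := by
        intro p p' hpp hp' h1 h2
        refine hlast (p' - p) p (w + p') (by omega) (by omega) (by omega) ?_
        intro x hx hx2
        have e1 := (hc (w - 1 - (x - p)) (by omega) p (by omega)).2 h1
        have e2 := (hc (w - 1 - (x - p)) (by omega) p' hp').2 h2
        have e3 : n + (w - 1 - (w - 1 - (x - p))) + p + 1 = n + x + 1 := by omega
        have e4 : n + (w - 1 - (w - 1 - (x - p))) + p' + 1 = n + (x + (p' - p)) + 1 := by omega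
        rw [e3] at e1
        rw [e4] at e2
        rw [e1, e2]
      have hmodr : ∀ j ≤ L, b j ≠ 0 → (L - j) % m = (L - j1) % m := by
        intro j hj hbj
        rcases lt_trichotomy j j1 with h | h | h
        · obtain ⟨e, he⟩ := hbb j j1 h hj1 hbj hbj1
          have : L - j = L - j1 + m * e := by omega
          rw [this, Nat.add_mul_mod_self_left]
        · rw [h]
        · obtain ⟨e, he⟩ := hbb j1 j h hj hbj1 hbj
          have : L - j1 = L - j + m * e := by omega
          rw [this, Nat.add_mul_mod_self_left]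
      have hmod := ToG_mod (u := fun x => pq α (n + x + 1)) hper
      refine ToG_core hne (by omega) hd (J := J) (m := m) (r := (L - j1) % m) hm1
        (Nat.mod_lt _ hm1) (by omega) ?_ ?_ ?_ ?_
      · intro j hj haj
        refine ⟨by omega, ?_⟩
        rcases Nat.eq_zero_or_pos j with h | h
        · rw [h]
          exact dvd_zero _
        · refine hlast j 0 (w + j) h (by omega) (by omega) ?_
          intro i _ hi
          have e1 := (hc i (by omega) j hj).1 haj
          rw [← Nat.add_assoc n i j, e1]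
      · intro j hj hbj
        refine ⟨(L - j) / m, ?_⟩
        have h1 := Nat.div_add_mod (L - j) m
        rw [hmodr j hj hbj, mul_comm] at h1
        omega
      · intro i hi
        have h := hper i (by omega)
        rw [← Nat.add_assoc n i m] at h
        exact h
      · intro _ x y hx hy hdv
        have hi : y % m < m := Nat.mod_lt _ hm1
        have e1 := (hc (y % m) (by omega) j1 hj1).2 hbj1
        have e2 := hmod y (by omega)
        have e3 := hmod x (by omega)
        have e4 := hmod (w - 1 - y % m + j1) (by omega)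
        have hxx : x % m = (w - 1 - y % m + j1) % m := by
          have h1 : ((x : ℕ) : ℤ) ≡ ((w - 1 - y % m + j1 : ℕ) : ℤ) [ZMOD (m : ℤ)] := by
            rw [Int.modEq_iff_dvd]
            have h2 : ((w - 1 - y % m + j1 : ℕ) : ℤ) = (w : ℤ) - 1 - ((y % m : ℕ) : ℤ) + j1 := by
              omega
            have h3 : (m : ℤ) ∣ (y : ℤ) - ((y % m : ℕ) : ℤ) := by
              refine ⟨((y / m : ℕ) : ℤ), ?_⟩
              have := Nat.mod_add_div y m
              have h4 : ((y % m + m * (y / m) : ℕ) : ℤ) = (y : ℤ) := by rw [this]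
              push_cast at h4 ⊢
              linarith
            have h5 : (m : ℤ) ∣ (j1 : ℤ) + (((L - j1) % m : ℕ) : ℤ) := by
              refine ⟨(J : ℤ) - (((L - j1) / m : ℕ) : ℤ), ?_⟩
              have h6 := Nat.mod_add_div (L - j1) m
              have h7 : (((L - j1) % m + m * ((L - j1) / m) : ℕ) : ℤ) = (L : ℤ) - j1 := by
                rw [h6]
                omega
              have h8 : (L : ℤ) = m * J := by exact_mod_cast hJ
              rw [Nat.cast_add, Nat.cast_mul] at h7
              linarith [mul_sub (m : ℤ) J (((L - j1) / m : ℕ) : ℤ)]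
            rw [h2]
            have h9 : (w : ℤ) - 1 - ((y % m : ℕ) : ℤ) + j1 - x =
                -((x : ℤ) + y + (((L - j1) % m : ℕ) : ℤ) + 1 - w) +
                ((y : ℤ) - ((y % m : ℕ) : ℤ)) + ((j1 : ℤ) + (((L - j1) % m : ℕ) : ℤ)) := by
              ring
            rw [h9]
            exact dvd_add (dvd_add ((dvd_neg).2 hdv) h3) h5
          exact (Int.natCast_modEq_iff.1 h1)
        beta_reduce at e2 e3 e4
        rw [e3, hxx, ← e4, e2]
        have e6 : n + (w - 1 - y % m + j1) + 1 = n + (w - 1 - y % m) + j1 + 1 := by omega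
        rw [e6, e1]
  · have hb0 : ∀ j ≤ L, b j = 0 := by
      intro j hj
      by_contra h
      exact hb1 ⟨j, hj, h⟩
    obtain ⟨j0, hj0, haj0⟩ : ∃ j ≤ L, a j ≠ 0 := by
      obtain ⟨j, hj, h | h⟩ := hne
      · exact ⟨j, hj, h⟩
      · exact absurd (hb0 j hj) h
    obtain ⟨L1, hL1d⟩ : ∃ L1, L1 = Nat.findGreatest (fun j => a j ≠ 0) L := ⟨_, rfl⟩
    have hL1 : L1 ≤ L := by rw [hL1d]; exact Nat.findGreatest_le L
    have haL1 : a L1 ≠ 0 := by
      rw [hL1d]
      exact Nat.findGreatest_spec (P := fun j => a j ≠ 0) hj0 haj0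
    have hgt : ∀ j ≤ L, a j ≠ 0 → j ≤ L1 := by
      intro j hj h
      rw [hL1d]
      exact Nat.le_findGreatest hj h
    rcases Nat.eq_zero_or_pos L1 with hL0 | hL0
    · refine ToG_core hne (by omega) hd (J := 0) (m := w + 1) (r := 0) (by omega) (by omega)
        (by omega) ?_ ?_ ?_ ?_
      · intro j hj h
        have := hgt j hj h
        have h0 : j = 0 := by omega
        subst h0
        exact ⟨by omega, dvd_zero _⟩
      · intro j hj h
        exact absurd (hb0 j hj) h
      · intro i hi
        omega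
      · intro h
        exact absurd h hb1
    · obtain ⟨m, hm1, hmL, hper, hlast⟩ := fw_min (u := fun x => pq α (n + x + 1))
        (N := w + L1) (L := L1) hL0 (by omega) (fun i hi => by
          have h := (hc i (by omega) L1 hL1).1 haL1
          rw [← Nat.add_assoc n i L1, h])
      have hmdL : m ∣ L1 := hlast L1 0 (w + L1) hL0 (by omega) le_rfl (fun i _ hi => by
          have h := (hc i (by omega) L1 hL1).1 haL1
          rw [← Nat.add_assoc n i L1, h])
      obtain ⟨J, hJ⟩ := hmdL
      have hJm : J * m = L1 := by rw [hJ, mul_comm]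
      refine ToG_core hne (by omega) hd (J := J) (m := m) (r := 0) hm1 (by omega) (by omega)
        ?_ ?_ ?_ ?_
      · intro j hj haj
        have hjL := hgt j hj haj
        refine ⟨by omega, ?_⟩
        rcases Nat.eq_zero_or_pos j with h | h
        · rw [h]
          exact dvd_zero _
        · refine hlast j 0 (w + j) h (by omega) (by omega) ?_
          intro i _ hi
          have e1 := (hc i (by omega) j hj).1 haj
          rw [← Nat.add_assoc n i j, e1]
      · intro j hj h
        exact absurd (hb0 j hj) h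
      · intro i hi
        have h := hper i (by omega)
        rw [← Nat.add_assoc n i m] at h
        exact h
      · intro h
        exact absurd h hb1

end Pool.Agent.H95.LR
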