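import Pool.Agent.H95.LR.PRel
import Pool.Agent.H95.LR.BoG
import Pool.Agent.H95.LR.ToG

/-!
# All relations of the joint coding
-/

set_option autoImplicit false

namespace Pool.Agent.H95.LR

open Polynomial Finset
open Pool.Agent.H1.PC
open Pool.Agent.H18.LC
open Pool.Agent.H95.LC (op G l1)

theorem rel_any {α : ℝ} (hα : Irrational α) {δ : ℝ} (hδ : 0 < δ)
    (hbad : ∀ q : ℕ, 0 < q → ∀ p : ℤ, δ ≤ (q : ℝ) * |(q : ℝ) * α - p|)
    {β : ℝ} {R : ℕ → ℤ} {M : ℝ} (hM : ∀ k, |(den α k : ℝ) * β - R k| ≤ M)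
    {F : ℕ} (hF : ∀ k, |digit α R k| ≤ F)
    (hfail : ¬ ∀ ε : ℝ, 0 < ε → ∀ N : ℕ, ∃ q : ℕ, N ≤ q ∧ 0 < q ∧ ∃ p r : ℤ,
      (q : ℝ) * |(q : ℝ) * α - p| * |(q : ℝ) * β - r| < ε) :
    ∃ K : ℕ → ℕ, ∀ (n w L : ℕ) (a b : ℕ → ℤ), (∃ j ≤ L, a j ≠ 0 ∨ b j ≠ 0) →
      ((∃ j ≤ L, b j ≠ 0) → ∀ i < w, pq α (n + i + L + 1) = pq α (n + i + 1)) →
      (∀ i < w, ∀ j ≤ L, (a j ≠ 0 → pq α (n + i + j + 1) = pq α (n + i + 1)) ∧
        (b j ≠ 0 → pq α (n + (w - 1 - i) + j + 1) = pq α (n + i + 1))) →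
      (∀ i < w, ∑ j ∈ range (L + 1),
        (a j * digit α R (n + i + j) + b j * digit α R (n + (w - 1 - i) + j)) = 0) →
      (∀ s : ℕ, 1 ≤ s → s * w < (2 * s + 1) * L + K s) ∧
      ∀ μ : ℕ, ∑ j ∈ range (L + 1), (|a j| + |b j|) ≤ 2 ^ μ → w < 2 * L + K 0 * (μ + 1) := by
  obtain ⟨K0, hK0⟩ := poly_rel hα hδ hbad hM hF hfail
  have hb : ∀ s : ℕ, ∃ K : ℕ, 1 ≤ s → ∀ (α : ℝ) (R : ℕ → ℤ)
      (n w J m r : ℕ) (A B : ℤ[X]), (∀ k, |digit α R k| ≤ F) → Good α R n w J m r A B → J * m < w →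
      ∃ (k μ : ℕ) (A' B' : ℤ[X]), 6 * s * k ≤ J ∧ 2 * s * (K0 * (μ + 1)) ≤ J + K ∧
        l1 A' + l1 B' ≤ 2 ^ μ ∧ Good α R n (w - k * m) (J + k) m r A' B' := by
    intro s
    by_cases hs : 1 ≤ s
    · obtain ⟨K, hK⟩ := boost_good F s K0 hs
      exact ⟨K, fun _ => hK⟩
    · exact ⟨0, fun h => absurd h hs⟩
  choose K1 hK1 using hb
  refine ⟨fun s => K0 + K1 s + (s + 1) + 1, fun n w L a b hne hL hc hd => ?_⟩
  rcases Nat.lt_or_ge w (2 * L + 2) with hw | hw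
  · refine ⟨fun s hs => ?_, fun μ _ => ?_⟩
    · have h1 : s * w ≤ s * (2 * L + 1) := Nat.mul_le_mul_left _ (by omega)
      have h2 : s * (2 * L + 1) = 2 * (s * L) + s := by ring
      have h3 : (2 * s + 1) * L = 2 * (s * L) + L := by ring
      simp only []
      omega
    · have h1 : K0 + K1 0 + (0 + 1) + 1 ≤ (K0 + K1 0 + (0 + 1) + 1) * (μ + 1) :=
        Nat.le_mul_of_pos_right _ (by omega)
      simp only []
      omega
  obtain ⟨J, m, r, A, B, hJL, hg, hl⟩ := to_good hne hw hL hc hd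
  refine ⟨fun s hs => ?_, fun μ hμ => ?_⟩
  · obtain ⟨k, μ, A', B', h1, h2, h3, h4⟩ := hK1 s hs α R n w J m r A B hF hg (by omega)
    have h5 := hK0 μ n _ _ m r A' B' h4 h3
    have hm := hg.hm
    have e1 : (J + k) * m = J * m + k * m := by ring
    rw [e1] at h5
    have h6 : w < 3 * (k * m) + 2 * (J * m) + K0 * (μ + 1) := by omega
    have h7 : s * w < s * (3 * (k * m) + 2 * (J * m) + K0 * (μ + 1)) :=
      Nat.mul_lt_mul_of_pos_left h6 hs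
    have e2 : s * (3 * (k * m) + 2 * (J * m) + K0 * (μ + 1)) =
      3 * (s * (k * m)) + 2 * (s * (J * m)) + s * (K0 * (μ + 1)) := by ring
    have h8 : 6 * s * k * m ≤ J * m := Nat.mul_le_mul_right _ h1
    have e3 : 6 * s * k * m = 6 * (s * (k * m)) := by ring
    have e4 : 2 * s * (K0 * (μ + 1)) = 2 * (s * (K0 * (μ + 1))) := by ring
    have h9 : J ≤ J * m := Nat.le_mul_of_pos_right _ (by omega)
    have h10 : (2 * s + 1) * (J * m) ≤ (2 * s + 1) * L := Nat.mul_le_mul_left _ hJL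
    have e5 : (2 * s + 1) * (J * m) = 2 * (s * (J * m)) + J * m := by ring
    simp only []
    omega
  · have h5 := hK0 μ n w J m r A B hg (hl.trans hμ)
    have h6 : K0 * (μ + 1) ≤ (K0 + K1 0 + (0 + 1) + 1) * (μ + 1) :=
      Nat.mul_le_mul_right _ (by omega)
    simp only []
    omega

end Pool.Agent.H95.LR
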