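import Mathlib

/-!
# Module Bar (about 130 lines, only Mathlib): barriers for x(s+2) - T x(s+1) + x(s) = f(s)

PROOFS. `bar_step`. U s = Z (θ^s + θ^(S-s)). At the ends |g 0| ≤ Z ≤ U 0, |g S| ≤ Z ≤ U S. For s + 2 ≤ S
T U(s+1) - U s - U(s+2) = Z (T - θ - 1/θ)(θ^(s+1) + θ^(S-(s+1))) ≥ Z'(θ^(s+1) + θ^(S-(s+1))) ≥ |f s|.
Let μ = max over s ≤ S of |g s| - U s (Finset.exists_max_image on range (S+1)), attained at s*. If μ ≤ 0 done.
Otherwise s* is interior, s* = s + 1, s + 2 ≤ S, and T |g(s+1)| ≤ |g s| + |g(s+2)| + |f s|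
(T > 0, from h2), so T (|g(s+1)| - U(s+1)) ≤ (|g s| - U s) + (|g(s+2)| - U(s+2)) ≤ 2 μ, i.e. T μ ≤ 2 μ,
contradiction with T > 2, μ > 0.
`bar_pow`. θ = 2/T, 0 < θ ≤ 2/3. Claim by downward induction on j < ν (write j = ν - 1 - d, induction on d):
|g j s| ≤ (9/5)^(ν-1-j) Y (θ^s + θ^(2h-2j-s)) for s + 2j ≤ 2h. For j = ν - 1: bar_step with S = 2h - 2j, f = 0
(h0; s + 2 ≤ S gives s + 2ν ≤ 2h), Z' = 0, Z = Y; T - θ - 1/θ = T/2 - 2/T ≥ 0. Step j+1 -> j: S = 2h - 2j,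
f s = g (j+1) s, |f s| ≤ Z1 (θ^s + θ^(2h-2(j+1)-s)) = (Z1/θ)(θ^(s+1) + θ^(S-(s+1))) with
Z1 = (9/5)^(ν-1-(j+1)) Y, and Z1/θ ≤ Z (T - θ - 1/θ) for Z = (9/5) Z1, because
θ (T - θ - 1/θ) = Tθ - θ^2 - 1 = 1 - θ^2 ≥ 5/9. The hypothesis h1 of bar_step: |g j s| ≤ Y ≤ Z.
Finally j = 0, s = h (2h - h = h).
-/

set_option autoImplicit false

namespace Pool.Agent.H95.LR

lemma bar_step {T θ Z Z' : ℝ} (hθ : 0 < θ) (hθ1 : θ ≤ 1) (hT : 2 < T) (hZ : 0 ≤ Z) {S : ℕ}
    {f g : ℕ → ℝ} (h1 : ∀ s ≤ S, |g s| ≤ Z)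
    (h2 : ∀ s, s + 2 ≤ S → g (s + 2) - T * g (s + 1) + g s = f s)
    (h3 : ∀ s, s + 2 ≤ S → |f s| ≤ Z' * (θ ^ (s + 1) + θ ^ (S - (s + 1))))
    (h4 : Z' ≤ Z * (T - θ - 1 / θ)) :
    ∀ s ≤ S, |g s| ≤ Z * (θ ^ s + θ ^ (S - s)) := by
  obtain ⟨m, hm, hmax⟩ := Finset.exists_max_image (Finset.range (S + 1))
    (fun s => |g s| - Z * (θ ^ s + θ ^ (S - s))) ⟨0, Finset.mem_range.2 (Nat.succ_pos S)⟩
  have hmS : m ≤ S := Nat.lt_succ_iff.1 (Finset.mem_range.1 hm)
  have hle : ∀ s ≤ S, |g s| - Z * (θ ^ s + θ ^ (S - s)) ≤ |g m| - Z * (θ ^ m + θ ^ (S - m)) :=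
    fun s hs => hmax s (Finset.mem_range.2 (Nat.lt_succ_of_le hs))
  have key : |g m| - Z * (θ ^ m + θ ^ (S - m)) ≤ 0 := by
    by_contra hcon
    have hμ : 0 < |g m| - Z * (θ ^ m + θ ^ (S - m)) := not_le.1 hcon
    have hSp : 0 ≤ θ ^ S := (pow_pos hθ S).le
    rcases Nat.eq_zero_or_pos m with h0 | h0
    · subst h0
      have e1 := h1 0 (Nat.zero_le S)
      rw [pow_zero, Nat.sub_zero] at hμ
      have e2 := mul_nonneg hZ hSp
      nlinarith
    obtain ⟨s, rfl⟩ : ∃ s, m = s + 1 := ⟨m - 1, by omega⟩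
    rcases Nat.lt_or_ge S (s + 2) with h5 | h5
    · have h6 : S - (s + 1) = 0 := by omega
      have e1 := h1 (s + 1) hmS
      rw [h6, pow_zero] at hμ
      have e2 := mul_nonneg hZ (pow_pos hθ (s + 1)).le
      nlinarith
    obtain ⟨e, rfl⟩ : ∃ e, S = s + 2 + e := ⟨S - (s + 2), by omega⟩
    have q1 : s + 2 + e - (s + 1) = e + 1 := by omega
    have q2 : s + 2 + e - s = e + 2 := by omega
    have q3 : s + 2 + e - (s + 2) = e := by omega
    have d1 := hle s (by omega)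
    have d2 := hle (s + 2) (by omega)
    have f3 := h3 s h5
    rw [q1] at d1 d2 hμ f3
    rw [q2] at d1
    rw [q3] at d2
    have hA : 0 < θ ^ s := pow_pos hθ s
    have hB : 0 < θ ^ e := pow_pos hθ e
    have hg : T * |g (s + 1)| ≤ |g s| + |g (s + 2)| + |f s| := by
      have e1 : T * g (s + 1) = g (s + 2) + g s - f s := by linarith [h2 s h5]
      have e2 : T * |g (s + 1)| = |g (s + 2) + g s - f s| := by
        rw [← e1, abs_mul, abs_of_pos (show (0 : ℝ) < T by linarith)]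
      rw [e2]
      have e3 := abs_sub (g (s + 2) + g s) (f s)
      have e4 := abs_add_le (g (s + 2)) (g s)
      linarith
    have h7 : Z' * (θ ^ (s + 1) + θ ^ (e + 1)) ≤
        Z * (θ ^ s + θ ^ e) * (T * θ - 1 - θ ^ 2) := by
      have e1 : 0 ≤ θ * (θ ^ s + θ ^ e) := by positivity
      have e2 := mul_le_mul_of_nonneg_right h4 e1
      have e3 : Z * (T - θ - 1 / θ) * (θ * (θ ^ s + θ ^ e)) =
          Z * (θ ^ s + θ ^ e) * (T * θ - 1 - θ ^ 2) := by
        field_simp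
        ring
      have e4 : Z' * (θ ^ (s + 1) + θ ^ (e + 1)) = Z' * (θ * (θ ^ s + θ ^ e)) := by
        rw [pow_succ, pow_succ]
        ring
      linarith
    have p1 : θ ^ (s + 1) = θ ^ s * θ := pow_succ θ s
    have p2 : θ ^ (e + 1) = θ ^ e * θ := pow_succ θ e
    have p3 : θ ^ (s + 2) = θ ^ s * θ ^ 2 := pow_add θ s 2
    have p4 : θ ^ (e + 2) = θ ^ e * θ ^ 2 := pow_add θ e 2
    rw [p1, p2] at d1 d2 hμ f3 h7
    rw [p4] at d1
    rw [p3] at d2
    generalize θ ^ s = A at *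
    generalize θ ^ e = B at *
    set μ := |g (s + 1)| - Z * (A * θ + B * θ) with hμd
    have k1 : |g s| ≤ μ + Z * (A + B * θ ^ 2) := by linarith
    have k2 : |g (s + 2)| ≤ μ + Z * (A * θ ^ 2 + B) := by linarith
    have k3 : T * |g (s + 1)| = T * μ + T * (Z * (A * θ + B * θ)) := by
      rw [hμd]
      ring
    have k4 : Z * (A + B) * (T * θ - 1 - θ ^ 2) = T * (Z * (A * θ + B * θ)) -
        Z * (A + B * θ ^ 2) - Z * (A * θ ^ 2 + B) := by ring
    have k5 : T * μ ≤ 2 * μ := by linarith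
    have k6 : 2 * μ < T * μ := mul_lt_mul_of_pos_right hT hμ
    linarith
  intro s hs
  have := hle s hs
  linarith

private lemma bar_theta {T : ℝ} (hT : 3 ≤ T) : 0 < 2 / T ∧ 2 / T ≤ 2 / 3 := by
  constructor
  · positivity
  · exact div_le_div_of_nonneg_left (by norm_num) (by norm_num) hT

lemma bar_pow {T : ℝ} (hT : 3 ≤ T) {Y : ℝ} (hY : 0 ≤ Y) {ν h : ℕ} (hν : 1 ≤ ν) (hh : ν ≤ h)
    (g : ℕ → ℕ → ℝ) (hb : ∀ j < ν, ∀ s, s + 2 * j ≤ 2 * h → |g j s| ≤ Y)
    (hr : ∀ j < ν, ∀ s, s + 2 * (j + 1) ≤ 2 * h →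
      g j (s + 2) - T * g j (s + 1) + g j s = g (j + 1) s)
    (h0 : ∀ s, s + 2 * ν ≤ 2 * h → g ν s = 0) :
    |g 0 h| ≤ 2 * (9 / 5) ^ (ν - 1) * Y * (2 / T) ^ h := by
  obtain ⟨hθ, hθ2⟩ := bar_theta hT
  have hT0 : 0 < T := by linarith
  set θ : ℝ := 2 / T with hθd
  have hTθ : T * θ = 2 := by
    rw [hθd]
    field_simp
  have h1θ : 1 / θ = T / 2 := by
    rw [hθd, one_div, inv_div]
  have key : ∀ d, d < ν → ∀ s, s + 2 * (ν - 1 - d) ≤ 2 * h →
      |g (ν - 1 - d) s| ≤ (9 / 5) ^ d * Y * (θ ^ s + θ ^ (2 * h - 2 * (ν - 1 - d) - s)) := by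
    intro d
    induction d with
    | zero =>
      intro _ s hs
      rw [Nat.sub_zero] at hs ⊢
      rw [pow_zero, one_mul]
      refine bar_step (T := T) (Z' := 0) (f := fun _ => 0) (S := 2 * h - 2 * (ν - 1)) (g := g (ν - 1))
        hθ (by linarith) (by linarith) hY ?_ ?_ ?_ ?_ s (by omega)
      · intro s hs
        exact hb (ν - 1) (by omega) s (by omega)
      · intro s hs
        rw [hr (ν - 1) (by omega) s (by omega)]
        have : ν - 1 + 1 = ν := by omega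
        rw [this]
        exact h0 s (by omega)
      · intro s _
        simp
      · refine mul_nonneg hY ?_
        rw [h1θ]
        linarith
    | succ d ih =>
      intro hd s hs
      have ih' := ih (by omega)
      obtain ⟨j, hj⟩ : ∃ j, j = ν - 1 - (d + 1) := ⟨_, rfl⟩
      have hj1 : ν - 1 - d = j + 1 := by omega
      rw [hj1] at ih'
      rw [← hj] at hs ⊢
      have h9 : (1 : ℝ) ≤ (9 / 5) ^ (d + 1) := one_le_pow₀ (by norm_num)
      have h9d : (0 : ℝ) ≤ (9 / 5) ^ d * Y := by positivity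
      refine bar_step (T := T) (Z' := (9 / 5) ^ d * Y / θ) (f := g (j + 1)) (S := 2 * h - 2 * j) (g := g j)
        hθ (by linarith) (by linarith) (by positivity) ?_ ?_ ?_ ?_ s (by omega)
      · intro s hs
        refine (hb j (by omega) s (by omega)).trans ?_
        nlinarith
      · intro s hs
        exact hr j (by omega) s (by omega)
      · intro s hs
        refine (ih' s (by omega)).trans (le_of_eq ?_)
        have e1 : 2 * h - 2 * j - (s + 1) = 2 * h - 2 * (j + 1) - s + 1 := by omega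
        rw [e1, pow_succ, pow_succ]
        field_simp
      · have e1 : 1 / θ ≤ 9 / 5 * (T - θ - 1 / θ) := by
          have e2 : θ * (9 / 5 * (T - θ - 1 / θ)) = 9 / 5 * (1 - θ ^ 2) := by
            have e3 : θ * (1 / θ) = 1 := by field_simp
            calc θ * (9 / 5 * (T - θ - 1 / θ)) =
                9 / 5 * (T * θ - θ ^ 2 - θ * (1 / θ)) := by ring
              _ = 9 / 5 * (1 - θ ^ 2) := by
                rw [hTθ, e3]
                ring
          have e4 : 1 ≤ θ * (9 / 5 * (T - θ - 1 / θ)) := by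
            rw [e2]
            nlinarith
          rw [div_le_iff₀ hθ, mul_comm]
          exact e4
        calc (9 / 5) ^ d * Y / θ = (9 / 5) ^ d * Y * (1 / θ) := by ring
          _ ≤ (9 / 5) ^ d * Y * (9 / 5 * (T - θ - 1 / θ)) := mul_le_mul_of_nonneg_left e1 h9d
          _ = (9 / 5) ^ (d + 1) * Y * (T - θ - 1 / θ) := by
            rw [pow_succ]
            ring
  have h1 := key (ν - 1) (by omega) h (by omega)
  have e1 : ν - 1 - (ν - 1) = 0 := Nat.sub_self _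
  rw [e1] at h1
  have e2 : 2 * h - 2 * 0 - h = h := by omega
  rw [e2] at h1
  refine h1.trans (le_of_eq ?_)
  ring

end Pool.Agent.H95.LR
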