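import Pool.Agent.H1.PC.PalindromicCoding

/-!
# Expansions in the base of a quadratic unit of norm 1
-/

set_option autoImplicit false

namespace Pool.Agent.H95.LR

open Finset
open Pool.Agent.H1.PC

section base

variable {l : ℝ} {t : ℤ} (h1 : 1 < l) (ht : l + 1 / l = t)
include h1 ht

lemma base_ceil : ⌈l⌉ = t := by
  have h0 : 0 < l := by linarith
  have h2 : 0 < 1 / l := by positivity
  have h3 : 1 / l < 1 := by rw [div_lt_one h0]; exact h1
  rw [Int.ceil_eq_iff]
  constructor <;> linarith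

lemma base_cquot (k : ℕ) : cquot l k = l := by
  induction k with
  | zero => rfl
  | succ k ih =>
    unfold cquot
    rw [ih, base_ceil h1 ht]
    have h0 : 0 < l := by linarith
    have h2 : (t : ℝ) - l = 1 / l := by linarith
    rw [h2]
    field_simp

lemma base_pq (k : ℕ) : pq l k = t := by
  unfold pq
  rw [base_cquot h1 ht, base_ceil h1 ht]

lemma base_den (k : ℕ) : (den l k : ℝ) * (l - 1 / l) = l ^ k - (1 / l) ^ k := by
  have h0 : l ≠ 0 := by linarith
  have e : (1 / l) ^ 2 = t * (1 / l) - 1 := by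
    rw [← ht]; field_simp; ring
  have e' : l ^ 2 = t * l - 1 := by
    rw [← ht]; field_simp; ring
  induction k using Nat.twoStepInduction with
  | zero => simp [den]
  | one => simp [den]
  | more k ih1 ih2 =>
    rw [show den l (k + 2) = pq l (k + 1) * den l (k + 1) - den l k from rfl, base_pq h1 ht]
    push_cast
    have : ((t : ℝ) * den l (k + 1) - den l k) * (l - 1 / l) =
      t * (den l (k + 1) * (l - 1 / l)) - den l k * (l - 1 / l) := by ring
    rw [this, ih1, ih2, pow_succ, pow_succ (1 / l), pow_add l k 2, pow_add (1 / l) k 2, e, e']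
    ring

/-- The integers `R_k = ∑_{j ≤ k} d_j Q_{k-j}`. -/
noncomputable def bR (l : ℝ) (d : ℕ → ℤ) (k : ℕ) : ℤ :=
  ∑ j ∈ range (k + 1), d j * den l (k - j)

lemma base_digit (d : ℕ → ℤ) (k : ℕ) : digit l (bR l d) k = d (k + 1) := by
  unfold digit bR
  rw [base_pq h1 ht, Finset.sum_range_succ _ (k + 2), Finset.sum_range_succ _ (k + 1),
    Finset.sum_range_succ (fun j => d j * den l (k + 1 - j)) (k + 1)]
  have hz : den l 0 = 0 := rfl
  have ho : den l 1 = 1 := rfl
  have e1 : ∀ j ∈ range (k + 1), d j * den l (k + 2 - j) =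
      t * (d j * den l (k + 1 - j)) - d j * den l (k - j) := by
    intro j hj
    rw [Finset.mem_range] at hj
    obtain ⟨m, hm⟩ : ∃ m, k - j = m := ⟨_, rfl⟩
    rw [show k + 2 - j = m + 2 by omega, show k + 1 - j = m + 1 by omega, hm,
      show den l (m + 2) = pq l (m + 1) * den l (m + 1) - den l m from rfl, base_pq h1 ht]
    ring
  rw [Finset.sum_congr rfl e1, Finset.sum_sub_distrib, ← Finset.mul_sum]
  rw [show k + 2 - (k + 1) = 1 by omega, show k + 2 - (k + 2) = 0 by omega,
    show k + 1 - (k + 1) = 0 by omega, hz, ho]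
  ring

lemma base_bound {d : ℕ → ℤ} {F : ℤ} (hd : ∀ k, |d k| ≤ F) :
    ∃ M : ℝ, ∀ k, |(den l k : ℝ) * (∑' j, (d j : ℝ) / l ^ j) - bR l d k| ≤ M := by
  have h0 : 0 < l := by linarith
  set m : ℝ := 1 / l with hm
  have hm0 : 0 < m := by rw [hm]; positivity
  have hm1 : m < 1 := by rw [hm, div_lt_one h0]; exact h1
  have hF0 : (0 : ℝ) ≤ F := by
    have : 0 ≤ F := (abs_nonneg _).trans (hd 0)
    exact_mod_cast this
  have hdR : ∀ k, |(d k : ℝ)| ≤ F := fun k => by exact_mod_cast hd k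
  set f : ℕ → ℝ := fun j => (d j : ℝ) / l ^ j with hf
  have hfe : ∀ j, f j = (d j : ℝ) * m ^ j := fun j => by
    simp only [hf, hm]
    rw [one_div, inv_pow]
    rfl
  have hg : Summable (fun j => (F : ℝ) * m ^ j) :=
    (summable_geometric_of_lt_one hm0.le hm1).mul_left _
  have hfb : ∀ j, ‖f j‖ ≤ (F : ℝ) * m ^ j := fun j => by
    rw [hfe, Real.norm_eq_abs, abs_mul, abs_of_nonneg (pow_nonneg hm0.le j)]
    exact mul_le_mul_of_nonneg_right (hdR j) (pow_nonneg hm0.le j)
  have hs : Summable f := Summable.of_norm_bounded hg hfb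
  set D : ℝ := l - m with hD
  have hD0 : 0 < D := by rw [hD]; linarith
  set C : ℝ := (F : ℝ) * (1 - m)⁻¹ with hC
  have hC0 : 0 ≤ C := by
    rw [hC]
    exact mul_nonneg hF0 (inv_nonneg.2 (by linarith))
  -- the future part
  have hA : ∀ k, |l ^ k * (∑' j, f (j + (k + 1)))| ≤ C := by
    intro k
    have hs' : Summable (fun j => (F : ℝ) * m ^ j) := hg
    have hb : ∀ j, ‖f (j + (k + 1))‖ ≤ m ^ (k + 1) * ((F : ℝ) * m ^ j) := fun j => by
      refine (hfb _).trans (le_of_eq ?_)
      rw [pow_add]; ring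
    have h3 : ‖∑' j, f (j + (k + 1))‖ ≤ ∑' j, m ^ (k + 1) * ((F : ℝ) * m ^ j) :=
      tsum_of_norm_bounded (hs'.mul_left _).hasSum hb
    rw [tsum_mul_left, tsum_mul_left, tsum_geometric_of_lt_one hm0.le hm1,
      Real.norm_eq_abs] at h3
    rw [abs_mul, abs_of_nonneg (pow_nonneg h0.le k)]
    have h4 : l ^ k * |∑' j, f (j + (k + 1))| ≤ l ^ k * (m ^ (k + 1) * C) :=
      mul_le_mul_of_nonneg_left h3 (pow_nonneg h0.le k)
    have h5 : l ^ k * (m ^ (k + 1) * C) = (l * m) ^ k * (m * C) := by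
      rw [mul_pow, pow_succ]; ring
    have h6 : l * m = 1 := by rw [hm]; field_simp
    rw [h5, h6, one_pow, one_mul] at h4
    refine h4.trans ?_
    nlinarith
  -- the past part
  have hV : ∀ k, |∑ j ∈ range (k + 1), (d j : ℝ) * m ^ (k - j)| ≤ C := by
    intro k
    refine (Finset.abs_sum_le_sum_abs _ _).trans ?_
    have h3 : ∀ j ∈ range (k + 1), |(d j : ℝ) * m ^ (k - j)| ≤ F * m ^ (k - j) := by
      intro j _
      rw [abs_mul, abs_of_nonneg (pow_nonneg hm0.le _)]
      exact mul_le_mul_of_nonneg_right (hdR j) (pow_nonneg hm0.le _)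
    refine (Finset.sum_le_sum h3).trans ?_
    rw [← Finset.mul_sum]
    have h4 : ∑ j ∈ range (k + 1), m ^ (k - j) = ∑ j ∈ range (k + 1), m ^ j := by
      rw [← Finset.sum_range_reflect]
      apply Finset.sum_congr rfl
      intro j hj
      rw [Finset.mem_range] at hj
      congr 1
      omega
    rw [h4, hC]
    apply mul_le_mul_of_nonneg_left _ hF0
    have := (summable_geometric_of_lt_one hm0.le hm1).sum_le_tsum (range (k + 1))
      (fun j _ => pow_nonneg hm0.le j)
    rwa [tsum_geometric_of_lt_one hm0.le hm1] at this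
  refine ⟨3 * C / D, fun k => ?_⟩
  have hden := base_den h1 ht k
  rw [← hm] at hden
  have hRk : (bR l d k : ℝ) * D = ∑ j ∈ range (k + 1), (d j : ℝ) * l ^ (k - j) -
      ∑ j ∈ range (k + 1), (d j : ℝ) * m ^ (k - j) := by
    unfold bR
    push_cast
    rw [Finset.sum_mul, ← Finset.sum_sub_distrib]
    apply Finset.sum_congr rfl
    intro j _
    have h3 := base_den h1 ht (k - j)
    rw [← hm] at h3
    rw [mul_assoc, hD, h3]
    ring
  have hsum : ∑' j, f j = ∑ j ∈ range (k + 1), f j + ∑' j, f (j + (k + 1)) :=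
    (hs.sum_add_tsum_nat_add (k + 1)).symm
  have hfl : ∀ j ∈ range (k + 1), l ^ k * f j = (d j : ℝ) * l ^ (k - j) := by
    intro j hj
    rw [Finset.mem_range] at hj
    simp only [hf]
    have h3 : l ^ k = l ^ (k - j) * l ^ j := by
      rw [← pow_add]; congr 1; omega
    rw [h3]
    have h4 : l ^ j ≠ 0 := pow_ne_zero _ h0.ne'
    field_simp
  have key : ((den l k : ℝ) * (∑' j, f j) - bR l d k) * D =
      l ^ k * (∑' j, f (j + (k + 1))) +
        ∑ j ∈ range (k + 1), (d j : ℝ) * m ^ (k - j) - m ^ k * ∑' j, f j := by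
    have e1 : ((den l k : ℝ) * (∑' j, f j) - bR l d k) * D =
      (den l k * (l - m)) * (∑' j, f j) - bR l d k * D := by rw [hD]; ring
    rw [e1, hden, hRk, sub_mul]
    have e2 : l ^ k * (∑' j, f j) = ∑ j ∈ range (k + 1), (d j : ℝ) * l ^ (k - j) +
        l ^ k * (∑' j, f (j + (k + 1))) := by
      rw [hsum, mul_add, Finset.mul_sum, Finset.sum_congr rfl hfl]
    rw [e2]
    ring
  have hB : |m ^ k * ∑' j, f j| ≤ C := by
    have h3 : ‖∑' j, f j‖ ≤ ∑' j, (F : ℝ) * m ^ j := tsum_of_norm_bounded hg.hasSum hfb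
    rw [tsum_mul_left, tsum_geometric_of_lt_one hm0.le hm1, Real.norm_eq_abs] at h3
    rw [abs_mul, abs_of_nonneg (pow_nonneg hm0.le k)]
    have h4 : m ^ k ≤ 1 := pow_le_one₀ hm0.le hm1.le
    calc m ^ k * |∑' j, f j| ≤ 1 * C := mul_le_mul h4 h3 (abs_nonneg _) zero_le_one
      _ = C := one_mul _
  rw [le_div_iff₀ hD0]
  have h7 : |(den l k : ℝ) * (∑' j, f j) - bR l d k| * D =
      |((den l k : ℝ) * (∑' j, f j) - bR l d k) * D| := by
    rw [abs_mul, abs_of_pos hD0]
  rw [h7, key]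
  refine (abs_sub _ _).trans ?_
  have h8 := abs_add_le (l ^ k * (∑' j, f (j + (k + 1))))
    (∑ j ∈ range (k + 1), (d j : ℝ) * m ^ (k - j))
  have h9 := hA k
  have h10 := hV k
  linarith

end base

end Pool.Agent.H95.LR
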