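import Pool.Agent.H95.LR.Def
import Pool.Agent.H95.LC.Rel

/-!
# Module Com (about 130 lines): compatibility of the reduced relation, passage to a smaller window

`Compat`, `cmb`, `cmb_rec`, `zero_window` are in Pool/Agent/H95/LC/Rel.lean.
PROOFS. Periodicity in the form (P): pq(n+x+1) = pq(n+y+1) for x, y < w + Jm with x ≡ y mod m (iterate hper).
`compat_whole`: w' = w + 2νm, L' = (J-2ν)m, w' + L' = w + Jm. First part: i < w': n + L' + i vs n + i, both indices
< w' + L', L' a multiple of m. Translates: ca m A0 j ≠ 0 gives m ∣ j; i + j < w' + L'. Reflections: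
cb L' r m B0 j ≠ 0 gives B0 ≠ 0 and j + (t m + r) = L' for some t (unfold cb); with x = (w'-1-i) + j, y = i (both
< w + Jm): x + y + r + 1 - w = 2νm + (J-2ν)m - tm is divisible by m, so href.
`compat_sub`: index shift: (n+h) + ((w-2h)-1-i) + j = n + (w-1-(i+h)) + j for i < w - 2h.
`sub_nonzero`: if all the sums on the small window vanish, then z k = cmb a b L (2n+w+1) (den cast) k vanishes for
n + h ≤ k ≤ n + h + (w-2h) + 1, in particular at n+h and n+h+1; by cmb_rec (with f = 0, den_rec) z satisfies the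
recurrence on the whole window, zero_window gives z (n+i) = 0 for all i ≤ w+1: contradiction with hne
(2n+w+1-(n+i)+j = n+(w+1-i)+j).
-/

set_option autoImplicit false

namespace Pool.Agent.H95.LR

open Polynomial Finset
open Pool.Agent.H1.PC
open Pool.Agent.H18.LC
open Pool.Agent.H95.LC (op G l1 Compat cmb cmb_rec zero_window)

private lemma Com_per {α : ℝ} {n W m : ℕ}
    (hper : ∀ i, i + m < W → pq α (n + i + m + 1) = pq α (n + i + 1)) (x : ℕ) :
    ∀ t : ℕ, x + t * m < W → pq α (n + (x + t * m) + 1) = pq α (n + x + 1) := by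
  intro t
  induction t with
  | zero => intro _; simp
  | succ t ih =>
    intro h
    have e : x + (t + 1) * m = x + t * m + m := by ring
    rw [e] at h
    rw [e, ← ih (by omega), ← hper (x + t * m) h]
    congr 1
    ring

lemma compat_whole {α : ℝ} {n w J m r ν : ℕ} (hm : 1 ≤ m) (hν : 2 * ν ≤ J)
    (hper : ∀ i, i + m < w + J * m → pq α (n + i + m + 1) = pq α (n + i + 1)) {A0 B0 : ℤ[X]}
    (href : B0 ≠ 0 → ∀ x y : ℕ, x < w + J * m → y < w + J * m →
      (m : ℤ) ∣ (x : ℤ) + y + r + 1 - w → pq α (n + x + 1) = pq α (n + y + 1)) :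
    Compat α n (w + 2 * ν * m) ((J - 2 * ν) * m) (ca m A0) (cb ((J - 2 * ν) * m) r m B0) := by
  have hJ : J * m = 2 * ν * m + (J - 2 * ν) * m := by
    rw [← add_mul]
    congr 1
    omega
  refine ⟨fun i hi => ?_, fun j hj i hi => ⟨fun ha => ?_, fun hb => ?_⟩⟩
  · have h1 := Com_per hper i (J - 2 * ν) (by omega)
    rw [← h1]
    congr 1
    ring
  · have hd : m ∣ j := by
      by_contra hcon
      apply ha
      unfold ca
      rw [if_neg hcon]
    obtain ⟨t, rfl⟩ := hd
    have e : m * t = t * m := mul_comm m t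
    have h1 := Com_per hper i t (by omega)
    rw [← h1]
    congr 1
    rw [e]
    ring
  · unfold cb at hb
    split_ifs at hb with hcond
    · obtain ⟨h1, t, ht⟩ := hcond
      have hB : B0 ≠ 0 := by
        rintro rfl
        exact hb (by simp)
      have h2 := href hB ((w + 2 * ν * m - 1 - i) + j) i (by omega) (by omega) (by
        refine ⟨(J : ℤ) - t, ?_⟩
        have e1 : (((w + 2 * ν * m - 1 - i) + j : ℕ) : ℤ) =
            (w : ℤ) + 2 * ν * m - 1 - i + j := by
          have : (w + 2 * ν * m - 1 - i) + j + (1 + i) = w + 2 * ν * m + j := by omega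
          have h3 : (((w + 2 * ν * m - 1 - i) + j + (1 + i) : ℕ) : ℤ) =
              ((w + 2 * ν * m + j : ℕ) : ℤ) := by rw [this]
          push_cast at h3 ⊢
          linarith
        have e2 : (j : ℤ) + r + m * t = (J : ℤ) * m - 2 * ν * m := by
          have : j + r + m * t + 2 * ν * m = J * m := by omega
          have h3 : ((j + r + m * t + 2 * ν * m : ℕ) : ℤ) = ((J * m : ℕ) : ℤ) := by rw [this]
          push_cast at h3
          linarith
        rw [e1]
        linear_combination e2)
      rw [← h2]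
      congr 1
      ring
    · exact absurd rfl hb

lemma compat_sub {α : ℝ} {n w L h : ℕ} {a b : ℕ → ℤ} (hw : 2 * h ≤ w)
    (hc : Compat α n w L a b) : Compat α (n + h) (w - 2 * h) L a b := by
  refine ⟨fun i hi => ?_, fun j hj i hi => ?_⟩
  · have h1 := hc.1 (h + i) (by omega)
    rw [show n + h + i + 1 = n + (h + i) + 1 by ring,
      show n + h + L + i + 1 = n + L + (h + i) + 1 by ring]
    exact h1
  · obtain ⟨h1, h2⟩ := hc.2 j hj (h + i) (by omega)
    refine ⟨fun ha => ?_, fun hb => ?_⟩
    · rw [show n + h + i + j + 1 = n + (h + i) + j + 1 by ring,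
        show n + h + i + 1 = n + (h + i) + 1 by ring]
      exact h1 ha
    · rw [show n + h + (w - 2 * h - 1 - i) + j + 1 = n + (w - 1 - (h + i)) + j + 1 by omega,
        show n + h + i + 1 = n + (h + i) + 1 by ring]
      exact h2 hb

lemma sub_nonzero {α : ℝ} {n w L h : ℕ} {a b : ℕ → ℤ} (hw : 2 * h ≤ w)
    (hc : Compat α n w L a b)
    (hne : ∃ i ≤ w + 1, ∑ j ∈ range (L + 1),
      (a j * den α (n + i + j) + b j * den α (n + (w + 1 - i) + j)) ≠ 0) :
    ∃ i ≤ w - 2 * h + 1, ∑ j ∈ range (L + 1),
      (a j * den α (n + h + i + j) + b j * den α (n + h + (w - 2 * h + 1 - i) + j)) ≠ 0 := by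
  by_contra hcon
  push Not at hcon
  obtain ⟨i0, hi0, hne⟩ := hne
  have key : ∀ k k' : ℕ, 2 * n + w + 1 - k = k' →
      cmb a b L (2 * n + w + 1) (fun k => (den α k : ℝ)) k =
        ((∑ j ∈ range (L + 1), (a j * den α (k + j) + b j * den α (k' + j)) : ℤ) : ℝ) := by
    intro k k' hk
    unfold cmb
    rw [hk]
    push_cast
    rfl
  have hrec : ∀ i < w, cmb a b L (2 * n + w + 1) (fun k => (den α k : ℝ)) (n + i + 2) =
      pq α (n + i + 1) * cmb a b L (2 * n + w + 1) (fun k => (den α k : ℝ)) (n + i + 1) -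
        cmb a b L (2 * n + w + 1) (fun k => (den α k : ℝ)) (n + i) := by
    intro i hi
    rw [cmb_rec hc (fun k => (den α k : ℝ)) (fun _ => 0) (fun k => by
      simp only [sub_zero]; exact den_rec k) hi]
    simp
  have z0 : cmb a b L (2 * n + w + 1) (fun k => (den α k : ℝ)) (n + h) = 0 := by
    rw [key (n + h) (n + h + (w - 2 * h + 1)) (by omega)]
    have := hcon 0 (by omega)
    simp only [add_zero, Nat.sub_zero] at this
    rw [this]
    simp
  have z1 : cmb a b L (2 * n + w + 1) (fun k => (den α k : ℝ)) (n + h + 1) = 0 := by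
    rw [key (n + h + 1) (n + h + (w - 2 * h + 1 - 1)) (by omega), hcon 1 (by omega)]
    simp
  have := zero_window _ hrec (h := h) (by omega) z0 z1 i0 hi0
  rw [key (n + i0) (n + (w + 1 - i0)) (by omega)] at this
  exact hne (by exact_mod_cast this)

end Pool.Agent.H95.LR
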