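import Pool.Agent.H95.LC.Mult
import Pool.Agent.H18.LC.Window

/-!
# Pairs of polynomials acting on a sequence and on its reflection
-/

set_option autoImplicit false

namespace Pool.Agent.H95.LR

open Polynomial Finset
open Pool.Agent.H1.PC
open Pool.Agent.H95.LC (op G l1)

/-- The coefficients of `A(x^m)`. -/
noncomputable def ca (m : ℕ) (A : ℤ[X]) (j : ℕ) : ℤ := if m ∣ j then A.coeff (j / m) else 0

/-- The coefficients of `x^(D-r) B(x^(-m))`: the coefficient of `x^j` is `B_t`, `j + (t m + r) = D`. -/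
noncomputable def cb (D r m : ℕ) (B : ℤ[X]) (j : ℕ) : ℤ :=
  if j + r ≤ D ∧ m ∣ D - (j + r) then B.coeff ((D - (j + r)) / m) else 0

/-- `A(S^m)` acting on `X` plus `S^r B(S^m)` acting on `Y`. -/
noncomputable def pr {M : Type*} [AddCommGroup M] (m r : ℕ) (A B : ℤ[X]) (X Y : ℕ → M) (i : ℕ) : M :=
  op m A X i + op m B (fun k => Y (k + r)) i

/-- A relation of the digits on the window `n, ..., n + w - 1`, in polynomial form; the partial
quotients have the period `m` on the whole window of length `w + J m`, and the reflection symmetry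
that belongs to `B` if `B ≠ 0`. -/
structure Good (α : ℝ) (R : ℕ → ℤ) (n w J m r : ℕ) (A B : ℤ[X]) : Prop where
  hm : 1 ≤ m
  hr : r < m
  dA : A.natDegree ≤ J
  dB : B = 0 ∨ B.natDegree * m + r ≤ J * m
  ne : A ≠ 0 ∨ B ≠ 0
  per : ∀ i, i + m < w + J * m → pq α (n + i + m + 1) = pq α (n + i + 1)
  ref : B ≠ 0 → ∀ x y : ℕ, x < w + J * m → y < w + J * m →
    (m : ℤ) ∣ (x : ℤ) + y + r + 1 - w → pq α (n + x + 1) = pq α (n + y + 1)
  rel : ∀ i < w, pr m r A B (fun k => digit α R (n + k))
    (fun k => digit α R (n + (w - 1 + J * m) - k)) i = 0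

end Pool.Agent.H95.LR
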