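import Pool.Agent.H95.LC.Mult

/-!
# Module OpM (about 60 lines): division by G = x^2 - T x + 1 under the operator

PROOFS. A = r + G g, r = A %ₘ G T, g = A /ₘ G T (modByMonic_add_div, G_monic; in this direction
`A %ₘ q + q * (A /ₘ q) = A`). op_add: op m A X = op m r X + op m (g * G) X = op m r X + op m g (op m G X).
If g ≠ 0 then natDegree g + 2 = natDegree A ≤ J (natDegree_divByMonic), so by op_apply (J := natDegree g)
op m g (op m G X) i = ∑_{t ≤ natDegree g} g_t • (op m G X)(i + t m) = 0 by h; if g = 0 it is 0.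
degree r < 2 (degree_modByMonic_lt), so op_apply with J = 1 gives r_0 • X i + r_1 • X (i + 1 * m).
`dvd_of_rem`: natDegree of the remainder ≤ 1 and both coefficients zero, so the remainder is 0
(modByMonic_eq_zero_iff_dvd).
-/

set_option autoImplicit false

namespace Pool.Agent.H95.LR

open Polynomial
open Pool.Agent.H95.LC (op G l1 G_monic G_natDegree op_apply op_mul op_add)

lemma op_mod {M : Type*} [AddCommGroup M] {m J : ℕ} {T : ℤ} {A : ℤ[X]} (hA : A.natDegree ≤ J)
    {X : ℕ → M} {i : ℕ} (h : ∀ t, t + 2 ≤ J → op m (G T) X (i + t * m) = 0) :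
    op m A X i = (A %ₘ G T).coeff 1 • X (i + m) + (A %ₘ G T).coeff 0 • X i := by
  have hr : (A %ₘ G T).natDegree ≤ 1 := by
    have h1 : G T ≠ 1 := by
      intro h2
      have h3 := G_natDegree T
      rw [h2, natDegree_one] at h3
      omega
    have h2 := natDegree_modByMonic_lt A (G_monic T) h1
    rw [G_natDegree] at h2
    omega
  have hg : op m (G T * (A /ₘ G T)) X i = 0 := by
    rcases eq_or_ne (A /ₘ G T) 0 with h0 | h0
    · rw [h0, mul_zero, op_apply (J := 0) (by simp)]
      simp
    · have hlt : ¬ A.degree < (G T).degree := fun hlt => h0 ((divByMonic_eq_zero_iff (G_monic T)).2 hlt)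
      have hdeg : (A /ₘ G T).natDegree + 2 ≤ J := by
        have h1 := natDegree_divByMonic A (G_monic T)
        rw [G_natDegree] at h1
        have h2 : (G T).natDegree ≤ A.natDegree := natDegree_le_natDegree (not_lt.1 hlt)
        rw [G_natDegree] at h2
        omega
      rw [mul_comm, op_mul, op_apply (J := (A /ₘ G T).natDegree) le_rfl]
      apply Finset.sum_eq_zero
      intro t ht
      rw [Finset.mem_range] at ht
      rw [h t (by omega), smul_zero]
  have hA' : op m A X i = op m (A %ₘ G T) X i := by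
    conv_lhs => rw [← modByMonic_add_div A (G T)]
    rw [op_add, Pi.add_apply, hg, add_zero]
  rw [hA', op_apply (J := 1) hr]
  simp only [Finset.sum_range_succ, Finset.sum_range_zero, Nat.zero_mul, Nat.one_mul, Nat.add_zero,
    zero_add]
  rw [add_comm]

lemma dvd_of_rem {T : ℤ} {A : ℤ[X]} (h0 : (A %ₘ G T).coeff 0 = 0) (h1 : (A %ₘ G T).coeff 1 = 0) :
    G T ∣ A := by
  rw [← modByMonic_eq_zero_iff_dvd (G_monic T)]
  have hr : (A %ₘ G T).natDegree ≤ 1 := by
    have h1 : G T ≠ 1 := by
      intro h2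
      have h3 := G_natDegree T
      rw [h2, natDegree_one] at h3
      omega
    have h2 := natDegree_modByMonic_lt A (G_monic T) h1
    rw [G_natDegree] at h2
    omega
  ext k
  rcases Nat.lt_or_ge 1 k with hk | hk
  · rw [coeff_eq_zero_of_natDegree_lt (lt_of_le_of_lt hr hk), coeff_zero]
  · interval_cases k
    · rw [h0, coeff_zero]
    · rw [h1, coeff_zero]

/-- `y^2 + T x y + x^2 = 0` has only the zero solution for `T ≥ 3`. -/
lemma norm_ne {T x y : ℤ} (hT : 3 ≤ T) (h : y ^ 2 + T * x * y + x ^ 2 = 0) : x = 0 ∧ y = 0 := by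
  have hx : x = 0 := by
    by_contra hx
    have hz : (2 * y + T * x) ^ 2 = (T ^ 2 - 4) * x ^ 2 := by linear_combination 4 * h
    have hd : x ∣ 2 * y + T * x := by
      rw [← Int.pow_dvd_pow_iff (two_ne_zero), hz]
      exact Dvd.intro_left _ rfl
    obtain ⟨t, ht⟩ := hd
    rw [ht] at hz
    have hx2 : x ^ 2 ≠ 0 := pow_ne_zero _ hx
    have ht2 : t ^ 2 = T ^ 2 - 4 := by
      apply mul_left_cancel₀ hx2
      linear_combination hz
    rw [← sq_abs] at ht2
    have ha := abs_nonneg t
    rcases le_or_gt |t| (T - 1) with h1 | h1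
    · nlinarith
    · nlinarith
  subst hx
  refine ⟨rfl, ?_⟩
  have : y ^ 2 = 0 := by linear_combination h
  exact pow_eq_zero_iff (two_ne_zero) |>.1 this

end Pool.Agent.H95.LR
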