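import Pool.Agent.H18.LC.Window
import Pool.Agent.H95.LR.OpM

/-!
# Module Det: two determinants of denominators

`zero_B`: the two solutions den, th of the recurrence have the Wronskian 1 (lemma `det`). Let
v_j = (den(n+i+jm), den(n+i+1+jm)), u_j the same with th, v2 = T v1 - v0, u2 = T u1 - u0, x v2 + y v1 = 0 and
e = det[v1, u0]. Then x = det[x v2, u2] = -y (T - e) and x = det[x v0, u0] = (x T + y) e, hence
T (x^2 + T x y + y^2) = 0, and norm_ne gives x = y = 0.
`zero_L`: if both vanish: n = 0: den 0 = 0, den(w+1) > 0 give b = 0 and a = 0. In general x = den n,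
y = den(n+w+1), 0 ≤ x < y (den_strict); a x + b y = 0, a y + b x = 0 give (a+b)(x+y) = 0, (a-b)(y-x) = 0, so
a + b = 0 and a - b = 0.
-/

set_option autoImplicit false

namespace Pool.Agent.H95.LR

open Pool.Agent.H1.PC
open Pool.Agent.H18.LC

private lemma Det_alg {T x y p0 q0 p1 q1 p2 q2 r0 s0 r1 s1 r2 s2 : ℝ}
    (d0 : q0 * r0 - p0 * s0 = 1) (d1 : q1 * r1 - p1 * s1 = 1) (d2 : q2 * r2 - p2 * s2 = 1)
    (hp : p2 = T * p1 - p0) (hq : q2 = T * q1 - q0) (hr : r2 = T * r1 - r0)
    (hs : s2 = T * s1 - s0) (h1 : x * p2 + y * p1 = 0) (h2 : x * q2 + y * q1 = 0) :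
    T * (y ^ 2 + T * x * y + x ^ 2) = 0 := by
  have A : x = -(y * T) + y * (q1 * r0 - p1 * s0) := by
    have a1 : x = x * (q2 * r2 - p2 * s2) := by rw [d2, mul_one]
    rw [a1]
    have a2 : x * (q2 * r2 - p2 * s2) = (x * q2) * r2 - (x * p2) * s2 := by ring
    have a3 : x * q2 = -(y * q1) := by linarith
    have a4 : x * p2 = -(y * p1) := by linarith
    rw [a2, a3, a4, hr, hs]
    linear_combination (-(y * T)) * d1
  have B : x = (x * T + y) * (q1 * r0 - p1 * s0) := by
    have b1 : x = x * (q0 * r0 - p0 * s0) := by rw [d0, mul_one]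
    have b2 : x * (q0 * r0 - p0 * s0) = (x * q0) * r0 - (x * p0) * s0 := by ring
    have b3 : x * q0 = (x * T + y) * q1 := by
      linear_combination x * hq - h2
    have b4 : x * p0 = (x * T + y) * p1 := by
      linear_combination x * hp - h1
    calc x = (x * q0) * r0 - (x * p0) * s0 := by rw [← b2]; exact b1
      _ = (x * T + y) * (q1 * r0 - p1 * s0) := by rw [b3, b4]; ring
  linear_combination (x * T + y) * A - y * B

lemma zero_B {α : ℝ} {n m i : ℕ} {T : ℤ} (hT : 3 ≤ T)
    (hX : ∀ k, i ≤ k → k ≤ i + 1 →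
      (den α (n + (k + 2 * m)) : ℝ) = T * den α (n + (k + m)) - den α (n + k))
    (hth : ∀ k, i ≤ k → k ≤ i + 1 →
      th α (n + (k + 2 * m)) = T * th α (n + (k + m)) - th α (n + k)) {x y : ℤ}
    (h1 : x * den α (n + (i + 2 * m)) + y * den α (n + (i + m)) = 0)
    (h2 : x * den α (n + (i + 1 + 2 * m)) + y * den α (n + (i + 1 + m)) = 0) :
    x = 0 ∧ y = 0 := by
  have d0 := det (α := α) (n + i)
  have d1 := det (α := α) (n + (i + m))
  have d2 := det (α := α) (n + (i + 2 * m))
  have e0 : n + i + 1 = n + (i + 1) := by ring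
  have e1 : n + (i + m) + 1 = n + (i + 1 + m) := by ring
  have e2 : n + (i + 2 * m) + 1 = n + (i + 1 + 2 * m) := by ring
  rw [e0] at d0
  rw [e1] at d1
  rw [e2] at d2
  have k1 : (x : ℝ) * (den α (n + (i + 2 * m)) : ℝ) + y * (den α (n + (i + m)) : ℝ) = 0 := by
    exact_mod_cast h1
  have k2 : (x : ℝ) * (den α (n + (i + 1 + 2 * m)) : ℝ) +
      y * (den α (n + (i + 1 + m)) : ℝ) = 0 := by
    exact_mod_cast h2
  have key := Det_alg d0 d1 d2 (hX i le_rfl (by omega)) (hX (i + 1) (by omega) le_rfl)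
    (hth i le_rfl (by omega)) (hth (i + 1) (by omega) le_rfl) k1 k2
  have key2 : T * (y ^ 2 + T * x * y + x ^ 2) = 0 := by exact_mod_cast key
  rcases mul_eq_zero.1 key2 with h | h
  · omega
  · exact norm_ne hT h

lemma zero_L {α : ℝ} (hα : Irrational α) (n w : ℕ) {a b : ℤ} (hab : a ≠ 0 ∨ b ≠ 0) :
    a * den α n + b * den α (n + (w + 1)) ≠ 0 ∨ a * den α (n + (w + 1)) + b * den α n ≠ 0 := by
  by_contra hcon
  push Not at hcon
  obtain ⟨h1, h2⟩ := hcon
  have hx : 0 ≤ den α n := (den_inc hα n).1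
  have hxy : den α n < den α (n + (w + 1)) := den_strict hα (by omega)
  set x : ℤ := den α n with hxd
  set y : ℤ := den α (n + (w + 1)) with hyd
  have k1 : (a + b) * (x + y) = 0 := by linear_combination h1 + h2
  have k2 : (a - b) * (y - x) = 0 := by linear_combination h2 - h1
  have q1 : a + b = 0 := by
    rcases mul_eq_zero.1 k1 with h | h
    · exact h
    · omega
  have q2 : a - b = 0 := by
    rcases mul_eq_zero.1 k2 with h | h
    · exact h
    · omega
  omega

end Pool.Agent.H95.LR
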