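import Pool.Agent.H95.LC.Mult

/-!
# Module Fct (about 70 lines): the common power of G = x^2 - T x + 1

PROOFS. `split_pair`: strong induction on A.natDegree + B.natDegree. If not both divisible take ν = 0. If
A = G A1, B = G B1: (A1, B1) ≠ (0,0); natDegree (G A1) = 2 + natDegree A1 if A1 ≠ 0 (G monic of degree 2,
G_monic, G_natDegree), and 0 = 0 for A1 = 0, so the sum decreases; ν + 1, pow_succ. `pair_deg`: if A0 ≠ 0 then
natDegree (G^ν A0) = 2ν + natDegree A0 ≤ J; if B0 ≠ 0 then (2ν + natDegree B0) m + r ≤ J m, so 2ν ≤ J (m ≥ 1)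
and natDegree B0 * m + r ≤ J m - 2ν m = (J - 2ν) m. If A0 = 0 its natDegree is 0.
-/

set_option autoImplicit false

namespace Pool.Agent.H95.LR

open Polynomial
open Pool.Agent.H95.LC (op G l1 G_monic G_natDegree)

private lemma Fct_ne (T : ℤ) : G T ≠ 0 := (G_monic T).ne_zero

private lemma Fct_deg (T : ℤ) {P : ℤ[X]} (hP : P ≠ 0) : (G T * P).natDegree = 2 + P.natDegree := by
  rw [(G_monic T).natDegree_mul' hP, G_natDegree]

private lemma Fct_pow_deg (T : ℤ) (ν : ℕ) {P : ℤ[X]} (hP : P ≠ 0) :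
    (G T ^ ν * P).natDegree = 2 * ν + P.natDegree := by
  rw [((G_monic T).pow ν).natDegree_mul' hP, (G_monic T).natDegree_pow, G_natDegree, mul_comm ν 2]

private lemma Fct_aux (T : ℤ) : ∀ (n : ℕ) (A B : ℤ[X]), A.natDegree + B.natDegree ≤ n →
    (A ≠ 0 ∨ B ≠ 0) →
    ∃ (ν : ℕ) (A0 B0 : ℤ[X]), A = G T ^ ν * A0 ∧ B = G T ^ ν * B0 ∧ (A0 ≠ 0 ∨ B0 ≠ 0) ∧
      ¬ (G T ∣ A0 ∧ G T ∣ B0) := by
  intro n
  induction n using Nat.strong_induction_on with
  | _ n ih =>
    intro A B hn h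
    by_cases hd : G T ∣ A ∧ G T ∣ B
    · obtain ⟨⟨A1, rfl⟩, ⟨B1, rfl⟩⟩ := hd
      have h1 : A1 ≠ 0 ∨ B1 ≠ 0 := by
        rcases h with h | h
        · exact Or.inl (right_ne_zero_of_mul h)
        · exact Or.inr (right_ne_zero_of_mul h)
      have hlt : A1.natDegree + B1.natDegree < n := by
        by_cases hA : A1 = 0
        · have hB : B1 ≠ 0 := by
            rcases h1 with h | h
            · exact absurd hA h
            · exact h
          rw [Fct_deg T hB, hA, mul_zero, natDegree_zero] at hn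
          rw [hA, natDegree_zero]
          omega
        · by_cases hB : B1 = 0
          · rw [Fct_deg T hA, hB, mul_zero, natDegree_zero] at hn
            rw [hB, natDegree_zero]
            omega
          · rw [Fct_deg T hA, Fct_deg T hB] at hn
            omega
      obtain ⟨ν, A0, B0, e1, e2, e3, e4⟩ := ih _ hlt A1 B1 le_rfl h1
      refine ⟨ν + 1, A0, B0, ?_, ?_, e3, e4⟩
      · rw [e1, pow_succ]
        ring
      · rw [e2, pow_succ]
        ring
    · exact ⟨0, A, B, by rw [pow_zero, one_mul], by rw [pow_zero, one_mul], h, hd⟩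

lemma split_pair (T : ℤ) {A B : ℤ[X]} (h : A ≠ 0 ∨ B ≠ 0) :
    ∃ (ν : ℕ) (A0 B0 : ℤ[X]), A = G T ^ ν * A0 ∧ B = G T ^ ν * B0 ∧ (A0 ≠ 0 ∨ B0 ≠ 0) ∧
      ¬ (G T ∣ A0 ∧ G T ∣ B0) :=
  Fct_aux T _ A B le_rfl h

lemma pair_deg {T : ℤ} {ν J m r : ℕ} (hm : 1 ≤ m) {A0 B0 : ℤ[X]} (h0 : A0 ≠ 0 ∨ B0 ≠ 0)
    (hA : (G T ^ ν * A0).natDegree ≤ J)
    (hB : G T ^ ν * B0 = 0 ∨ (G T ^ ν * B0).natDegree * m + r ≤ J * m) :
    2 * ν ≤ J ∧ A0.natDegree ≤ J - 2 * ν ∧ (B0 = 0 ∨ B0.natDegree * m + r ≤ (J - 2 * ν) * m) := by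
  have hBz : B0 ≠ 0 → (2 * ν + B0.natDegree) * m + r ≤ J * m := by
    intro hB0
    rcases hB with hB | hB
    · exact absurd hB (mul_ne_zero (pow_ne_zero ν (Fct_ne T)) hB0)
    · rwa [Fct_pow_deg T ν hB0] at hB
  have hAz : A0 ≠ 0 → 2 * ν + A0.natDegree ≤ J := by
    intro hA0
    rwa [Fct_pow_deg T ν hA0] at hA
  have h2 : 2 * ν ≤ J := by
    rcases h0 with h | h
    · have := hAz h
      omega
    · have h3 := hBz h
      by_contra hlt
      have h4 : J * m < 2 * ν * m := Nat.mul_lt_mul_of_pos_right (not_le.1 hlt) hm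
      have h5 : 2 * ν * m ≤ (2 * ν + B0.natDegree) * m := Nat.mul_le_mul_right m (Nat.le_add_right _ _)
      omega
  refine ⟨h2, ?_, ?_⟩
  · by_cases hA0 : A0 = 0
    · rw [hA0, natDegree_zero]
      exact Nat.zero_le _
    · have := hAz hA0
      omega
  · by_cases hB0 : B0 = 0
    · exact Or.inl hB0
    · right
      have h3 := hBz hB0
      have h4 : (J - 2 * ν) * m + 2 * ν * m = J * m := by
        rw [← Nat.add_mul, Nat.sub_add_cancel h2]
      have h5 : (2 * ν + B0.natDegree) * m = 2 * ν * m + B0.natDegree * m := Nat.add_mul _ _ _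
      omega

end Pool.Agent.H95.LR
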