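import Mathlib

/-!
# Module GrW (about 90 lines, only Mathlib): the trace of a long window is at least 3

PROOF. Let j0 ≥ 1 be such that (1+δ)^j0 > j0 + 1 and m1 ≥ 1 such that (1+δ)^m1 > 2 (powers are unbounded and
beat linear functions: e.g. tendsto_pow_const_div_const_pow_of_one_lt, or Bernoulli: (1+δ)^(2a) ≥ (1+aδ)^2 ≥
1 + a^2 δ^2 > 2a + 1 for a > 2/δ^2). K = (j0 + 1) * m1.
Growth: x (i + h) ≥ (1+δ)^h x i for all i, h. (i = 0) T x(m) = x(2m) + x(0) ≥ x(2m) ≥ (1+δ)^m x(m), x(m) > 0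
(m ≥ 1), so (1+δ)^m ≤ T; in particular T > 1, T ≥ 2 (T is an integer). Suppose T = 2 (T < 3). Then m < m1
(otherwise T ≥ (1+δ)^m1 > 2) and by the recurrence x((j+2)m) - x((j+1)m) = x((j+1)m) - x(jm) for (j+2)m ≤ N
(use i = j m), so x((j+1)m) ≤ (j+1) x(m) for (j+1) m ≤ N (differences constant = x(m) - x(0) ≤ x(m)). Since
(j0+1) m ≤ (j0+1) m1 = K ≤ N: (1+δ)^(j0 m) x(m) ≤ x((j0+1)m) ≤ (j0+1) x(m), but (1+δ)^(j0 m) ≥ (1+δ)^j0 > j0+1.
-/

set_option autoImplicit false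

namespace Pool.Agent.H95.LR

private lemma grW_growth {δ : ℝ} (hδ : 0 < δ) {x : ℕ → ℝ}
    (hg : ∀ i, (1 + δ) * x i ≤ x (i + 1)) (i h : ℕ) : (1 + δ) ^ h * x i ≤ x (i + h) := by
  induction h with
  | zero => simp
  | succ h ih =>
    have h1 : (0 : ℝ) ≤ 1 + δ := by linarith
    calc (1 + δ) ^ (h + 1) * x i = (1 + δ) * ((1 + δ) ^ h * x i) := by ring
      _ ≤ (1 + δ) * x (i + h) := mul_le_mul_of_nonneg_left ih h1
      _ ≤ x (i + h + 1) := hg _
      _ = x (i + (h + 1)) := by rw [Nat.add_assoc]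

private lemma grW_lin {δ : ℝ} (hδ : 0 < δ) : ∃ j : ℕ, ((j : ℝ) + 1) < (1 + δ) ^ j := by
  obtain ⟨a, ha⟩ := exists_nat_gt (2 / δ ^ 2)
  have hd2 : 0 < δ ^ 2 := by positivity
  have ha2 : 2 < (a : ℝ) * δ ^ 2 := by
    rw [div_lt_iff₀ hd2] at ha
    exact ha
  have ha0 : (0 : ℝ) < a := by
    by_contra hcon
    push Not at hcon
    have : (a : ℝ) * δ ^ 2 ≤ 0 := mul_nonpos_of_nonpos_of_nonneg hcon hd2.le
    linarith
  refine ⟨2 * a, ?_⟩
  have hb : 1 + (a : ℝ) * δ ≤ (1 + δ) ^ a := one_add_mul_le_pow (by linarith) a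
  have hb0 : 0 ≤ 1 + (a : ℝ) * δ := by positivity
  have hsq : (1 + (a : ℝ) * δ) ^ 2 ≤ ((1 + δ) ^ a) ^ 2 := pow_le_pow_left₀ hb0 hb 2
  have he : (1 + δ) ^ (2 * a) = ((1 + δ) ^ a) ^ 2 := by rw [← pow_mul, Nat.mul_comm]
  rw [he]
  push_cast
  have h3 : (a : ℝ) * 2 < a * (a * δ ^ 2) := mul_lt_mul_of_pos_left ha2 ha0
  have h4 : 0 < (a : ℝ) * δ := by positivity
  nlinarith

lemma trace_large {δ : ℝ} (hδ : 0 < δ) : ∃ K : ℕ, ∀ (N m : ℕ) (T : ℤ) (x : ℕ → ℝ),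
    1 ≤ m → 2 * m ≤ N → K ≤ N → 0 ≤ x 0 → (∀ i, 0 < x (i + 1)) →
    (∀ i, (1 + δ) * x i ≤ x (i + 1)) →
    (∀ i, i + 2 * m ≤ N → x (i + 2 * m) = T * x (i + m) - x i) →
    3 ≤ T ∧ (1 + δ) ^ m ≤ (T : ℝ) := by
  obtain ⟨j0, hj0⟩ := grW_lin hδ
  have h1 : (1 : ℝ) < 1 + δ := by linarith
  obtain ⟨m1, hm1⟩ := pow_unbounded_of_one_lt (2 : ℝ) h1
  refine ⟨(j0 + 1) * m1, ?_⟩
  intro N m T x hm h2m hK hx0 hx hg hrec
  have hxm : 0 < x m := by
    obtain ⟨k, rfl⟩ : ∃ k, m = k + 1 := ⟨m - 1, by omega⟩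
    exact hx k
  have hT : (1 + δ) ^ m ≤ (T : ℝ) := by
    have e0 := hrec 0 (by omega)
    have e1 := grW_growth hδ hg m m
    have e2 : m + m = 0 + 2 * m := by ring
    rw [e2, e0, Nat.zero_add] at e1
    have e3 : (1 + δ) ^ m * x m ≤ T * x m := by linarith
    exact le_of_mul_le_mul_right e3 hxm
  refine ⟨?_, hT⟩
  by_contra hlt
  have hT1 : (1 : ℝ) < T := lt_of_lt_of_le (one_lt_pow₀ h1 (by omega)) hT
  have hT1' : (1 : ℤ) < T := by exact_mod_cast hT1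
  have hT2 : T = 2 := by omega
  have hT2r : (T : ℝ) = 2 := by rw [hT2]; norm_num
  have hmm : m < m1 := by
    by_contra hcon
    have : (1 + δ) ^ m1 ≤ (1 + δ) ^ m := pow_le_pow_right₀ h1.le (by omega)
    linarith
  have key : ∀ j : ℕ, (j + 1) * m ≤ N → x ((j + 1) * m) = x (j * m) + (x m - x 0) := by
    intro j
    induction j with
    | zero => intro _; simp
    | succ j ih =>
      intro hj
      have hj1 : (j + 1) * m ≤ N := le_trans (Nat.mul_le_mul_right m (by omega)) hj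
      have e := hrec (j * m) (by
        have : (j + 1 + 1) * m = j * m + 2 * m := by ring
        omega)
      have e4 : (j + 1 + 1) * m = j * m + 2 * m := by ring
      have e5 : (j + 1) * m = j * m + m := by ring
      have e6 := ih hj1
      rw [e4, e, e5, hT2r]
      rw [e5] at e6
      linarith
  have key2 : ∀ j : ℕ, (j + 1) * m ≤ N → x ((j + 1) * m) ≤ ((j : ℝ) + 1) * x m := by
    intro j
    induction j with
    | zero => intro _; simp
    | succ j ih =>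
      intro hj
      have hj1 : (j + 1) * m ≤ N := le_trans (Nat.mul_le_mul_right m (by omega)) hj
      have e := key (j + 1) hj
      have e6 := ih hj1
      rw [e]
      push_cast
      linarith
  have hN : (j0 + 1) * m ≤ N :=
    le_trans (Nat.mul_le_mul_left _ hmm.le) hK
  have f1 := key2 j0 hN
  have f2 := grW_growth hδ hg m (j0 * m)
  have f3 : m + j0 * m = (j0 + 1) * m := by ring
  rw [f3] at f2
  have f4 : (1 + δ) ^ (j0 * m) ≤ (j0 : ℝ) + 1 := by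
    have : (1 + δ) ^ (j0 * m) * x m ≤ ((j0 : ℝ) + 1) * x m := le_trans f2 f1
    exact le_of_mul_le_mul_right this hxm
  have f5 : (1 + δ) ^ j0 ≤ (1 + δ) ^ (j0 * m) :=
    pow_le_pow_right₀ h1.le (Nat.le_mul_of_pos_right j0 (by omega))
  linarith

end Pool.Agent.H95.LR
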