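import Pool.Agent.H95.LR.Van
import Pool.Agent.H95.LC.QuadAll

/-!
# Quadratic `α`: reciprocal relations, with a bound linear in the logarithm of the height
-/

set_option autoImplicit false

namespace Pool.Agent.H95.LR

open Finset
open Pool.Agent.H1.PC
open Pool.Agent.H18.LC
open Pool.Agent.H95.LC

lemma one_add_inv_pow (m : ℕ) (hm : 1 ≤ m) : (1 + 1 / (m : ℝ)) ^ m ≤ 3 := by
  have hm0 : (0 : ℝ) < m := by exact_mod_cast hm
  have h1 : 1 + 1 / (m : ℝ) ≤ Real.exp (1 / m) := by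
    have := Real.add_one_le_exp (1 / (m : ℝ))
    linarith
  have h2 : (1 + 1 / (m : ℝ)) ^ m ≤ Real.exp (1 / m) ^ m := pow_le_pow_left₀ (by positivity) h1 m
  rw [← Real.exp_nat_mul, mul_one_div_cancel hm0.ne'] at h2
  have := Real.exp_one_lt_d9
  linarith

/-- Division by a power of `X^2 - T X + 1`. -/
lemma poly_all_lin {α : ℝ} {R : ℕ → ℤ} {F : ℕ} (hF : ∀ k, |digit α R k| ≤ F)
    {k0 m : ℕ} (hm : 1 ≤ m) {T : ℤ} (hT3 : 3 ≤ T)
    {K1 : ℕ} (hK1 : ∀ (μ n w J : ℕ) (A : Polynomial ℤ) (σ : ℤ), (σ = 1 ∨ σ = -1) →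
      k0 + m ≤ n → A.natDegree ≤ J → l1 A ≤ 2 ^ μ →
      A.reflect J = Polynomial.C σ * A → ¬ G T ∣ A →
      (∀ i < w, op m A (digit α R) (n + i) = 0) → 2 * w < J * m + K1 * (μ + 1)) :
    ∃ K : ℕ, ∀ (μ n w J : ℕ) (A : Polynomial ℤ) (σ : ℤ), (σ = 1 ∨ σ = -1) →
      k0 + m ≤ n → A.natDegree ≤ J → l1 A ≤ 2 ^ μ →
      A.reflect J = Polynomial.C σ * A → A ≠ 0 →
      (∀ i < w, op m A (digit α R) (n + i) = 0) → 2 * w < J * m + K * (μ + 1) := by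
  have hm0 : (0 : ℝ) < m := by exact_mod_cast hm
  obtain ⟨K2, hK2⟩ := vanish (δ := 1 / (m : ℝ)) (by positivity) F
  have hTm : (1 + 1 / (m : ℝ)) ^ m ≤ (T : ℝ) := by
    have h1 : (3 : ℝ) ≤ T := by exact_mod_cast hT3
    exact (one_add_inv_pow m hm).trans h1
  refine ⟨K1 + 4 * K2 + 8 * m + 1, fun μ n w J A σ hσ hn hA hl1 hrcp hA0 hrl => ?_⟩
  obtain ⟨ν, B, rfl, hB⟩ := split_G T hA0
  have hB0 : B ≠ 0 := by rintro rfl; simp at hA0
  obtain ⟨h1, h2, h3⟩ := reflect_cofactor hA hB0 hrcp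
  have hν : ν ≤ μ := by
    have h4 := (two_pow_le hT3 ν hB0).trans hl1
    exact (Nat.pow_le_pow_iff_right (by norm_num : 1 < 2)).1 (by exact_mod_cast h4)
  have hlB := (l1_div_pow hT3 B ν).trans hl1
  have eK : (K1 + 4 * K2 + 8 * m + 1) * (μ + 1) =
      K1 * (μ + 1) + 4 * (K2 * (μ + 1)) + 8 * (μ * m) + 8 * m + (μ + 1) := by ring
  rcases Nat.eq_zero_or_pos ν with hν0 | hν0
  · subst hν0
    rw [pow_zero, one_mul] at hrl
    have hfin := hK1 μ n w J B σ hσ hn (by simpa using h2) hlB (by simpa using h3) hB hrl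
    omega
  obtain ⟨h, hh1, hh2, hv⟩ := hK2 μ m ν T hm hν0 hT3 hTm
  have hνm : ν * m ≤ μ * m := Nat.mul_le_mul_right _ hν
  have e1 : 3 * ν * m = 3 * (ν * m) := by ring
  have e2 : 2 * ν * m = 2 * (ν * m) := by ring
  have e3 : 2 * h * m = 2 * (h * m) := by ring
  rcases Nat.lt_or_ge (w + 2 * (ν * m)) (2 * (h * m)) with hlt | hge
  · omega
  have hwin : ∀ i < w + 2 * (ν * m) - 2 * (h * m), op m B (digit α R) (n + h * m + i) = 0 := by
    intro i hi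
    have hv' := hv (fun j i => op m (G T ^ j * B) (digit α R) (n + i)) w ?_ ?_ ?_ i
      (by rw [e2, e3]; omega)
    · simp only [pow_zero, one_mul] at hv'
      rw [show n + h * m + i = n + (i + h * m) by ring]
      exact hv'
    · intro j hj i
      refine (op_bound (F := (F : ℤ)) hF _).trans ?_
      apply mul_le_mul_of_nonneg_right _ (Int.natCast_nonneg F)
      have h4 := l1_div_pow hT3 (G T ^ j * B) (ν - j)
      rw [← mul_assoc, ← pow_add, show ν - j + j = ν by omega] at h4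
      exact h4.trans hl1
    · intro j hj i
      rw [pow_succ', mul_assoc, op_mul m (G T) (G T ^ j * B), op_G, smul_eq_mul]
      rw [show n + (i + 2 * m) = n + i + 2 * m by ring, show n + (i + m) = n + i + m by ring]
    · intro i hi
      exact hrl i hi
  have hfin := hK1 μ (n + h * m) _ (J - 2 * ν) B σ hσ (by omega) h2 hlB h3 hB hwin
  have e4 : (J - 2 * ν) * m ≤ J * m := Nat.mul_le_mul_right m (by omega)
  omega

theorem quad_lin {α : ℝ} (hα : Irrational α) {δ : ℝ} (hδ : 0 < δ)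
    (hbad : ∀ q : ℕ, 0 < q → ∀ p : ℤ, δ ≤ (q : ℝ) * |(q : ℝ) * α - p|)
    {β : ℝ} {R : ℕ → ℤ} {M : ℝ} (hM : ∀ k, |(den α k : ℝ) * β - R k| ≤ M)
    {F : ℕ} (hF : ∀ k, |digit α R k| ≤ F)
    {k0 m0 : ℕ} (hm0 : 1 ≤ m0) (hper : ∀ k, k0 ≤ k → pq α (k + m0) = pq α k)
    (hfail : ¬ ∀ ε : ℝ, 0 < ε → ∀ N : ℕ, ∃ q : ℕ, N ≤ q ∧ 0 < q ∧ ∃ p r : ℤ,
      (q : ℝ) * |(q : ℝ) * α - p| * |(q : ℝ) * β - r| < ε) :
    ∃ K : ℕ → ℕ, ∀ (n w L : ℕ) (a : ℕ → ℤ), (∃ j ≤ L, a j ≠ 0) →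
      (∀ i < w, (∀ j ≤ L, a j ≠ 0 → pq α (n + i + j + 1) = pq α (n + i + 1)) ∧
        ∑ j ∈ range (L + 1), a j * digit α R (n + i + j) = 0) →
      ∀ σ : ℤ, (σ = 1 ∨ σ = -1) → (∀ j ≤ L, a (L - j) = σ * a j) →
        (∀ s : ℕ, 1 ≤ s → s * (2 * w) < (s + 1) * L + K s) ∧
        ∀ μ : ℕ, ∑ j ∈ range (L + 1), |a j| ≤ 2 ^ μ → 2 * w < L + K 0 * (μ + 1) := by
  obtain ⟨m, hm, hperm, hmul⟩ := min_period' hm0 hper
  obtain ⟨T, hT⟩ := trace_exists (α := α) hperm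
  have hT3 := trace_ge hα hδ hbad hm hT
  set k1 := k0 + m with hk1
  -- proper relations
  have h1 : ∃ K1 : ℕ, ∀ (μ n w J : ℕ) (A : Polynomial ℤ) (σ : ℤ), (σ = 1 ∨ σ = -1) →
      k0 + m ≤ n → A.natDegree ≤ J → l1 A ≤ 2 ^ μ →
      A.reflect J = Polynomial.C σ * A → ¬ G T ∣ A →
      (∀ i < w, op m A (digit α R) (n + i) = 0) → 2 * w < J * m + K1 * (μ + 1) := by
    by_contra hcon
    push Not at hcon
    apply hfail
    apply poly_proper hα hδ hbad hM hm hperm hT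
    intro K
    obtain ⟨μ, n, w, J, A, σ, g1, g2, g3, g4, g5, g6, g7, g8⟩ := hcon K
    exact ⟨μ, n, w, J, A, σ, g1, g2, g8, g3, g4, g5, g6, g7⟩
  obtain ⟨K1, hK1⟩ := h1
  obtain ⟨K2, hK2⟩ := poly_all_lin (R := R) hF hm hT3 hK1
  have hK2' : ∀ (μ n w J : ℕ) (A : Polynomial ℤ) (σ : ℤ), (σ = 1 ∨ σ = -1) →
      k1 ≤ n → A.natDegree ≤ J → l1 A ≤ 2 ^ μ → A.reflect J = Polynomial.C σ * A → A ≠ 0 →
      (∀ i < w, op m A (digit α R) (n + i) = 0) → 2 * w < J * m + K2 * (μ + 1) ^ 2 := by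
    intro μ n w J A σ g1 g2 g3 g4 g5 g6 g7
    refine (hK2 μ n w J A σ g1 g2 g3 g4 g5 g6 g7).trans_le
      (Nat.add_le_add_left (Nat.mul_le_mul_left _ ?_) _)
    nlinarith
  have h3 : ∀ s : ℕ, ∃ K : ℕ, 1 ≤ s → ∀ (n w J : ℕ) (A : Polynomial ℤ) (σ : ℤ),
      (σ = 1 ∨ σ = -1) → k1 ≤ n → A.natDegree ≤ J → A.reflect J = Polynomial.C σ * A → A ≠ 0 →
      (∀ i < w, op m A (digit α R) (n + i) = 0) → s * (2 * w) < (s + 1) * (J * m) + K := by
    intro s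
    by_cases hs : 1 ≤ s
    · obtain ⟨K, hK⟩ := poly_free hF hm hK2' s hs
      exact ⟨K, fun _ => hK⟩
    · exact ⟨0, fun h => absurd h hs⟩
  choose K3 hK3 using h3
  refine ⟨fun s => K2 + K3 s + 2 * (s + 1) * (k1 + m) + 1, fun n w L a hne hrel σ hσ hrcp => ?_⟩
  -- short windows
  rcases Nat.lt_or_ge w (k1 + m) with hw | hw
  · have g1 : ∀ s : ℕ, s * (2 * w) ≤ 2 * (s + 1) * (k1 + m) := by
      intro s
      calc s * (2 * w) ≤ (s + 1) * (2 * (k1 + m)) := Nat.mul_le_mul (by omega) (by omega)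
        _ = _ := by ring
    refine ⟨fun s _ => ?_, fun μ _ => ?_⟩
    · have := g1 s
      have : s * (2 * w) < K2 + K3 s + 2 * (s + 1) * (k1 + m) + 1 := by omega
      exact this.trans_le (Nat.le_add_left _ _)
    · have g2 : 2 * w < K2 + K3 0 + 2 * (0 + 1) * (k1 + m) + 1 := by omega
      calc 2 * w < K2 + K3 0 + 2 * (0 + 1) * (k1 + m) + 1 := g2
        _ ≤ (K2 + K3 0 + 2 * (0 + 1) * (k1 + m) + 1) * (μ + 1) :=
            Nat.le_mul_of_pos_right _ (by omega)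
        _ ≤ _ := Nat.le_add_left _ _
  -- long windows
  set w1 := w - k1 with hw1
  have hcomp : ∀ i < w1, ∀ j ≤ L, a j ≠ 0 → pq α (n + k1 + i + j + 1) = pq α (n + k1 + i + 1) := by
    intro i hi j hj ha
    have := (hrel (k1 + i) (by omega)).1 j hj ha
    rw [show n + k1 + i + j + 1 = n + (k1 + i) + j + 1 by ring,
      show n + k1 + i + 1 = n + (k1 + i) + 1 by ring]
    exact this
  have hdig : ∀ i < w1, ∑ j ∈ range (L + 1), a j * digit α R (n + k1 + i + j) = 0 := by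
    intro i hi
    have := (hrel (k1 + i) (by omega)).2
    rw [show n + k1 + i = n + (k1 + i) by ring]
    exact this
  have hdiv : ∀ j ≤ L, a j ≠ 0 → m ∣ j := by
    intro j hj ha
    obtain ⟨t, ht⟩ := hmul (n + k1 + 1) j w1 (by omega) (by omega) (fun i hi => by
      have := hcomp i hi j hj ha
      rw [show n + k1 + 1 + i = n + k1 + i + 1 by ring,
        show n + k1 + 1 + j + i = n + k1 + i + j + 1 by ring]
      exact this.symm)
    exact ⟨t, by rw [ht]; ring⟩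
  have hww : w = w1 + k1 := by omega
  obtain ⟨J, A, hJL, hA0, hAd, hAl, hArf, hAr⟩ := to_poly hm hσ hdiv hrcp hne hdig
  refine ⟨fun s hs => ?_, fun μ hμ => ?_⟩
  · have g := hK3 s hs (n + k1) w1 J A σ hσ (by omega) hAd hArf hA0 hAr
    rw [← hJL] at g
    have e1 : s * (2 * w) = s * (2 * w1) + 2 * (s * k1) := by rw [hww]; ring
    have e2 : 2 * (s + 1) * (k1 + m) = 2 * (s * k1) + 2 * k1 + 2 * (s * m) + 2 * m := by ring
    simp only []
    rw [e1, e2]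
    omega
  · have g := hK2 μ (n + k1) w1 J A σ hσ (by omega) hAd (by rw [hAl]; exact hμ) hArf hA0 hAr
    rw [← hJL] at g
    have g4 : 2 * k1 ≤ 2 * k1 * (μ + 1) := Nat.le_mul_of_pos_right _ (by omega)
    have e1 : (K2 + K3 0 + 2 * (0 + 1) * (k1 + m) + 1) * (μ + 1) =
        K2 * (μ + 1) + 2 * k1 * (μ + 1) + (K3 0 + 2 * m + 1) * (μ + 1) := by ring
    simp only []
    rw [e1]
    omega

end Pool.Agent.H95.LR
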