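import Pool.Agent.H95.LR.Def
import Pool.Agent.H95.LR.OpM
import Pool.Agent.H95.LR.Det

/-!
# Module NonB (about 90 lines): if B kills the reflected denominators, then G divides B

PROOF. If B = 0 trivial. X i = den(n+i), Y k = den(n+(w+1+Jm)-k), so Y k = X(w+1+Jm-k) for k ≤ w+1+Jm. Let
V k = Y(k+r) and i ∈ {1, 2}. op_mod with J' = natDegree B (instead of J): for t + 2 ≤ natDegree B put
k = i + tm + r ≥ 1; k + 2m = i + (t+2) m + r ≤ 2 + natDegree B * m + r ≤ 2 + Jm ≤ w+1+Jm. op_G: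
op m (G T) V (i+tm) = Y(k+2m) - T Y(k+m) + Y(k), and with i' = w+1+Jm-k-2m: i' + 2m = w+1+Jm-k ≤ w + Jm, so htr
(x = X cast to ℝ, den_rec) gives X(i'+2m) = T X(i'+m) - X(i'), i.e. Y(k) = T Y(k+m) - Y(k+2m): the term is 0.
So 0 = ρ1 V(i+m) + ρ0 V(i), ρ = B %ₘ G T, for i = 1, 2. Put a = w+1+Jm-(2+r+m) (2+r+m ≤ w+1+Jm as r < m,
2m + 1 ≤ w): V(1+m) = X(a+1), V(2+m) = X(a), V(1) = X(a+1+m), V(2) = X(a+m). The determinant
vectors are independent by zero_B (a = i + m), so ρ1 = ρ0 = 0: G T ∣ B (dvd_of_rem).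
-/

set_option autoImplicit false

namespace Pool.Agent.H95.LR

open Polynomial Finset
open Pool.Agent.H1.PC
open Pool.Agent.H18.LC
open Pool.Agent.H95.LC (op G l1)

lemma dvd_B {α : ℝ} (hα : Irrational α) {n w J m r : ℕ} {T : ℤ} {B : ℤ[X]} (hm : 1 ≤ m)
    (hr : r < m) (hw : 2 * m + 1 ≤ w) (hT : 3 ≤ T)
    (htr : ∀ x : ℕ → ℝ, (∀ i < w + J * m, x (i + 2) = pq α (n + i + 1) * x (i + 1) - x i) →
      ∀ i, i + 2 * m ≤ w + J * m → x (i + 2 * m) = T * x (i + m) - x i)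
    (hB : B = 0 ∨ B.natDegree * m + r ≤ J * m)
    (hz : ∀ i, 1 ≤ i → i ≤ 2 →
      op m B (fun k => den α (n + (w + 1 + J * m) - (k + r))) i = 0) : G T ∣ B := by
  rcases hB with hB | hB
  · rw [hB]
    exact dvd_zero _
  have hX : ∀ i, i + 2 * m ≤ w + J * m →
      den α (n + (i + 2 * m)) = T * den α (n + (i + m)) - den α (n + i) := by
    intro i hi
    have h1 := htr (fun i => (den α (n + i) : ℝ)) (fun i _ => den_rec (α := α) (n + i)) i hi
    exact_mod_cast h1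
  set V : ℕ → ℤ := fun k => den α (n + (w + 1 + J * m) - (k + r)) with hV
  have hV' : ∀ k b, b + k + r = w + 1 + J * m → V k = den α (n + b) := by
    intro k b h
    rw [hV]
    simp only
    congr 1
    omega
  have hop : ∀ i, 1 ≤ i → i ≤ 2 → ∀ t, t + 2 ≤ B.natDegree → op m (G T) V (i + t * m) = 0 := by
    intro i h1 h2 t ht
    rw [Pool.Agent.H95.LC.op_G]
    have h3 : (t + 2) * m ≤ B.natDegree * m := Nat.mul_le_mul_right _ ht
    have h4 : (t + 2) * m = t * m + 2 * m := by ring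
    obtain ⟨b, hb⟩ : ∃ b, b + (i + t * m + 2 * m) + r = w + 1 + J * m :=
      ⟨w + 1 + J * m - (i + t * m + 2 * m + r), by omega⟩
    rw [hV' (i + t * m + 2 * m) b hb, hV' (i + t * m + m) (b + m) (by omega),
      hV' (i + t * m) (b + 2 * m) (by omega), hX b (by omega), zsmul_eq_mul]
    simp
  have heq : ∀ i, 1 ≤ i → i ≤ 2 →
      (B %ₘ G T).coeff 1 * V (i + m) + (B %ₘ G T).coeff 0 * V i = 0 := by
    intro i h1 h2
    have h3 := op_mod (M := ℤ) (m := m) (J := B.natDegree) (T := T) (A := B) le_rfl (X := V)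
      (i := i) (hop i h1 h2)
    rw [hz i h1 h2] at h3
    simpa only [smul_eq_mul] using h3.symm
  obtain ⟨a, ha⟩ : ∃ a, a + (2 + m) + r = w + 1 + J * m :=
    ⟨w + 1 + J * m - (2 + m + r), by omega⟩
  have e1 := heq 1 le_rfl (by omega)
  have e2 := heq 2 (by omega) le_rfl
  rw [hV' (1 + m) (a + 1) (by omega), hV' 1 (a + 1 + m) (by omega)] at e1
  rw [hV' (2 + m) a ha, hV' 2 (a + m) (by omega)] at e2
  have hrJ : r ≤ J * m := le_trans (Nat.le_add_left _ _) hB
  obtain ⟨i, hi⟩ : ∃ i, a = i + m := ⟨a - m, by omega⟩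
  subst hi
  have g1 : i + m + 1 = i + 1 + m := by ring
  have g2 : i + 1 + m + m = i + 1 + 2 * m := by ring
  have g3 : i + m + m = i + 2 * m := by ring
  rw [g1, g2] at e1
  rw [g3] at e2
  have hth : ∀ k, i ≤ k → k ≤ i + 1 →
      th α (n + (k + 2 * m)) = T * th α (n + (k + m)) - th α (n + k) := by
    intro k _ hk2
    exact htr (fun i => th α (n + i)) (fun i _ => th_rec (α := α) (n + i)) k (by omega)
  have hXr : ∀ k, i ≤ k → k ≤ i + 1 →
      (den α (n + (k + 2 * m)) : ℝ) = T * den α (n + (k + m)) - den α (n + k) := by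
    intro k _ hk2
    exact_mod_cast hX k (by omega)
  obtain ⟨h0, h1⟩ := zero_B (α := α) (n := n) (m := m) (i := i) hT hXr hth
    (x := (B %ₘ G T).coeff 0) (y := (B %ₘ G T).coeff 1)
    (by linarith) (by linarith)
  exact dvd_of_rem h0 h1

end Pool.Agent.H95.LR
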