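import Pool.Agent.H95.LR.NonA
import Pool.Agent.H95.LR.NonB

/-!
# The pair operator does not kill the denominators unless G divides both
-/

set_option autoImplicit false

namespace Pool.Agent.H95.LR

open Polynomial Finset
open Pool.Agent.H1.PC
open Pool.Agent.H18.LC
open Pool.Agent.H95.LC (op G l1)

lemma pair_nonzero {α : ℝ} (hα : Irrational α) {δ : ℝ} (hδ : 0 < δ)
    (hbad : ∀ q : ℕ, 0 < q → ∀ p : ℤ, δ ≤ (q : ℝ) * |(q : ℝ) * α - p|) :
    ∃ K : ℕ, ∀ (μ n w J m r : ℕ) (T : ℤ) (A B : ℤ[X]), 1 ≤ m → r < m → 1 ≤ J → 3 ≤ T →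
      (∀ x : ℕ → ℝ, (∀ i < w + J * m, x (i + 2) = pq α (n + i + 1) * x (i + 1) - x i) →
        ∀ i, i + 2 * m ≤ w + J * m → x (i + 2 * m) = T * x (i + m) - x i) →
      A.natDegree ≤ J → (B = 0 ∨ B.natDegree * m + r ≤ J * m) → l1 A + l1 B ≤ 2 ^ μ →
      J * m + m + K * (μ + 1) ≤ w → ¬ (G T ∣ A ∧ G T ∣ B) →
      ∃ i ≤ w + 1, pr m r A B (fun k => den α (n + k))
        (fun k => den α (n + (w + 1 + J * m) - k)) i ≠ 0 := by
  obtain ⟨K, hK⟩ := dvd_A hα hδ hbad
  refine ⟨K + 1, fun μ n w J m r T A B hm hr hJ hT htr hA hB hl hw hG => ?_⟩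
  by_contra hcon
  push Not at hcon
  have e1 : (K + 1) * (μ + 1) = K * (μ + 1) + μ + 1 := by ring
  have e2 : m ≤ J * m := Nat.le_mul_of_pos_left _ (by omega)
  have hGA : G T ∣ A := hK μ n w J m r T A B hm hJ hT htr hA hl (by omega)
    (fun i hi => hcon i (by omega))
  apply hG
  refine ⟨hGA, dvd_B hα hm hr (by omega) hT htr hB (fun i hi1 hi2 => ?_)⟩
  have h1 := hcon i (by omega)
  have h2 : op m A (fun k => den α (n + k)) i = 0 := by
    obtain ⟨g, rfl⟩ := hGA
    rw [mul_comm, Pool.Agent.H95.LC.op_mul]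
    by_cases hg : g = 0
    · subst hg; simp [op]
    · have hdeg : (G T * g).natDegree = 2 + g.natDegree := by
        rw [Polynomial.natDegree_mul (Pool.Agent.H95.LC.G_monic T).ne_zero hg,
          Pool.Agent.H95.LC.G_natDegree]
      rw [Pool.Agent.H95.LC.op_apply (J := g.natDegree) le_rfl]
      apply Finset.sum_eq_zero
      intro t ht
      have ht' : t ≤ g.natDegree := by have := Finset.mem_range.1 ht; omega
      have h3 : (t + 2) * m ≤ J * m := Nat.mul_le_mul_right _ (by omega)
      have e3 : (t + 2) * m = t * m + 2 * m := by ring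
      have h4 := htr (fun k => (den α (n + k) : ℝ)) (fun k _ => by
        have := den_rec (α := α) (n + k)
        rw [show n + (k + 2) = n + k + 2 by ring, show n + (k + 1) = n + k + 1 by ring]
        exact this) (i + t * m) (by omega)
      have h5 : op m (G T) (fun k => den α (n + k)) (i + t * m) = 0 := by
        rw [Pool.Agent.H95.LC.op_G]
        simp only [smul_eq_mul]
        have h6 : den α (n + (i + t * m + 2 * m)) = T * den α (n + (i + t * m + m)) -
            den α (n + (i + t * m)) := by exact_mod_cast h4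
        rw [h6]; ring
      rw [h5, smul_zero]
  unfold pr at h1
  rw [h2, zero_add] at h1
  exact h1

end Pool.Agent.H95.LR
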