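import Pool.Agent.H95.LR.Def
import Pool.Agent.H95.LR.OpM

/-!
# Module NonA (about 170 lines): if the pair kills the denominators, then G divides A

PROOF. X i = den(n+i), Y k = den(n+(w+1+Jm)-k), ξ i = th(n+i) (real, positive, decreasing), P = 2^μ,
ρ1, ρ0 = coefficients 1, 0 of A %ₘ G T. F i = op m A X i (integers).
(1) For i ≤ w: F i = ρ1 X(i+m) + ρ0 X(i), by op_mod: op m (G T) X (i+tm) = X(i+tm+2m) - T X(i+tm+m) + X(i+tm)
(op_G) is 0 for t + 2 ≤ J: apply htr to x = (X cast to ℝ) (recurrence den_rec at n + i) at the index i + tm,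
i + tm + 2m ≤ w + Jm; cast back. (2) In the same way, over ℝ with ξ (th_rec), at i = 0:
op m A ξ 0 = ρ1 ξ(m) + ρ0 ξ(0); and |op m A ξ 0| ≤ l1 A * ξ 0 (op_apply, triangle inequality, th antitone).
(3) For i ≤ w: F i = - op m B (Y(.+r)) i by hz, so |F i| ≤ l1 B * den(n+(w+1+Jm)-i) (den nonnegative, monotone).
So |F w| ≤ l1 B * X(Jm+1) ≤ l1 B * X w (w ≥ Jm+1) and |F(w-m)| ≤ P X(Jm+1+m) (w ≥ m).
(4) X(w+m) = T X(w) - X(w-m) ≥ 2 X(w) (htr at w - m: w + m ≤ w + Jm since J ≥ 1; X(w-m) ≤ X(w); T ≥ 3). From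
ρ1 (ξ0 X(w+m) - ξ(m) X(w)) = F(w) ξ0 - (ρ1 ξ(m) + ρ0 ξ0) X(w) and ξ0 X(w+m) - ξ(m) X(w) ≥ ξ0 X(w) > 0:
|ρ1| ξ0 X(w) ≤ (l1 B + l1 A) ξ0 X(w) ≤ P ξ0 X(w), so |ρ1| ≤ P. Then |ρ0| ξ0 ≤ l1 A ξ0 + |ρ1| ξ(m) ≤ 2 P ξ0, so
|ρ0| ≤ 2P. (5) Nm = ρ1^2 + T ρ0 ρ1 + ρ0^2. Nm X(w+m) = (ρ1 + T ρ0) F(w) - ρ0 F(w-m) (use X(w-m) = T X(w) - X(w+m)).
If Nm ≠ 0: X(w+m) ≤ |Nm| X(w+m) ≤ (P + 2TP) P X(Jm+1) + 2P P X(Jm+1+m). Also T X(Jm+1) = X(Jm+1+m) + X(Jm+1-m)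
≤ 2 X(Jm+1+m) (htr at Jm+1-m, as J ≥ 1, w ≥ m+1). So X(w+m) ≤ 7 P^2 X(Jm+1+m). But
X(w+m) ≥ (1+δ)^(w-Jm-1) X(Jm+1+m) (den_growth, w + m = (Jm+1+m) + (w-Jm-1)), X(Jm+1+m) > 0 and
w - Jm - 1 ≥ K(μ+1) (m ≥ 1), (1+δ)^(K(μ+1)) ≥ 8^(μ+1) > 7 * 4^μ if K is chosen with (1+δ)^K ≥ 8. Contradiction.
So Nm = 0, ρ0 = ρ1 = 0 (norm_ne), G T ∣ A (dvd_of_rem).
Facts about den, th: Pool/Agent/H1/PC/PalindromicCoding.lean (den_inc, det, th_pos, th_lt, th_rec, step_facts,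
den_growth) and Pool/Agent/H18/LC/Window.lean (den_rec, den_mono, den_cast_mono, th_anti, th_nonneg).
-/

set_option autoImplicit false

namespace Pool.Agent.H95.LR

open Polynomial Finset
open Pool.Agent.H1.PC
open Pool.Agent.H18.LC
open Pool.Agent.H95.LC (op G l1)

private lemma NonA_ar {P a b T ρ0 ρ1 X0 Xp Xm Y0 Yp Ym ξ0 ξm E Fw Fm : ℝ} (ha : 0 ≤ a) (hb : 0 ≤ b)
    (hab : a + b ≤ P) (hT : 3 ≤ T) (hXp : Xp = T * X0 - Xm) (hXm : Xm ≤ X0) (hX0 : 0 < X0)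
    (hY : Y0 ≤ X0) (hY0 : 0 ≤ Y0) (hYp : Yp = T * Y0 - Ym) (hYm : Ym ≤ Yp) (hξ0 : 0 < ξ0)
    (hξm0 : 0 ≤ ξm) (hξm : ξm ≤ ξ0) (hFw : |Fw| ≤ b * Y0) (hFm : |Fm| ≤ b * Yp)
    (hE : |E| ≤ a * ξ0) (eFw : Fw = ρ1 * Xp + ρ0 * X0) (eFm : Fm = ρ1 * X0 + ρ0 * Xm)
    (eE : E = ρ1 * ξm + ρ0 * ξ0) :
    |ρ1 ^ 2 + T * ρ0 * ρ1 + ρ0 ^ 2| * Xp ≤ 7 * P ^ 2 * Yp := by
  have hP : 0 ≤ P := by linarith
  have hXp2 : 2 * X0 ≤ Xp := by nlinarith
  have hXp0 : 0 < Xp := by linarith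
  have hD : ξ0 * X0 ≤ ξ0 * Xp - ξm * X0 := by nlinarith
  -- the bound of ρ1
  have e1 : ρ1 * (ξ0 * Xp - ξm * X0) = Fw * ξ0 - E * X0 := by
    rw [eFw, eE]; ring
  have h1 : |ρ1| * (ξ0 * X0) ≤ P * (ξ0 * X0) := by
    have h2 : |ρ1| * (ξ0 * X0) ≤ |ρ1| * (ξ0 * Xp - ξm * X0) :=
      mul_le_mul_of_nonneg_left hD (abs_nonneg _)
    have h3 : |ρ1| * (ξ0 * Xp - ξm * X0) = |Fw * ξ0 - E * X0| := by
      rw [← e1, abs_mul, abs_of_pos (lt_of_lt_of_le (mul_pos hξ0 hX0) hD)]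
    have h4 : |Fw * ξ0 - E * X0| ≤ |Fw| * ξ0 + |E| * X0 := by
      refine (abs_sub _ _).trans ?_
      rw [abs_mul, abs_mul, abs_of_pos hξ0, abs_of_pos hX0]
    have h5 : |Fw| * ξ0 ≤ b * X0 * ξ0 :=
      mul_le_mul_of_nonneg_right (hFw.trans (mul_le_mul_of_nonneg_left hY hb)) hξ0.le
    have h6 : |E| * X0 ≤ a * ξ0 * X0 := mul_le_mul_of_nonneg_right hE hX0.le
    have h7 : (a + b) * (ξ0 * X0) ≤ P * (ξ0 * X0) :=
      mul_le_mul_of_nonneg_right hab (mul_pos hξ0 hX0).le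
    linarith
  have hρ1 : |ρ1| ≤ P := le_of_mul_le_mul_right h1 (mul_pos hξ0 hX0)
  -- the bound of ρ0
  have hρ0 : |ρ0| ≤ 2 * P := by
    have e2 : ρ0 * ξ0 = E - ρ1 * ξm := by rw [eE]; ring
    have h2 : |ρ0| * ξ0 ≤ 2 * P * ξ0 := by
      have h3 : |ρ0| * ξ0 = |E - ρ1 * ξm| := by rw [← e2, abs_mul, abs_of_pos hξ0]
      have h4 : |E - ρ1 * ξm| ≤ |E| + |ρ1| * ξm := by
        refine (abs_sub _ _).trans ?_
        rw [abs_mul, abs_of_nonneg hξm0]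
      have h5 : |ρ1| * ξm ≤ P * ξ0 := mul_le_mul hρ1 hξm hξm0 hP
      have h6 : a * ξ0 ≤ P * ξ0 := mul_le_mul_of_nonneg_right (by linarith) hξ0.le
      linarith
    exact le_of_mul_le_mul_right h2 hξ0
  have hT0 : 0 ≤ T := by linarith
  have hTY : T * Y0 ≤ 2 * Yp := by linarith
  have hYp0 : 0 ≤ Yp := by nlinarith
  have hYY : Y0 ≤ Yp := by nlinarith
  have hbP : b ≤ P := by linarith
  have e3 : (ρ1 ^ 2 + T * ρ0 * ρ1 + ρ0 ^ 2) * Xp = (ρ1 + T * ρ0) * Fw - ρ0 * Fm := by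
    rw [eFw, eFm, hXp]; ring
  have h8 : |ρ1 ^ 2 + T * ρ0 * ρ1 + ρ0 ^ 2| * Xp = |(ρ1 + T * ρ0) * Fw - ρ0 * Fm| := by
    rw [← e3, abs_mul, abs_of_pos hXp0]
  rw [h8]
  have h9 : |(ρ1 + T * ρ0) * Fw - ρ0 * Fm| ≤ (|ρ1| + T * |ρ0|) * |Fw| + |ρ0| * |Fm| := by
    refine (abs_sub _ _).trans ?_
    rw [abs_mul, abs_mul]
    have h10 : |ρ1 + T * ρ0| ≤ |ρ1| + T * |ρ0| := by
      refine (abs_add_le _ _).trans ?_
      rw [abs_mul, abs_of_nonneg hT0]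
    have := mul_le_mul_of_nonneg_right h10 (abs_nonneg Fw)
    linarith
  refine h9.trans ?_
  have hFw' : |Fw| ≤ P * Y0 := hFw.trans (mul_le_mul_of_nonneg_right hbP hY0)
  have hFm' : |Fm| ≤ P * Yp := hFm.trans (mul_le_mul_of_nonneg_right hbP hYp0)
  have k1 : (|ρ1| + T * |ρ0|) * |Fw| ≤ (P + T * (2 * P)) * (P * Y0) :=
    mul_le_mul (add_le_add hρ1 (mul_le_mul_of_nonneg_left hρ0 hT0)) hFw' (abs_nonneg _)
      (by positivity)
  have k2 : |ρ0| * |Fm| ≤ 2 * P * (P * Yp) := mul_le_mul hρ0 hFm' (abs_nonneg _) (by positivity)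
  have hPP : 0 ≤ P ^ 2 := sq_nonneg P
  have k3 : P ^ 2 * Y0 ≤ P ^ 2 * Yp := mul_le_mul_of_nonneg_left hYY hPP
  have k4 : P ^ 2 * (T * Y0) ≤ P ^ 2 * (2 * Yp) := mul_le_mul_of_nonneg_left hTY hPP
  have e4 : (P + T * (2 * P)) * (P * Y0) = P ^ 2 * Y0 + 2 * (P ^ 2 * (T * Y0)) := by ring
  have e5 : 2 * P * (P * Yp) = 2 * (P ^ 2 * Yp) := by ring
  rw [e4] at k1
  rw [e5] at k2
  linarith

private lemma NonA_op {m : ℕ} {A : ℤ[X]} {y : ℕ → ℝ} {c : ℝ} {i : ℕ}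
    (hy : ∀ t, |y (i + t * m)| ≤ c) : |op m A y i| ≤ (l1 A : ℝ) * c := by
  rw [Pool.Agent.H95.LC.op_apply (le_refl A.natDegree)]
  refine (Finset.abs_sum_le_sum_abs _ _).trans ?_
  unfold l1
  push_cast
  rw [Finset.sum_mul]
  refine Finset.sum_le_sum fun t _ => ?_
  rw [zsmul_eq_mul, abs_mul]
  exact mul_le_mul_of_nonneg_left (hy t) (abs_nonneg _)

private lemma NonA_opZ {m : ℕ} {A : ℤ[X]} {y : ℕ → ℤ} {c : ℤ} {i : ℕ}
    (hy : ∀ t, |y (i + t * m)| ≤ c) : |op m A y i| ≤ l1 A * c := by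
  rw [Pool.Agent.H95.LC.op_apply (le_refl A.natDegree)]
  refine (Finset.abs_sum_le_sum_abs _ _).trans ?_
  unfold l1
  rw [Finset.sum_mul]
  refine Finset.sum_le_sum fun t _ => ?_
  rw [smul_eq_mul, abs_mul]
  exact mul_le_mul_of_nonneg_left (hy t) (abs_nonneg _)

lemma dvd_A {α : ℝ} (hα : Irrational α) {δ : ℝ} (hδ : 0 < δ)
    (hbad : ∀ q : ℕ, 0 < q → ∀ p : ℤ, δ ≤ (q : ℝ) * |(q : ℝ) * α - p|) :
    ∃ K : ℕ, ∀ (μ n w J m r : ℕ) (T : ℤ) (A B : ℤ[X]), 1 ≤ m → 1 ≤ J → 3 ≤ T →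
      (∀ x : ℕ → ℝ, (∀ i < w + J * m, x (i + 2) = pq α (n + i + 1) * x (i + 1) - x i) →
        ∀ i, i + 2 * m ≤ w + J * m → x (i + 2 * m) = T * x (i + m) - x i) →
      A.natDegree ≤ J → l1 A + l1 B ≤ 2 ^ μ → J * m + m + K * (μ + 1) ≤ w →
      (∀ i ≤ w, pr m r A B (fun k => den α (n + k))
        (fun k => den α (n + (w + 1 + J * m) - k)) i = 0) → G T ∣ A := by
  obtain ⟨K, hK⟩ := pow_unbounded_of_one_lt (8 : ℝ) (show (1 : ℝ) < 1 + δ by linarith)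
  refine ⟨K, fun μ n w J m r T A B hm hJ hT htr hA hl hw hz => ?_⟩
  have hJm : m ≤ J * m := Nat.le_mul_of_pos_left m hJ
  have hKw : J * m + m ≤ w := by
    have : 0 ≤ K * (μ + 1) := Nat.zero_le _
    omega
  -- the recurrences
  have hX : ∀ i, i + 2 * m ≤ w + J * m →
      (den α (n + (i + 2 * m)) : ℝ) = T * den α (n + (i + m)) - den α (n + i) :=
    htr (fun k => (den α (n + k) : ℝ)) fun i _ => den_rec (n + i)
  have hXZ : ∀ i, i + 2 * m ≤ w + J * m →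
      den α (n + (i + 2 * m)) = T * den α (n + (i + m)) - den α (n + i) := fun i hi => by
    exact_mod_cast hX i hi
  have hξ : ∀ i, i + 2 * m ≤ w + J * m →
      th α (n + (i + 2 * m)) = T * th α (n + (i + m)) - th α (n + i) :=
    htr (fun k => th α (n + k)) fun i _ => th_rec (n + i)
  have htm : ∀ {t i : ℕ}, t + 2 ≤ J → i ≤ w → i + t * m + 2 * m ≤ w + J * m := by
    intro t i ht hi
    have h : (t + 2) * m ≤ J * m := Nat.mul_le_mul_right m ht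
    have e : (t + 2) * m = t * m + 2 * m := by ring
    omega
  set ρ1 : ℤ := (A %ₘ G T).coeff 1 with hρ1
  set ρ0 : ℤ := (A %ₘ G T).coeff 0 with hρ0
  have hF : ∀ i ≤ w, op m A (fun k => den α (n + k)) i =
      ρ1 * den α (n + (i + m)) + ρ0 * den α (n + i) := by
    intro i hi
    have h := op_mod (m := m) (T := T) hA (X := fun k => den α (n + k)) (i := i) fun t ht => by
      rw [Pool.Agent.H95.LC.op_G]
      have := hXZ (i + t * m) (htm ht hi)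
      simp only [smul_eq_mul]
      linarith
    rw [h, smul_eq_mul, smul_eq_mul]
  have hE : op m A (fun k => th α (n + k)) 0 = ρ1 * th α (n + m) + ρ0 * th α n := by
    have h := op_mod (m := m) (T := T) hA (X := fun k => th α (n + k)) (i := 0) fun t ht => by
      rw [Pool.Agent.H95.LC.op_G]
      have := hξ (0 + t * m) (htm ht (Nat.zero_le w))
      simp only [zsmul_eq_mul]
      linarith
    rw [h, zsmul_eq_mul, zsmul_eq_mul, Nat.zero_add, Nat.add_zero]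
  -- the bounds of F
  have hFb : ∀ i ≤ w, |op m A (fun k => den α (n + k)) i| ≤
      l1 B * den α (n + (w + 1 + J * m) - i) := by
    intro i hi
    have h := hz i hi
    unfold pr at h
    have e : op m A (fun k => den α (n + k)) i =
        -op m B (fun k => den α (n + (w + 1 + J * m) - (k + r))) i := by linarith
    rw [e, abs_neg]
    refine NonA_opZ fun t => ?_
    rw [abs_of_nonneg (den_inc hα _).1]
    exact den_mono hα (by omega)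
  have hEb : |op m A (fun k => th α (n + k)) 0| ≤ (l1 A : ℝ) * th α n := by
    refine NonA_op fun t => ?_
    rw [abs_of_nonneg (th_nonneg hα _)]
    exact th_anti hα (by omega)
  have b1 := hFb w le_rfl
  have b2 := hFb (w - m) (by omega)
  have x1 : n + (w + 1 + J * m) - w = n + (J * m + 1) := by omega
  have x2 : n + (w + 1 + J * m) - (w - m) = n + (J * m + 1 + m) := by omega
  rw [x1] at b1
  rw [x2] at b2
  have f1 := hF w le_rfl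
  have f2 := hF (w - m) (by omega)
  have x3 : w - m + m = w := by omega
  rw [x3] at f2
  have r1 := hX (w - m) (by omega)
  have x4 : w - m + 2 * m = w + m := by omega
  rw [x4, x3] at r1
  have r2 := hX (J * m + 1 - m) (by omega)
  have x5 : J * m + 1 - m + 2 * m = J * m + 1 + m := by omega
  have x6 : J * m + 1 - m + m = J * m + 1 := by omega
  rw [x5, x6] at r2
  have hlR : ((l1 A : ℤ) : ℝ) + (l1 B : ℤ) ≤ 2 ^ μ := by exact_mod_cast hl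
  have hfin := NonA_ar (P := 2 ^ μ) (a := (l1 A : ℝ)) (b := (l1 B : ℝ)) (T := (T : ℝ))
    (ρ0 := (ρ0 : ℝ)) (ρ1 := (ρ1 : ℝ)) (X0 := (den α (n + w) : ℝ)) (Xp := (den α (n + (w + m)) : ℝ))
    (Xm := (den α (n + (w - m)) : ℝ)) (Y0 := (den α (n + (J * m + 1)) : ℝ))
    (Yp := (den α (n + (J * m + 1 + m)) : ℝ)) (Ym := (den α (n + (J * m + 1 - m)) : ℝ))
    (ξ0 := th α n) (ξm := th α (n + m)) (E := op m A (fun k => th α (n + k)) 0)
    (Fw := ((op m A (fun k => den α (n + k)) w : ℤ) : ℝ))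
    (Fm := ((op m A (fun k => den α (n + k)) (w - m) : ℤ) : ℝ))
    (by exact_mod_cast Pool.Agent.H95.LC.l1_nonneg A)
    (by exact_mod_cast Pool.Agent.H95.LC.l1_nonneg B) hlR (by exact_mod_cast hT) r1
    (den_cast_mono hα (by omega))
    (by
      have h := den_ge hα (n + w)
      have h2 : (0 : ℤ) < den α (n + w) := by
        have h3 : (1 : ℤ) ≤ ((n + w : ℕ) : ℤ) := by
          have : 1 ≤ n + w := by omega
          exact_mod_cast this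
        linarith
      exact_mod_cast h2)
    (den_cast_mono hα (by omega)) (den_cast_nonneg hα _) r2 (den_cast_mono hα (by omega))
    (th_pos hα n).1 (th_nonneg hα _) (th_anti hα (by omega)) (by exact_mod_cast b1)
    (by exact_mod_cast b2) hEb (by rw [f1]; push_cast; ring) (by rw [f2]; push_cast; ring) hE
  -- the norm vanishes
  have hNm : ρ1 ^ 2 + T * ρ0 * ρ1 + ρ0 ^ 2 = 0 := by
    by_contra hne
    have hN1 : (1 : ℝ) ≤ |((ρ1 : ℝ) ^ 2 + T * ρ0 * ρ1 + (ρ0 : ℝ) ^ 2)| := by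
      have h : (1 : ℤ) ≤ |ρ1 ^ 2 + T * ρ0 * ρ1 + ρ0 ^ 2| := Int.one_le_abs hne
      have h2 : ((1 : ℤ) : ℝ) ≤ ((|ρ1 ^ 2 + T * ρ0 * ρ1 + ρ0 ^ 2| : ℤ) : ℝ) := by exact_mod_cast h
      push_cast at h2
      exact h2
    have hXp0 : (0 : ℝ) ≤ den α (n + (w + m)) := den_cast_nonneg hα _
    have h1 : (den α (n + (w + m)) : ℝ) ≤ 7 * (2 ^ μ) ^ 2 * den α (n + (J * m + 1 + m)) := by
      refine le_trans ?_ hfin
      calc (den α (n + (w + m)) : ℝ) = 1 * den α (n + (w + m)) := (one_mul _).symm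
        _ ≤ _ := mul_le_mul_of_nonneg_right hN1 hXp0
    have hg := den_growth hα hδ hbad (n + (J * m + 1 + m)) (w - (J * m + 1))
    have x7 : n + (J * m + 1 + m) + (w - (J * m + 1)) = n + (w + m) := by omega
    rw [x7] at hg
    have hYp : (0 : ℝ) < den α (n + (J * m + 1 + m)) := by
      have h := den_ge hα (n + (J * m + 1 + m))
      have h2 : (0 : ℤ) < den α (n + (J * m + 1 + m)) := by
        have h3 : (1 : ℤ) ≤ ((n + (J * m + 1 + m) : ℕ) : ℤ) := by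
          have : 1 ≤ n + (J * m + 1 + m) := by omega
          exact_mod_cast this
        linarith
      exact_mod_cast h2
    have h2 : (8 : ℝ) ^ (μ + 1) ≤ (1 + δ) ^ (w - (J * m + 1)) := by
      calc (8 : ℝ) ^ (μ + 1) ≤ ((1 + δ) ^ K) ^ (μ + 1) :=
            pow_le_pow_left₀ (by norm_num) hK.le _
        _ = (1 + δ) ^ (K * (μ + 1)) := (pow_mul _ _ _).symm
        _ ≤ (1 + δ) ^ (w - (J * m + 1)) :=
            pow_le_pow_right₀ (by linarith) (by omega)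
    have h3 : (7 : ℝ) * (2 ^ μ) ^ 2 < 8 ^ (μ + 1) := by
      have e1 : ((2 : ℝ) ^ μ) ^ 2 = 4 ^ μ := by
        rw [← pow_mul, mul_comm μ 2, pow_mul]; norm_num
      have e2 : (4 : ℝ) ^ μ ≤ 8 ^ μ := pow_le_pow_left₀ (by norm_num) (by norm_num) _
      have e3 : (0 : ℝ) < 8 ^ μ := by positivity
      rw [e1, pow_succ]
      linarith
    have h4 : 8 ^ (μ + 1) * (den α (n + (J * m + 1 + m)) : ℝ) ≤
        7 * (2 ^ μ) ^ 2 * den α (n + (J * m + 1 + m)) :=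
      (mul_le_mul_of_nonneg_right h2 hYp.le).trans (hg.trans h1)
    have h5 := le_of_mul_le_mul_right h4 hYp
    linarith
  obtain ⟨h0, h1⟩ := norm_ne hT hNm
  exact dvd_of_rem h0 h1

end Pool.Agent.H95.LR
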