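import Pool.Agent.H95.LR.Def

/-!
# Module RepA (about 50 lines): the pair operator is linear over polynomials

PROOFS. `op m A y = (aeval (sh M m) A) y` is a linear map applied to `y` (see Pool.Agent.H95.LC.Op:
op_mul, op_add, op_G, op_bound, op_apply). `pr_mul`: op m (C*A) X = op m C (op m A X) by op_mul, the same
for `B`, and `op m C (f + g) = op m C f + op m C g` because `op m C` is a linear map (unfold op, map_add).
`pr m r A B X Y` as a function is `op m A X + op m B (fun k => Y (k + r))` (funext, rfl). `pr_G`: op_mul, op_G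
for both, then abel. `pr_bound`: op_bound twice and the triangle inequality.
-/

set_option autoImplicit false

namespace Pool.Agent.H95.LR

open Polynomial Finset
open Pool.Agent.H1.PC
open Pool.Agent.H95.LC (op G l1)

private lemma RepA_eq {M : Type*} [AddCommGroup M] (m r : ℕ) (A B : ℤ[X]) (X Y : ℕ → M) :
    pr m r A B X Y = op m A X + op m B (fun k => Y (k + r)) := rfl

private lemma RepA_op_add {M : Type*} [AddCommGroup M] (m : ℕ) (A : ℤ[X]) (f g : ℕ → M) :
    op m A (f + g) = op m A f + op m A g := by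
  unfold op
  rw [map_add]

lemma pr_mul {M : Type*} [AddCommGroup M] (m r : ℕ) (C A B : ℤ[X]) (X Y : ℕ → M) :
    pr m r (C * A) (C * B) X Y = op m C (pr m r A B X Y) := by
  rw [RepA_eq, RepA_eq, RepA_op_add, Pool.Agent.H95.LC.op_mul, Pool.Agent.H95.LC.op_mul]

lemma pr_G {M : Type*} [AddCommGroup M] (m r : ℕ) (T : ℤ) (A B : ℤ[X]) (X Y : ℕ → M) (i : ℕ) :
    pr m r (G T * A) (G T * B) X Y i =
      pr m r A B X Y (i + 2 * m) - T • pr m r A B X Y (i + m) + pr m r A B X Y i := by
  rw [pr_mul, Pool.Agent.H95.LC.op_G]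

lemma pr_bound {m r : ℕ} {A B : ℤ[X]} {X Y : ℕ → ℤ} {F : ℤ} (hX : ∀ k, |X k| ≤ F)
    (hY : ∀ k, |Y k| ≤ F) (i : ℕ) : |pr m r A B X Y i| ≤ (l1 A + l1 B) * F := by
  unfold pr
  have h1 := Pool.Agent.H95.LC.op_bound (m := m) (A := A) hX i
  have h2 := Pool.Agent.H95.LC.op_bound (m := m) (A := B) (y := fun k => Y (k + r))
    (fun k => hY (k + r)) i
  have h3 := abs_add_le (op m A X i) (op m B (fun k => Y (k + r)) i)
  rw [add_mul]
  linarith

end Pool.Agent.H95.LR
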