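import Mathlib

/-!
# Module TrW (about 110 lines, only Mathlib): the trace of a period on a window

PROOF. For i ≤ N let the integers (A_i, B_i, C_i, D_i) describe m steps from i: there are integers with
A_i D_i - B_i C_i = 1 such that every x with x(k+2) = c_k x(k+1) - x(k) for i ≤ k < i + m has
x(i+m) = A_i x(i) + B_i x(i+1), x(i+m+1) = C_i x(i) + D_i x(i+1) (induction on the number of steps, exactly
the proof of `transfer` in Pool/Agent/H18/LC/Periodic.lean). They depend only on c_i, ..., c_(i+m-1).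
Let M = [[A_i, B_i], [C_i, D_i]], T_i = A_i + D_i. If i + 2m ≤ N then c_(i+k+m) = c_(i+k) for k < m, so the same
matrix goes from i + m to i + 2m and by Cayley-Hamilton (det = 1) x(i+2m) = T_i x(i+m) - x(i).
T_i does not depend on i: define the matrices by the explicit product M_i = P(c_(i+m-1)) ... P(c_i),
P(c) = [[0,1],[-1,c]] acting on (x(k), x(k+1)); if i + 1 + 2m ≤ N (more generally i + m < N) then
M_(i+1) P(c_i) = P(c_(i+m)) M_i and c_(i+m) = c_i, so M_(i+1) = P(c_i) M_i P(c_i)^(-1) and the traces agree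
(Matrix.trace_mul_comm). So T = T_0 works for all i with i + 2m ≤ N. If 2m > N nothing is to be shown
(take T = 0). Suggested: Mathlib matrices over ℤ, `M i : ℕ → Matrix (Fin 2) (Fin 2) ℤ` by recursion on the
number of steps: `stp c i 0 = 1`, `stp c i (k+1) = P (c (i+k)) * stp c i k`; facts: det = 1;
(x(i+k), x(i+k+1)) = stp c i k *ᵥ (x i, x (i+1)) (cast to ℝ); stp c (i+1) k * P (c i) = stp c i (k+1);
stp c (i+m) k = stp c i k if c agrees. Cayley-Hamilton for 2x2: M*M - tr M • M + det M • 1 = 0 (prove by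
ext + fin_cases + simp + ring, or use the entries).
-/

set_option autoImplicit false

namespace Pool.Agent.H95.LR

/-- one step -/
private def TrW_P (c : ℤ) : Matrix (Fin 2) (Fin 2) ℤ := !![0, 1; -1, c]

/-- `k` steps from `i` -/
private def TrW_stp (c : ℕ → ℤ) (i : ℕ) : ℕ → Matrix (Fin 2) (Fin 2) ℤ
  | 0 => 1
  | k + 1 => TrW_P (c (i + k)) * TrW_stp c i k

private lemma TrW_det (c : ℕ → ℤ) (i k : ℕ) : (TrW_stp c i k).det = 1 := by
  induction k with
  | zero => simp [TrW_stp]
  | succ k ih =>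
    rw [TrW_stp, Matrix.det_mul, ih, TrW_P, Matrix.det_fin_two_of]
    ring

private lemma TrW_left (c : ℕ → ℤ) (i k : ℕ) :
    TrW_stp c (i + 1) k * TrW_P (c i) = TrW_stp c i (k + 1) := by
  induction k with
  | zero => simp [TrW_stp]
  | succ k ih =>
    rw [TrW_stp, Matrix.mul_assoc, ih]
    conv_rhs => rw [TrW_stp]
    have h : i + 1 + k = i + (k + 1) := by ring
    rw [h]

private lemma TrW_trace (c : ℕ → ℤ) (i k : ℕ) (h : c (i + k) = c i) :
    (TrW_stp c (i + 1) k).trace = (TrW_stp c i k).trace := by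
  have h1 : TrW_P (c i) * !![c i, -1; 1, 0] = 1 := by
    rw [TrW_P, Matrix.mul_fin_two, Matrix.one_fin_two]
    congr 1
    ring_nf
  have h2 : !![c i, -1; 1, 0] * TrW_P (c i) = 1 := by
    rw [TrW_P, Matrix.mul_fin_two, Matrix.one_fin_two]
    congr 1
    ring_nf
  have h3 : TrW_stp c (i + 1) k * TrW_P (c i) = TrW_P (c i) * TrW_stp c i k := by
    rw [TrW_left, TrW_stp, h]
  calc (TrW_stp c (i + 1) k).trace
      = (TrW_stp c (i + 1) k * (TrW_P (c i) * !![c i, -1; 1, 0])).trace := by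
        rw [h1, Matrix.mul_one]
    _ = (TrW_P (c i) * TrW_stp c i k * !![c i, -1; 1, 0]).trace := by
        rw [← Matrix.mul_assoc, h3]
    _ = (!![c i, -1; 1, 0] * (TrW_P (c i) * TrW_stp c i k)).trace := Matrix.trace_mul_comm _ _
    _ = (TrW_stp c i k).trace := by rw [← Matrix.mul_assoc, h2, Matrix.one_mul]

private lemma TrW_congr (c : ℕ → ℤ) (i m k : ℕ) (h : ∀ j < k, c (i + m + j) = c (i + j)) :
    TrW_stp c (i + m) k = TrW_stp c i k := by
  induction k with
  | zero => rfl
  | succ k ih =>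
    rw [TrW_stp, TrW_stp, ih (fun j hj => h j (by omega)), h k (by omega)]

private lemma TrW_act (c : ℕ → ℤ) {N : ℕ} (x : ℕ → ℝ)
    (hx : ∀ i < N, x (i + 2) = c i * x (i + 1) - x i) (i k : ℕ) (hk : i + k ≤ N) :
    x (i + k) = (TrW_stp c i k 0 0 : ℝ) * x i + (TrW_stp c i k 0 1 : ℝ) * x (i + 1) ∧
      x (i + k + 1) = (TrW_stp c i k 1 0 : ℝ) * x i + (TrW_stp c i k 1 1 : ℝ) * x (i + 1) := by
  induction k with
  | zero => simp [TrW_stp]
  | succ k ih =>
    obtain ⟨h1, h2⟩ := ih (by omega)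
    have e : ∀ j : Fin 2, TrW_stp c i (k + 1) 0 j = TrW_stp c i k 1 j ∧
        TrW_stp c i (k + 1) 1 j = -TrW_stp c i k 0 j + c (i + k) * TrW_stp c i k 1 j := by
      intro j
      rw [TrW_stp, Matrix.mul_apply, Matrix.mul_apply, Fin.sum_univ_two, Fin.sum_univ_two, TrW_P]
      constructor
      · simp
      · simp
    have h3 := hx (i + k) (by omega)
    constructor
    · rw [(e 0).1, (e 1).1, ← add_assoc]
      exact h2
    · rw [(e 0).2, (e 1).2]
      have h4 : i + (k + 1) + 1 = i + k + 2 := by ring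
      rw [h4, h3, h1, h2]
      push_cast
      ring

lemma trace_window (c : ℕ → ℤ) {N m : ℕ} (hm : 1 ≤ m) (hper : ∀ i, i + m < N → c (i + m) = c i) :
    ∃ T : ℤ, ∀ x : ℕ → ℝ, (∀ i < N, x (i + 2) = c i * x (i + 1) - x i) →
      ∀ i, i + 2 * m ≤ N → x (i + 2 * m) = T * x (i + m) - x i := by
  refine ⟨(TrW_stp c 0 m).trace, fun x hx i hi => ?_⟩
  have htr : ∀ j, j + 2 * m ≤ N → (TrW_stp c j m).trace = (TrW_stp c 0 m).trace := by
    intro j
    induction j with
    | zero => intro _; rfl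
    | succ j ih =>
      intro hj
      rw [TrW_trace c j m (hper j (by omega)), ih (by omega)]
  rw [← htr i hi]
  have h1 := TrW_act c x hx i m (by omega)
  have h2 := (TrW_act c x hx (i + m) m (by omega)).1
  have h3 : TrW_stp c (i + m) m = TrW_stp c i m := by
    refine TrW_congr c i m m fun j hj => ?_
    have h4 := hper (i + j) (by omega)
    rw [← h4]
    congr 1
    ring
  have hdet := TrW_det c i m
  rw [Matrix.det_fin_two] at hdet
  have hdetR : (TrW_stp c i m 0 0 : ℝ) * (TrW_stp c i m 1 1 : ℝ) -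
      (TrW_stp c i m 0 1 : ℝ) * (TrW_stp c i m 1 0 : ℝ) = 1 := by exact_mod_cast hdet
  rw [h3] at h2
  have h5 : i + 2 * m = i + m + m := by ring
  rw [h5, h2, Matrix.trace_fin_two]
  push_cast
  obtain ⟨h6, h7⟩ := h1
  linear_combination (TrW_stp c i m 0 1 : ℝ) * h7 - (TrW_stp c i m 1 1 : ℝ) * h6 - x i * hdetR

end Pool.Agent.H95.LR
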