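import Pool.Agent.H95.LR.Bar

/-!
# Module Van (about 110 lines): integer sequences killed by (x^2 - T x + 1)^ν vanish in the middle

PROOFS. `choose_h`. Let E0 be such that (1+δ)^E0 > 2 * (F + 1) and E1 such that (1+δ)^E1 > 2 (so
(1+δ)^(E0 + E1 μ) > 2 * 2^μ * F). E = E0 + E1 μ + 1 ≥ 1, q = (E + m - 1) / m = ceil (E/m): q ≥ 1, q m ≥ E, q m ≤ E + m - 1
(if m ≥ 1). h = 2 (ν - 1) + 3 q. Then 2ν + 1 ≤ h; h m = 2(ν-1)m + 3 q m ≤ 2νm - 2m + 3E + 3m ≤ 3νm + 3E (ν ≥ 1), and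
3E ≤ K(μ+1) with K = 3 (E0 + E1 + 1). Estimate: (9/5)^(ν-1) (2/T)^(2(ν-1)) ≤ (9/5 * 4/9)^(ν-1) ≤ 1 (2/T ≤ 2/3);
(2/T)^(3q) ≤ (1/T)^q because (2/T)^3 = 8/T^3 ≤ 1/T (T^2 ≥ 9 > 8); T^q ≥ (1+δ)^(m q) ≥ (1+δ)^E > 2 * 2^μ * F.
So the left side is ≤ 2 * 2^μ * F / T^q < 1.
`vanish`. K from choose_h. For i with i + 2 h m < w + 2 ν m apply bar_pow (T cast to ℝ, Y = 2^μ F) to
g j s = (y j (i + s m) : ℝ): hb from the bound; hr from the recurrence at i + s m (i + (s+2) m = i + s m + 2 m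
etc.); h0: s + 2ν ≤ 2h gives i + s m ≤ i + (2h - 2ν) m < w, so y ν (i + s m) = 0. The conclusion
|y 0 (i + h m)| < 1 for an integer gives y 0 (i + h m) = 0 (Int.abs_lt_one_iff after cast).
-/

set_option autoImplicit false

namespace Pool.Agent.H95.LR

lemma choose_h {δ : ℝ} (hδ : 0 < δ) (F : ℕ) : ∃ K : ℕ, ∀ (μ m ν : ℕ) (T : ℤ), 1 ≤ m → 1 ≤ ν →
    3 ≤ T → (1 + δ) ^ m ≤ (T : ℝ) →
    ∃ h : ℕ, 2 * ν + 1 ≤ h ∧ h * m ≤ 3 * ν * m + K * (μ + 1) ∧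
      2 * (9 / 5 : ℝ) ^ (ν - 1) * (2 ^ μ * F) * (2 / T) ^ h < 1 := by
  have h1δ : 1 < 1 + δ := by linarith
  obtain ⟨E0, hE0⟩ := pow_unbounded_of_one_lt (2 * ((F : ℝ) + 1)) h1δ
  obtain ⟨E1, hE1⟩ := pow_unbounded_of_one_lt (2 : ℝ) h1δ
  refine ⟨3 * (E0 + E1 + 1), fun μ m ν T hm hν hT hTm => ?_⟩
  obtain ⟨ν', rfl⟩ : ∃ ν', ν = ν' + 1 := ⟨ν - 1, by omega⟩
  set E : ℕ := E0 + E1 * μ + 1 with hE
  set q : ℕ := (E + m - 1) / m with hq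
  have hq1 : q * m ≤ E + m - 1 := Nat.div_mul_le_self _ _
  have hq2 : E ≤ q * m := by
    have h1 : E + m - 1 < m * (q + 1) := Nat.lt_mul_div_succ _ (by omega)
    have h2 : m * (q + 1) = q * m + m := by ring
    omega
  have hq3 : 1 ≤ q := by
    rcases Nat.eq_zero_or_pos q with h | h
    · rw [h] at hq2
      omega
    · exact h
  have hEbig : 2 * (2 ^ μ * (F : ℝ)) < (1 + δ) ^ E := by
    have a1 : (1 + δ) ^ E = (1 + δ) ^ E0 * ((1 + δ) ^ E1) ^ μ * (1 + δ) := by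
      rw [hE, pow_succ, pow_add, pow_mul]
    have a2 : (2 : ℝ) ^ μ ≤ ((1 + δ) ^ E1) ^ μ := pow_le_pow_left₀ (by norm_num) hE1.le μ
    have a3 : (0 : ℝ) < 2 ^ μ := by positivity
    have hF : (0 : ℝ) ≤ F := Nat.cast_nonneg F
    calc 2 * (2 ^ μ * (F : ℝ)) < 2 * ((F : ℝ) + 1) * 2 ^ μ := by nlinarith
      _ ≤ (1 + δ) ^ E0 * ((1 + δ) ^ E1) ^ μ := mul_le_mul hE0.le a2 a3.le (by positivity)
      _ ≤ (1 + δ) ^ E0 * ((1 + δ) ^ E1) ^ μ * (1 + δ) :=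
        le_mul_of_one_le_right (by positivity) h1δ.le
      _ = (1 + δ) ^ E := a1.symm
  have hT' : (3 : ℝ) ≤ T := by exact_mod_cast hT
  have hTpos : (0 : ℝ) < T := by linarith
  have hTq : (1 + δ) ^ E ≤ (T : ℝ) ^ q := by
    calc (1 + δ) ^ E ≤ (1 + δ) ^ (q * m) := pow_le_pow_right₀ h1δ.le hq2
      _ = ((1 + δ) ^ m) ^ q := by rw [mul_comm, pow_mul]
      _ ≤ (T : ℝ) ^ q := pow_le_pow_left₀ (by positivity) hTm q
  refine ⟨2 * ν' + 3 * q, by omega, ?_, ?_⟩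
  · have b1 : (2 * ν' + 3 * q) * m = 2 * (ν' * m) + 3 * (q * m) := by ring
    have b2 : 3 * (ν' + 1) * m = 3 * (ν' * m) + 3 * m := by ring
    have b3 : 3 * (E0 + E1 + 1) * (μ + 1) = 3 * (E0 + E1 * μ + 1) + 3 * (E0 * μ + E1 + μ) := by
      ring
    rw [b1, b2, b3, ← hE]
    omega
  · have hx : (2 / (T : ℝ)) ≤ 2 / 3 := by
      rw [div_le_div_iff₀ hTpos (by norm_num)]
      linarith
    have hx0 : (0 : ℝ) ≤ 2 / (T : ℝ) := by positivity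
    have c1 : ((2 / (T : ℝ)) ^ 2) ≤ 4 / 9 := by nlinarith
    have c2 : ((2 / (T : ℝ)) ^ 3) ≤ 1 / T := by
      rw [div_pow, div_le_div_iff₀ (by positivity) hTpos]
      nlinarith [mul_nonneg hTpos.le (mul_nonneg (by linarith : (0 : ℝ) ≤ T - 3) hTpos.le),
        mul_nonneg hTpos.le (by linarith : (0 : ℝ) ≤ T - 3)]
    have c3 : (9 / 5 : ℝ) ^ ν' * (2 / (T : ℝ)) ^ (2 * ν') ≤ 1 := by
      rw [pow_mul, ← mul_pow]
      refine pow_le_one₀ (by positivity) ?_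
      nlinarith
    have c4 : (2 / (T : ℝ)) ^ (3 * q) ≤ 1 / (T : ℝ) ^ q := by
      rw [pow_mul, ← one_div_pow]
      exact pow_le_pow_left₀ (by positivity) c2 q
    have hF : (0 : ℝ) ≤ 2 ^ μ * (F : ℝ) := by positivity
    have hTqpos : (0 : ℝ) < (T : ℝ) ^ q := by positivity
    rw [Nat.add_sub_cancel]
    calc 2 * (9 / 5 : ℝ) ^ ν' * (2 ^ μ * F) * (2 / T) ^ (2 * ν' + 3 * q)
        = 2 * (2 ^ μ * F) * ((9 / 5 : ℝ) ^ ν' * (2 / (T : ℝ)) ^ (2 * ν')) *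
          (2 / (T : ℝ)) ^ (3 * q) := by rw [pow_add]; ring
      _ ≤ 2 * (2 ^ μ * F) * 1 * (1 / (T : ℝ) ^ q) := by
        refine mul_le_mul (mul_le_mul_of_nonneg_left c3 (by positivity)) c4 (by positivity) ?_
        positivity
      _ = 2 * (2 ^ μ * F) / (T : ℝ) ^ q := by ring
      _ < 1 := by
        rw [div_lt_one hTqpos]
        exact hEbig.trans_le hTq

lemma vanish {δ : ℝ} (hδ : 0 < δ) (F : ℕ) : ∃ K : ℕ, ∀ (μ m ν : ℕ) (T : ℤ), 1 ≤ m → 1 ≤ ν →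
    3 ≤ T → (1 + δ) ^ m ≤ (T : ℝ) →
    ∃ h : ℕ, 2 * ν + 1 ≤ h ∧ h * m ≤ 3 * ν * m + K * (μ + 1) ∧
      ∀ (y : ℕ → ℕ → ℤ) (w : ℕ), (∀ j < ν, ∀ i, |y j i| ≤ 2 ^ μ * F) →
        (∀ j < ν, ∀ i, y j (i + 2 * m) - T * y j (i + m) + y j i = y (j + 1) i) →
        (∀ i < w, y ν i = 0) →
        ∀ i, i + 2 * h * m < w + 2 * ν * m → y 0 (i + h * m) = 0 := by
  obtain ⟨K, hK⟩ := choose_h hδ F
  refine ⟨K, fun μ m ν T hm hν hT hTm => ?_⟩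
  obtain ⟨h, hh1, hh2, hh3⟩ := hK μ m ν T hm hν hT hTm
  refine ⟨h, hh1, hh2, fun y w hb hr h0 i hi => ?_⟩
  have hT' : (3 : ℝ) ≤ T := by exact_mod_cast hT
  have key := bar_pow hT' (Y := 2 ^ μ * (F : ℝ)) (by positivity) hν (by omega : ν ≤ h)
    (fun j s => ((y j (i + s * m) : ℤ) : ℝ)) ?_ ?_ ?_
  · have h1 : |((y 0 (i + h * m) : ℤ) : ℝ)| < 1 := key.trans_lt hh3
    have h2 : |y 0 (i + h * m)| < 1 := by exact_mod_cast h1
    exact Int.abs_lt_one_iff.1 h2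
  · intro j hj s _
    have h1 := hb j hj (i + s * m)
    have h2 : (|y j (i + s * m)| : ℝ) ≤ ((2 ^ μ * F : ℤ) : ℝ) := by exact_mod_cast h1
    push_cast at h2
    exact h2
  · intro j hj s _
    have h1 := hr j hj (i + s * m)
    have e1 : i + s * m + 2 * m = i + (s + 2) * m := by ring
    have e2 : i + s * m + m = i + (s + 1) * m := by ring
    rw [e1, e2] at h1
    have h2 := congrArg (fun z : ℤ => (z : ℝ)) h1
    push_cast at h2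
    exact h2
  · intro s hs
    have h1 : s * m + 2 * ν * m ≤ 2 * h * m := by
      have := Nat.mul_le_mul_right m hs
      linarith [this, add_mul s (2 * ν) m]
    have h2 : y ν (i + s * m) = 0 := h0 _ (by omega)
    simp only [h2, Int.cast_zero]

end Pool.Agent.H95.LR
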