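import Pool.Agent.H95.LR.Non
import Pool.Agent.H95.LR.Com
import Pool.Agent.H95.LR.RepA
import Pool.Agent.H95.LR.RepB
import Pool.Agent.H95.LR.RepC
import Pool.Agent.H95.LR.Fct
import Pool.Agent.H95.LR.Van
import Pool.Agent.H95.LR.GrW
import Pool.Agent.H95.LR.TrW
import Pool.Agent.H95.LC.Rel2

/-!
# Relations in polynomial form: no window longer than twice the span
-/

set_option autoImplicit false

namespace Pool.Agent.H95.LR

open Polynomial Finset
open Pool.Agent.H1.PC
open Pool.Agent.H18.LC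
open Pool.Agent.H95.LC (op G l1 Compat height rel_case_log l1_div_pow l1_nonneg)

/-- The coefficients at degree zero give a non-zero value if the span is zero. -/
lemma nonzero_zero {α : ℝ} (hα : Irrational α) {n w m r : ℕ} (hm : 1 ≤ m) {A B : ℤ[X]}
    (hA : A.natDegree ≤ 0) (hB : B = 0 ∨ B.natDegree * m + r ≤ 0 * m) (h0 : A ≠ 0 ∨ B ≠ 0) :
    ∃ i ≤ w + 1, ∑ j ∈ range (0 * m + 1),
      (ca m A j * den α (n + i + j) + cb (0 * m) r m B j * den α (n + (w + 1 - i) + j)) ≠ 0 := by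
  have e0 : (0 * m + 1) = 1 := by omega
  have hAc : ca m A 0 = A.coeff 0 := by simp [ca]
  have hBc : B ≠ 0 → cb (0 * m) r m B 0 = B.coeff 0 := by
    intro hB0
    have hr : r = 0 := by
      rcases hB with h | h
      · exact absurd h hB0
      · omega
    simp [cb, hr]
  have hab : ca m A 0 ≠ 0 ∨ cb (0 * m) r m B 0 ≠ 0 := by
    rcases h0 with h | h
    · left
      rw [hAc]
      rw [Polynomial.eq_C_of_natDegree_le_zero hA] at h
      intro h1
      exact h (by rw [h1]; simp)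
    · right
      rw [hBc h]
      have hd : B.natDegree ≤ 0 := by
        rcases hB with h2 | h2
        · exact absurd h2 h
        · have : B.natDegree * m = 0 := by omega
          rcases Nat.mul_eq_zero.1 this with h3 | h3 <;> omega
      intro h1
      apply h
      rw [Polynomial.eq_C_of_natDegree_le_zero hd, h1]; simp
  rcases zero_L hα n w hab with h | h
  · refine ⟨0, by omega, ?_⟩
    rw [e0, Finset.sum_range_one]
    simpa using h
  · refine ⟨w + 1, le_rfl, ?_⟩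
    rw [e0, Finset.sum_range_one]
    simpa using h

theorem poly_rel {α : ℝ} (hα : Irrational α) {δ : ℝ} (hδ : 0 < δ)
    (hbad : ∀ q : ℕ, 0 < q → ∀ p : ℤ, δ ≤ (q : ℝ) * |(q : ℝ) * α - p|)
    {β : ℝ} {R : ℕ → ℤ} {M : ℝ} (hM : ∀ k, |(den α k : ℝ) * β - R k| ≤ M)
    {F : ℕ} (hF : ∀ k, |digit α R k| ≤ F)
    (hfail : ¬ ∀ ε : ℝ, 0 < ε → ∀ N : ℕ, ∃ q : ℕ, N ≤ q ∧ 0 < q ∧ ∃ p r : ℤ,
      (q : ℝ) * |(q : ℝ) * α - p| * |(q : ℝ) * β - r| < ε) :
    ∃ K : ℕ, ∀ (μ n w J m r : ℕ) (A B : ℤ[X]), Good α R n w J m r A B →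
      l1 A + l1 B ≤ 2 ^ μ → w < 2 * (J * m) + K * (μ + 1) := by
  obtain ⟨K1, hK1⟩ := trace_large hδ
  obtain ⟨K2, hK2⟩ := vanish hδ F
  obtain ⟨K3, hK3⟩ := pair_nonzero hα hδ hbad
  by_contra hcon
  push Not at hcon
  apply hfail
  apply rel_case_log hα hδ hbad hM
  intro K
  obtain ⟨μ, n, w, J, m, r, A, B, hg, hl, hw⟩ := hcon (K + K1 + 2 * K2 + K3 + 2)
  have eK : (K + K1 + 2 * K2 + K3 + 2) * (μ + 1) = K * (μ + 1) + K1 * (μ + 1) +
      2 * (K2 * (μ + 1)) + K3 * (μ + 1) + 2 * (μ + 1) := by ring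
  have hK1w : K1 ≤ K1 * (μ + 1) := Nat.le_mul_of_pos_right _ (by omega)
  obtain ⟨hm, hr, dA, dB, ne, per, ref, rel⟩ := hg
  -- the general output
  have key : ∀ (ν h : ℕ) (A0 B0 : ℤ[X]), 2 * ν ≤ J → A0.natDegree ≤ J - 2 * ν →
      (B0 = 0 ∨ B0.natDegree * m + r ≤ (J - 2 * ν) * m) → (B0 ≠ 0 → B ≠ 0) →
      l1 A0 + l1 B0 ≤ 2 ^ μ → 2 * ((J - 2 * ν) * m) + K * (μ + 1) + 2 * h ≤ w + 2 * ν * m →
      (∀ i, i + 2 * h < w + 2 * ν * m → pr m r A0 B0 (fun k => digit α R (n + k))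
        (fun k => digit α R (n + (w - 1 + J * m) - k)) (i + h) = 0) →
      (∃ i ≤ w + 2 * ν * m + 1, ∑ j ∈ range ((J - 2 * ν) * m + 1),
        (ca m A0 j * den α (n + i + j) +
          cb ((J - 2 * ν) * m) r m B0 j * den α (n + (w + 2 * ν * m + 1 - i) + j)) ≠ 0) →
      ∃ (μ n w L : ℕ) (a b : ℕ → ℤ), 2 * L + K * (μ + 1) ≤ w ∧
      height a b L ≤ 2 ^ μ ∧
      Compat α n w L a b ∧
      (∀ i < w, ∑ j ∈ range (L + 1),
        (a j * digit α R (n + i + j) + b j * digit α R (n + (w - 1 - i) + j)) = 0) ∧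
      ∃ i ≤ w + 1, ∑ j ∈ range (L + 1),
        (a j * den α (n + i + j) + b j * den α (n + (w + 1 - i) + j)) ≠ 0 := by
    intro ν h A0 B0 hν dA0 dB0 hBB hl0 hineq hrel hne
    have hcw := compat_whole (A0 := A0) (B0 := B0) hm hν per (fun h0 => ref (hBB h0))
    refine ⟨μ, n + h, w + 2 * ν * m - 2 * h, (J - 2 * ν) * m, ca m A0,
      cb ((J - 2 * ν) * m) r m B0, by omega, ?_, compat_sub (by omega) hcw, ?_,
      sub_nonzero (by omega) hcw hne⟩
    · unfold height
      rw [height_eq hm dA0 dB0]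
      exact hl0
    · intro i hi
      have h1 := hrel i (by omega)
      have e1 : (J - 2 * ν) * m + 2 * ν * m = J * m := by
        rw [← Nat.add_mul]; congr 1; omega
      have e2 : n + (w - 1 + J * m) = n + (w + 2 * ν * m - 1 + (J - 2 * ν) * m) := by omega
      rw [e2, pr_sum hm dA0 dB0 (digit α R) (by omega : i + h ≤ w + 2 * ν * m - 1)] at h1
      rw [← h1]
      apply Finset.sum_congr rfl
      intro j _
      rw [show n + h + i + j = n + (i + h) + j by ring,
        show n + h + (w + 2 * ν * m - 2 * h - 1 - i) + j =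
          n + (w + 2 * ν * m - 1 - (i + h)) + j by omega]
  rcases Nat.eq_zero_or_pos J with hJ | hJ
  · -- span zero
    subst hJ
    refine key 0 0 A B (by omega) (by simpa using dA) (by simpa using dB) (fun h => h) hl
      (by simp only [Nat.zero_mul, Nat.mul_zero, Nat.zero_sub, Nat.add_zero] at hw ⊢; omega) ?_ ?_
    · intro i hi
      simpa using rel i (by simpa using hi)
    · have := nonzero_zero (n := n) (w := w) hα hm dA dB ne
      simpa using this
  -- the trace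
  have hJm : m ≤ J * m := Nat.le_mul_of_pos_left _ hJ
  obtain ⟨T, hT⟩ := trace_window (fun i => pq α (n + i + 1)) (N := w + J * m) hm (fun i hi => by
    have := per i hi
    rw [show n + (i + m) + 1 = n + i + m + 1 by ring]
    exact this)
  have hden : ∀ i < w + J * m, ((fun k => (den α (n + k) : ℝ)) (i + 2)) =
      pq α (n + i + 1) * (fun k => (den α (n + k) : ℝ)) (i + 1) -
        (fun k => (den α (n + k) : ℝ)) i := fun i _ => den_rec (n + i)
  have g1 : ∀ i, 0 < (fun k => (den α (n + k) : ℝ)) (i + 1) := fun i => by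
    have h1 := (den_inc hα (n + i)).1
    have h2 := (den_inc hα (n + i)).2
    have h3 : 0 < den α (n + (i + 1)) := by
      rw [show n + (i + 1) = n + i + 1 by ring]; omega
    change (0 : ℝ) < (den α (n + (i + 1)) : ℝ)
    exact_mod_cast h3
  have g2 : ∀ i, (1 + δ) * (fun k => (den α (n + k) : ℝ)) i ≤
      (fun k => (den α (n + k) : ℝ)) (i + 1) := fun i => (step_facts hα hδ hbad (n + i)).2.1
  have g3 := hT (fun k => (den α (n + k) : ℝ)) hden
  have g0 : 0 ≤ (fun k => (den α (n + k) : ℝ)) 0 := den_cast_nonneg hα _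
  obtain ⟨hT3, hTm⟩ := hK1 (w + J * m) m T (fun k => (den α (n + k) : ℝ)) hm (by omega) (by omega)
    g0 g1 g2 g3
  obtain ⟨ν, A0, B0, hA0, hB0, hne0, hG⟩ := split_pair T ne
  rw [hA0] at dA
  rw [hB0] at dB
  obtain ⟨hν, dA0, dB0⟩ := pair_deg hm hne0 dA dB
  have hl0 : l1 A0 + l1 B0 ≤ 2 ^ μ := by
    have h1 := l1_div_pow hT3 A0 ν
    have h2 := l1_div_pow hT3 B0 ν
    rw [hA0, hB0] at hl
    linarith
  have hBB : B0 ≠ 0 → B ≠ 0 := by
    intro h1 h2
    rw [h2] at hB0
    have := (Pool.Agent.H95.LC.G_monic T).ne_zero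
    rcases mul_eq_zero.1 hB0.symm with h3 | h3
    · exact pow_ne_zero _ this h3
    · exact h1 h3
  have e1 : (J - 2 * ν) * m + 2 * ν * m = J * m := by
    rw [← Nat.add_mul]; congr 1; omega
  -- non-vanishing on the whole window
  have hne : ∃ i ≤ w + 2 * ν * m + 1, ∑ j ∈ range ((J - 2 * ν) * m + 1),
        (ca m A0 j * den α (n + i + j) +
          cb ((J - 2 * ν) * m) r m B0 j * den α (n + (w + 2 * ν * m + 1 - i) + j)) ≠ 0 := by
    rcases Nat.eq_zero_or_pos (J - 2 * ν) with hJ' | hJ'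
    · rw [hJ'] at dA0 dB0 ⊢
      exact nonzero_zero hα hm dA0 dB0 hne0
    · have hJm' : m ≤ (J - 2 * ν) * m := Nat.le_mul_of_pos_left _ hJ'
      have e2 : w + 2 * ν * m + (J - 2 * ν) * m = w + J * m := by omega
      obtain ⟨i, hi, h1⟩ := hK3 μ n (w + 2 * ν * m) (J - 2 * ν) m r T A0 B0 hm hr hJ' hT3
        (by rw [e2]; exact hT) dA0 dB0 hl0 (by omega) hG
      refine ⟨i, hi, ?_⟩
      rw [pr_sum hm dA0 dB0 (den α) (by omega : i ≤ w + 2 * ν * m + 1)] at h1
      exact h1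
  rcases Nat.eq_zero_or_pos ν with hν0 | hν0
  · subst hν0
    refine key 0 0 A0 B0 hν dA0 dB0 hBB hl0
      (by simp only [Nat.mul_zero, Nat.zero_mul, Nat.sub_zero, Nat.add_zero]; omega) ?_ hne
    intro i hi
    have h1 := rel i (by omega)
    rw [hA0, hB0] at h1
    simpa using h1
  · obtain ⟨h0, h01, h02, hv⟩ := hK2 μ m ν T hm hν0 hT3 hTm
    have e3 : 3 * ν * m = ν * m + 2 * ν * m := by ring
    have e4 : 2 * ν * m = 2 * (ν * m) := by ring
    refine key ν (h0 * m) A0 B0 hν dA0 dB0 hBB hl0 (by omega) ?_ hne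
    intro i hi
    refine hv (fun j i => pr m r (G T ^ j * A0) (G T ^ j * B0) (fun k => digit α R (n + k))
        (fun k => digit α R (n + (w - 1 + J * m) - k)) i) w ?_ ?_ ?_ i
        (by rw [show 2 * h0 * m = 2 * (h0 * m) by ring]; exact hi) |> fun h => by simpa using h
    · intro j hj i
      refine (pr_bound (F := (F : ℤ)) (fun k => hF _) (fun k => hF _) i).trans ?_
      apply mul_le_mul_of_nonneg_right _ (Int.natCast_nonneg F)
      have h1 := l1_div_pow hT3 (G T ^ j * A0) (ν - j)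
      have h2 := l1_div_pow hT3 (G T ^ j * B0) (ν - j)
      rw [← mul_assoc, ← pow_add, show ν - j + j = ν by omega] at h1 h2
      rw [hA0, hB0] at hl
      linarith
    · intro j hj i
      have h1 := pr_G m r T (G T ^ j * A0) (G T ^ j * B0) (fun k => digit α R (n + k))
        (fun k => digit α R (n + (w - 1 + J * m) - k)) i
      rw [← mul_assoc, ← mul_assoc, ← pow_succ', smul_eq_mul] at h1
      exact h1.symm
    · intro i hi
      have h1 := rel i hi
      rw [hA0, hB0] at h1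
      exact h1

end Pool.Agent.H95.LR
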