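import Mathlib

/-!
# Siegel's lemma: every bounded sequence has relations of small height on windows that are
almost as long as the number of free coefficients allows
-/

set_option autoImplicit false

namespace Pool.Agent.H95.LR

open Finset
open scoped Matrix.Norms.Elementwise

lemma siegel_nat {w N F s : ℕ} (hN : 1 ≤ N) (hs : 1 ≤ s) (hw : s * w ≤ (s - 1) * N)
    (X : Fin w → Fin N → ℤ) (hX : ∀ i j, |X i j| ≤ F) :
    ∃ t : Fin N → ℤ, t ≠ 0 ∧ (∀ i, ∑ j, X i j * t j = 0) ∧
      ∀ j, |t j| ≤ ((N * (F + 1) : ℕ) : ℤ) ^ (s - 1) := by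
  classical
  have hone : 1 ≤ N * (F + 1) := Nat.mul_pos (by omega) (by omega)
  rcases Nat.eq_zero_or_pos w with hw0 | hw0
  · subst hw0
    refine ⟨fun _ => 1, ?_, fun i => i.elim0, fun j => ?_⟩
    · intro h
      have := congrFun h ⟨0, by omega⟩
      simp at this
    · rw [abs_one]
      exact_mod_cast Nat.one_le_pow _ _ hone
  · obtain ⟨s, rfl⟩ : ∃ r, s = r + 1 := ⟨s - 1, by omega⟩
    rw [Nat.add_sub_cancel] at hw ⊢
    have hlt : w < N := by
      by_contra hcon
      push Not at hcon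
      have h1 : (s + 1) * w = s * w + w := by ring
      have h2 : s * N ≤ s * w := Nat.mul_le_mul_left _ hcon
      omega
    set A : Matrix (Fin w) (Fin N) ℤ := Matrix.of X with hA
    obtain ⟨t, ht0, ht, hn⟩ := Int.Matrix.exists_ne_zero_int_vec_norm_le A
      (by simpa using hlt) (by simpa using hw0)
    refine ⟨t, ht0, fun i => ?_, fun j => ?_⟩
    · have := congrFun ht i
      simpa [Matrix.mulVec, dotProduct, hA] using this
    · have h1 : ‖t j‖ ≤ ‖t‖ := norm_le_pi_norm t j
      have hAF : ‖A‖ ≤ (F : ℝ) := (Matrix.norm_le_iff (by positivity)).2 fun i j => by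
        rw [Int.norm_eq_abs]
        exact_mod_cast hX i j
      have hNR : (1 : ℝ) ≤ N := by exact_mod_cast hN
      have hFR : (0 : ℝ) ≤ F := Nat.cast_nonneg F
      have hmax : max 1 ‖A‖ ≤ (F : ℝ) + 1 := max_le (by linarith) (by linarith)
      have hb : (N : ℝ) * max 1 ‖A‖ ≤ N * (F + 1) := by
        apply mul_le_mul_of_nonneg_left hmax (by linarith)
      have hb1 : (1 : ℝ) ≤ (N : ℝ) * max 1 ‖A‖ := by
        have : (1 : ℝ) ≤ max 1 ‖A‖ := le_max_left _ _
        nlinarith
      have hpos : (0 : ℝ) < (N : ℝ) - w := by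
        have : (w : ℝ) < N := by exact_mod_cast hlt
        linarith
      have he : (w : ℝ) / ((N : ℝ) - w) ≤ ((s : ℕ) : ℝ) := by
        rw [div_le_iff₀ hpos]
        have : ((s : ℝ) + 1) * w ≤ s * N := by exact_mod_cast hw
        nlinarith
      have h2 : ‖t‖ ≤ ((N : ℝ) * (F + 1)) ^ s := by
        calc ‖t‖ ≤ ((N : ℝ) * max 1 ‖A‖) ^ ((w : ℝ) / ((N : ℝ) - w)) := by
              simpa using hn
          _ ≤ ((N : ℝ) * max 1 ‖A‖) ^ ((s : ℕ) : ℝ) :=
              Real.rpow_le_rpow_of_exponent_le hb1 he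
          _ = ((N : ℝ) * max 1 ‖A‖) ^ s := Real.rpow_natCast _ _
          _ ≤ ((N : ℝ) * (F + 1)) ^ s := pow_le_pow_left₀ (by linarith) hb s
      have h3 := h1.trans h2
      rw [Int.norm_eq_abs] at h3
      have h4 : ((|t j| : ℤ) : ℝ) ≤ ((((N * (F + 1) : ℕ) : ℤ) ^ s : ℤ) : ℝ) := by
        push_cast
        exact h3
      exact_mod_cast h4

/-- Relations of translates and reflections. -/
lemma sharp_pair {e : ℕ → ℤ} {F : ℕ} (hF : ∀ k, |e k| ≤ F) {s : ℕ} (hs : 1 ≤ s)
    (n w L : ℕ) (hw : s * w ≤ (s - 1) * (2 * (L + 1))) :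
    ∃ a b : ℕ → ℤ, (∃ j ≤ L, a j ≠ 0 ∨ b j ≠ 0) ∧
      (∀ i < w, ∑ j ∈ range (L + 1), (a j * e (n + i + j) + b j * e (n + (w - 1 - i) + j)) = 0) ∧
      ∑ j ∈ range (L + 1), (|a j| + |b j|) ≤ (((2 * (F + 1)) * (L + 1) : ℕ) : ℤ) ^ s := by
  classical
  obtain ⟨t, ht0, ht, hb⟩ := siegel_nat (w := w) (N := (L + 1) + (L + 1)) (F := F) (s := s)
    (by omega) hs (by rw [← two_mul]; exact hw)
    (fun i j => Fin.addCases (fun j : Fin (L + 1) => e (n + i + j))
      (fun j : Fin (L + 1) => e (n + (w - 1 - i) + j)) j)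
    (fun i j => by
      refine Fin.addCases (fun j => ?_) (fun j => ?_) j
      · rw [Fin.addCases_left]; exact hF _
      · rw [Fin.addCases_right]; exact hF _)
  set a : ℕ → ℤ := fun j => if h : j < L + 1 then t (Fin.castAdd (L + 1) ⟨j, h⟩) else 0 with ha
  set b : ℕ → ℤ := fun j => if h : j < L + 1 then t (Fin.natAdd (L + 1) ⟨j, h⟩) else 0 with hb'
  have ea : ∀ j : Fin (L + 1), a j = t (Fin.castAdd (L + 1) j) := fun j => dif_pos j.2
  have eb : ∀ j : Fin (L + 1), b j = t (Fin.natAdd (L + 1) j) := fun j => dif_pos j.2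
  refine ⟨a, b, ?_, ?_, ?_⟩
  · by_contra hcon
    push Not at hcon
    apply ht0
    funext j
    refine Fin.addCases (fun j => ?_) (fun j => ?_) j
    · rw [← ea j]; exact (hcon j (by have := j.2; omega)).1
    · rw [← eb j]; exact (hcon j (by have := j.2; omega)).2
  · intro i hi
    have h1 := ht ⟨i, hi⟩
    rw [Fin.sum_univ_add] at h1
    simp only [Fin.addCases_left, Fin.addCases_right] at h1
    rw [← Fin.sum_univ_eq_sum_range
      (fun j => a j * e (n + i + j) + b j * e (n + (w - 1 - i) + j)) (L + 1),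
      Finset.sum_add_distrib, ← h1]
    congr 1
    · apply Finset.sum_congr rfl
      intro j _
      rw [ea j, mul_comm]
    · apply Finset.sum_congr rfl
      intro j _
      rw [eb j, mul_comm]
  · rw [← Fin.sum_univ_eq_sum_range (fun j => |a j| + |b j|) (L + 1)]
    have h1 : ∀ j : Fin (L + 1), |a j| + |b j| ≤
        2 * (((L + 1) + (L + 1)) * (F + 1) : ℕ) ^ (s - 1) := fun j => by
      rw [ea j, eb j]
      have h2 := hb (Fin.castAdd (L + 1) j)
      have h3 := hb (Fin.natAdd (L + 1) j)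
      push_cast at h2 h3 ⊢
      linarith
    refine (Finset.sum_le_sum (fun j _ => h1 j)).trans ?_
    rw [Finset.sum_const, Finset.card_univ, Fintype.card_fin, nsmul_eq_mul]
    obtain ⟨s, rfl⟩ : ∃ r, s = r + 1 := ⟨s - 1, by omega⟩
    rw [Nat.add_sub_cancel, pow_succ]
    have e1 : ((L + 1) + (L + 1)) * (F + 1) = (2 * (F + 1)) * (L + 1) := by ring
    rw [e1]
    have h4 : (0 : ℤ) ≤ (((2 * (F + 1)) * (L + 1) : ℕ) : ℤ) ^ s := by positivity
    have h5 : (((L + 1 : ℕ) : ℤ)) * (2 * (((2 * (F + 1)) * (L + 1) : ℕ) : ℤ) ^ s) =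
      (((2 * (F + 1)) * (L + 1) : ℕ) : ℤ) ^ s * (2 * (L + 1)) := by push_cast; ring
    push_cast at h5 h4 ⊢
    rw [h5]
    apply mul_le_mul_of_nonneg_left _ h4
    have : (0 : ℤ) ≤ F := Int.natCast_nonneg F
    nlinarith [Int.natCast_nonneg L]

/-- Reciprocal relations of translates. -/
lemma sharp_rec {e : ℕ → ℤ} {F : ℕ} (hF : ∀ k, |e k| ≤ F) {s : ℕ} (hs : 1 ≤ s)
    (n w L : ℕ) (hw : s * (2 * w) ≤ (s - 1) * (L + 1)) :
    ∃ a : ℕ → ℤ, (∃ j ≤ L, a j ≠ 0) ∧ (∀ j ≤ L, a (L - j) = a j) ∧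
      (∀ i < w, ∑ j ∈ range (L + 1), a j * e (n + i + j) = 0) ∧
      ∑ j ∈ range (L + 1), |a j| ≤ (((2 * (F + 1)) * (L + 1) : ℕ) : ℤ) ^ s := by
  classical
  set N := L / 2 + 1 with hN
  have hfold : ∀ j ≤ L, min j (L - j) < N := fun j hj => by
    rcases Nat.le_total j (L - j) with h | h
    · rw [min_eq_left h]; omega
    · rw [min_eq_right h]; omega
  set X : Fin w → Fin N → ℤ := fun i k =>
    ∑ j ∈ (range (L + 1)).filter (fun j => min j (L - j) = k), e (n + i + j) with hX
  have hXb : ∀ i k, |X i k| ≤ ((2 * F : ℕ) : ℤ) := by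
    intro i k
    refine (Finset.abs_sum_le_sum_abs _ _).trans ?_
    refine (Finset.sum_le_sum (fun j _ => hF _)).trans ?_
    rw [Finset.sum_const, nsmul_eq_mul]
    have hc : ((range (L + 1)).filter (fun j => min j (L - j) = (k : ℕ))).card ≤ 2 := by
      have hsub : (range (L + 1)).filter (fun j => min j (L - j) = (k : ℕ)) ⊆
          ({(k : ℕ), L - k} : Finset ℕ) := by
        intro j hj
        rw [Finset.mem_filter, Finset.mem_range] at hj
        rw [Finset.mem_insert, Finset.mem_singleton]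
        rcases Nat.le_total j (L - j) with h | h
        · left; rw [min_eq_left h] at hj; exact hj.2
        · right; rw [min_eq_right h] at hj; omega
      exact (Finset.card_le_card hsub).trans Finset.card_le_two
    push_cast
    have : (0 : ℤ) ≤ F := Int.natCast_nonneg F
    have h2 : (((range (L + 1)).filter (fun j => min j (L - j) = (k : ℕ))).card : ℤ) ≤ 2 := by
      exact_mod_cast hc
    nlinarith
  obtain ⟨t, ht0, ht, hb⟩ := siegel_nat (w := w) (N := N) (F := 2 * F) (s := s) (by omega) hs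
    (by
      have h1 : (s - 1) * (L + 1) ≤ (s - 1) * (2 * N) := Nat.mul_le_mul_left _ (by omega)
      have h2 : (s - 1) * (2 * N) = 2 * ((s - 1) * N) := by ring
      have h3 : s * (2 * w) = 2 * (s * w) := by ring
      omega) X hXb
  set a : ℕ → ℤ := fun j => if h : min j (L - j) < N then t ⟨min j (L - j), h⟩ else 0 with ha
  have ea : ∀ j (hj : j ≤ L), a j = t ⟨min j (L - j), hfold j hj⟩ := fun j hj => by
    simp only [ha, dif_pos (hfold j hj)]
  have hab : ∀ j ≤ L, |a j| ≤ ((N * (2 * F + 1) : ℕ) : ℤ) ^ (s - 1) := fun j hj => by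
    rw [ea j hj]; exact hb _
  refine ⟨a, ?_, ?_, ?_, ?_⟩
  · by_contra hcon
    push Not at hcon
    apply ht0
    funext k
    have hk : (k : ℕ) ≤ L := by have := k.2; omega
    have h1 := hcon k hk
    rw [ea k hk] at h1
    have h2 : min (k : ℕ) (L - k) = k := min_eq_left (by have := k.2; omega)
    refine Eq.trans ?_ h1
    congr 1
    ext
    exact h2.symm
  · intro j hj
    rw [ea j hj, ea (L - j) (by omega)]
    congr 1
    ext
    simp only []
    rw [show L - (L - j) = j by omega, min_comm]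
  · intro i hi
    have h1 := ht ⟨i, hi⟩
    rw [← h1]
    simp only [hX]
    have h2 : ∀ k : Fin N, (∑ j ∈ (range (L + 1)).filter (fun j => min j (L - j) = (k : ℕ)),
        e (n + i + j)) * t k = ∑ j ∈ (range (L + 1)).filter (fun j => min j (L - j) = (k : ℕ)),
          a j * e (n + i + j) := by
      intro k
      rw [Finset.sum_mul]
      apply Finset.sum_congr rfl
      intro j hj
      rw [Finset.mem_filter, Finset.mem_range] at hj
      rw [ea j (by omega), mul_comm]
      congr 2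
      ext
      exact hj.2.symm
    rw [Finset.sum_congr rfl (fun k _ => h2 k)]
    rw [Fin.sum_univ_eq_sum_range (fun k => ∑ j ∈ (range (L + 1)).filter
      (fun j => min j (L - j) = k), a j * e (n + i + j)) N]
    rw [Finset.sum_fiberwise_of_maps_to]
    intro j hj
    rw [Finset.mem_range] at hj
    exact Finset.mem_range.2 (hfold j (by omega))
  · have h1 : ∀ j ∈ range (L + 1), |a j| ≤ ((N * (2 * F + 1) : ℕ) : ℤ) ^ (s - 1) := fun j hj => by
      rw [Finset.mem_range] at hj
      exact hab j (by omega)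
    refine (Finset.sum_le_sum h1).trans ?_
    rw [Finset.sum_const, Finset.card_range, nsmul_eq_mul]
    obtain ⟨s, rfl⟩ : ∃ r, s = r + 1 := ⟨s - 1, by omega⟩
    rw [Nat.add_sub_cancel, pow_succ, mul_comm]
    have h2 : N * (2 * F + 1) ≤ (2 * (F + 1)) * (L + 1) := by
      have h3 : N ≤ L + 1 := by omega
      calc N * (2 * F + 1) ≤ (L + 1) * (2 * (F + 1)) := Nat.mul_le_mul h3 (by omega)
        _ = _ := by ring
    have h4 : (N * (2 * F + 1)) ^ s ≤ ((2 * (F + 1)) * (L + 1)) ^ s := Nat.pow_le_pow_left h2 s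
    have h5 : (L + 1) ≤ (2 * (F + 1)) * (L + 1) := Nat.le_mul_of_pos_left _ (by omega)
    have h6 := Nat.mul_le_mul h4 h5
    exact_mod_cast h6

end Pool.Agent.H95.LR
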